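import Pool.Agent.PP5M.Defs

/-!
# PP5 (D'), dictionary: the ten charts of `K_x`
-/

set_option autoImplicit false

namespace Pool.Agent.PP5M

open Matrix Pool.Agent.PP5L

private lemma mkN (x : Fin 10 → ℤ) (c : Fin 4 ⊕ Fin 4 → Fin 16) (j : Fin 10) (a : Fin 16)
    (σ : Fin 4 ⊕ Fin 4 → ℤ) (τ : Fin 4 ⊕ Fin 4 → Fin 10) (hσ : ∀ κ, |σ κ| ≤ 1)
    (h : ∀ s, HH x s = 0 → x j * s a =
      (σ (Sum.inl 0) * x (τ (Sum.inl 0)) * s (c (Sum.inl 0)) + σ (Sum.inl 1) * x (τ (Sum.inl 1)) * s (c (Sum.inl 1)) +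
        σ (Sum.inl 2) * x (τ (Sum.inl 2)) * s (c (Sum.inl 2)) + σ (Sum.inl 3) * x (τ (Sum.inl 3)) * s (c (Sum.inl 3))) +
        (σ (Sum.inr 0) * x (τ (Sum.inr 0)) * s (c (Sum.inr 0)) + σ (Sum.inr 1) * x (τ (Sum.inr 1)) * s (c (Sum.inr 1)) +
        σ (Sum.inr 2) * x (τ (Sum.inr 2)) * s (c (Sum.inr 2)) + σ (Sum.inr 3) * x (τ (Sum.inr 3)) * s (c (Sum.inr 3)))) :
    ∃ N : Fin 4 ⊕ Fin 4 → ℤ, (∀ κ, ∃ i, |N κ| ≤ |x i|) ∧
      ∀ s, HH x s = 0 → x j * s a = ∑ κ, N κ * s (c κ) := by
  refine ⟨fun κ => σ κ * x (τ κ), fun κ => ⟨τ κ, ?_⟩, fun s hs => ?_⟩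
  · rw [abs_mul]
    calc |σ κ| * |x (τ κ)| ≤ 1 * |x (τ κ)| := mul_le_mul_of_nonneg_right (hσ κ) (abs_nonneg _)
      _ = |x (τ κ)| := one_mul _
  · rw [h s hs, Fintype.sum_sum_type, Fin.sum_univ_four, Fin.sum_univ_four]

private lemma chart_0 (x : Fin 10 → ℤ) (a : Fin 16) :
    ∃ N : Fin 4 ⊕ Fin 4 → ℤ, (∀ κ, ∃ i, |N κ| ≤ |x i|) ∧
      ∀ s, HH x s = 0 → x 0 * s a = ∑ κ, N κ * s (Sum.elim (cu 0) (cw 0) κ) := by
  fin_cases a
  · exact mkN x _ _ _ (Sum.elim ![1, 0, 0, 0] ![0, 0, 0, 0]) (Sum.elim ![0, 0, 0, 0] ![0, 0, 0, 0]) (by decide)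
      (fun s h => by
        simp only [Fin.zero_eta, Fin.mk_one, Fin.reduceFinMk, cu, cw, Sum.elim_inl, Sum.elim_inr,
          Matrix.cons_val]
        ring)
  · exact mkN x _ _ _ (Sum.elim ![0, -1, -1, 1] ![1, 0, 0, 0]) (Sum.elim ![0, 9, 3, 8] ![4, 0, 0, 0]) (by decide)
      (fun s h => by
        have h1 := congrFun h 11
        simp only [HH, Matrix.cons_val, Pi.zero_apply] at h1
        simp only [Fin.zero_eta, Fin.mk_one, Fin.reduceFinMk, cu, cw, Sum.elim_inl, Sum.elim_inr,
          Matrix.cons_val]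
        first | linear_combination h1 | linear_combination -h1)
  · exact mkN x _ _ _ (Sum.elim ![-1, 0, 1, -1] ![0, 1, 0, 0]) (Sum.elim ![9, 0, 7, 1] ![0, 4, 0, 0]) (by decide)
      (fun s h => by
        have h1 := congrFun h 15
        simp only [HH, Matrix.cons_val, Pi.zero_apply] at h1
        simp only [Fin.zero_eta, Fin.mk_one, Fin.reduceFinMk, cu, cw, Sum.elim_inl, Sum.elim_inr,
          Matrix.cons_val]
        first | linear_combination h1 | linear_combination -h1)
  · exact mkN x _ _ _ (Sum.elim ![0, 1, 0, 0] ![0, 0, 0, 0]) (Sum.elim ![0, 0, 0, 0] ![0, 0, 0, 0]) (by decide)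
      (fun s h => by
        simp only [Fin.zero_eta, Fin.mk_one, Fin.reduceFinMk, cu, cw, Sum.elim_inl, Sum.elim_inr,
          Matrix.cons_val]
        ring)
  · exact mkN x _ _ _ (Sum.elim ![0, 0, 1, 0] ![0, 0, 0, 0]) (Sum.elim ![0, 0, 0, 0] ![0, 0, 0, 0]) (by decide)
      (fun s h => by
        simp only [Fin.zero_eta, Fin.mk_one, Fin.reduceFinMk, cu, cw, Sum.elim_inl, Sum.elim_inr,
          Matrix.cons_val]
        ring)
  · exact mkN x _ _ _ (Sum.elim ![-1, -1, 0, 1] ![0, 0, 1, 0]) (Sum.elim ![3, 7, 0, 6] ![0, 0, 4, 0]) (by decide)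
      (fun s h => by
        have h1 := congrFun h 13
        simp only [HH, Matrix.cons_val, Pi.zero_apply] at h1
        simp only [Fin.zero_eta, Fin.mk_one, Fin.reduceFinMk, cu, cw, Sum.elim_inl, Sum.elim_inr,
          Matrix.cons_val]
        first | linear_combination h1 | linear_combination -h1)
  · exact mkN x _ _ _ (Sum.elim ![-1, -1, 1, 0] ![0, 0, 0, 1]) (Sum.elim ![8, 1, 6, 0] ![0, 0, 0, 4]) (by decide)
      (fun s h => by
        have h1 := congrFun h 9
        simp only [HH, Matrix.cons_val, Pi.zero_apply] at h1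
        simp only [Fin.zero_eta, Fin.mk_one, Fin.reduceFinMk, cu, cw, Sum.elim_inl, Sum.elim_inr,
          Matrix.cons_val]
        first | linear_combination h1 | linear_combination -h1)
  · exact mkN x _ _ _ (Sum.elim ![0, 0, 0, 1] ![0, 0, 0, 0]) (Sum.elim ![0, 0, 0, 0] ![0, 0, 0, 0]) (by decide)
      (fun s h => by
        simp only [Fin.zero_eta, Fin.mk_one, Fin.reduceFinMk, cu, cw, Sum.elim_inl, Sum.elim_inr,
          Matrix.cons_val]
        ring)
  · exact mkN x _ _ _ (Sum.elim ![0, 0, 0, 0] ![0, 0, 0, 1]) (Sum.elim ![0, 0, 0, 0] ![0, 0, 0, 0]) (by decide)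
      (fun s h => by
        simp only [Fin.zero_eta, Fin.mk_one, Fin.reduceFinMk, cu, cw, Sum.elim_inl, Sum.elim_inr,
          Matrix.cons_val]
        ring)
  · exact mkN x _ _ _ (Sum.elim ![0, 0, 0, 1] ![1, 1, -1, 0]) (Sum.elim ![0, 0, 0, 5] ![7, 3, 9, 0]) (by decide)
      (fun s h => by
        have h1 := congrFun h 6
        simp only [HH, Matrix.cons_val, Pi.zero_apply] at h1
        simp only [Fin.zero_eta, Fin.mk_one, Fin.reduceFinMk, cu, cw, Sum.elim_inl, Sum.elim_inr,
          Matrix.cons_val]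
        first | linear_combination h1 | linear_combination -h1)
  · exact mkN x _ _ _ (Sum.elim ![0, 0, 0, 0] ![1, 0, 0, 0]) (Sum.elim ![0, 0, 0, 0] ![0, 0, 0, 0]) (by decide)
      (fun s h => by
        simp only [Fin.zero_eta, Fin.mk_one, Fin.reduceFinMk, cu, cw, Sum.elim_inl, Sum.elim_inr,
          Matrix.cons_val]
        ring)
  · exact mkN x _ _ _ (Sum.elim ![1, 0, 0, 0] ![0, 1, 1, -1]) (Sum.elim ![5, 0, 0, 0] ![0, 6, 1, 7]) (by decide)
      (fun s h => by
        have h1 := congrFun h 1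
        simp only [HH, Matrix.cons_val, Pi.zero_apply] at h1
        simp only [Fin.zero_eta, Fin.mk_one, Fin.reduceFinMk, cu, cw, Sum.elim_inl, Sum.elim_inr,
          Matrix.cons_val]
        first | linear_combination h1 | linear_combination -h1)
  · exact mkN x _ _ _ (Sum.elim ![0, 0, 0, 0] ![0, 0, 1, 0]) (Sum.elim ![0, 0, 0, 0] ![0, 0, 0, 0]) (by decide)
      (fun s h => by
        simp only [Fin.zero_eta, Fin.mk_one, Fin.reduceFinMk, cu, cw, Sum.elim_inl, Sum.elim_inr,
          Matrix.cons_val]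
        ring)
  · exact mkN x _ _ _ (Sum.elim ![0, 0, 1, 0] ![1, 1, 0, -1]) (Sum.elim ![0, 0, 5, 0] ![1, 8, 0, 9]) (by decide)
      (fun s h => by
        have h1 := congrFun h 5
        simp only [HH, Matrix.cons_val, Pi.zero_apply] at h1
        simp only [Fin.zero_eta, Fin.mk_one, Fin.reduceFinMk, cu, cw, Sum.elim_inl, Sum.elim_inr,
          Matrix.cons_val]
        first | linear_combination h1 | linear_combination -h1)
  · exact mkN x _ _ _ (Sum.elim ![0, 0, 0, 0] ![0, 1, 0, 0]) (Sum.elim ![0, 0, 0, 0] ![0, 0, 0, 0]) (by decide)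
      (fun s h => by
        simp only [Fin.zero_eta, Fin.mk_one, Fin.reduceFinMk, cu, cw, Sum.elim_inl, Sum.elim_inr,
          Matrix.cons_val]
        ring)
  · exact mkN x _ _ _ (Sum.elim ![0, 1, 0, 0] ![1, 0, -1, 1]) (Sum.elim ![0, 5, 0, 0] ![6, 0, 8, 3]) (by decide)
      (fun s h => by
        have h1 := congrFun h 2
        simp only [HH, Matrix.cons_val, Pi.zero_apply] at h1
        simp only [Fin.zero_eta, Fin.mk_one, Fin.reduceFinMk, cu, cw, Sum.elim_inl, Sum.elim_inr,
          Matrix.cons_val]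
        first | linear_combination h1 | linear_combination -h1)

private lemma chart_1 (x : Fin 10 → ℤ) (a : Fin 16) :
    ∃ N : Fin 4 ⊕ Fin 4 → ℤ, (∀ κ, ∃ i, |N κ| ≤ |x i|) ∧
      ∀ s, HH x s = 0 → x 1 * s a = ∑ κ, N κ * s (Sum.elim (cu 1) (cw 1) κ) := by
  fin_cases a
  · exact mkN x _ _ _ (Sum.elim ![1, 0, 0, 0] ![0, 0, 0, 0]) (Sum.elim ![1, 0, 0, 0] ![0, 0, 0, 0]) (by decide)
      (fun s h => by
        simp only [Fin.zero_eta, Fin.mk_one, Fin.reduceFinMk, cu, cw, Sum.elim_inl, Sum.elim_inr,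
          Matrix.cons_val]
        ring)
  · exact mkN x _ _ _ (Sum.elim ![0, -1, -1, 1] ![1, 0, 0, 0]) (Sum.elim ![0, 8, 2, 9] ![4, 0, 0, 0]) (by decide)
      (fun s h => by
        have h1 := congrFun h 12
        simp only [HH, Matrix.cons_val, Pi.zero_apply] at h1
        simp only [Fin.zero_eta, Fin.mk_one, Fin.reduceFinMk, cu, cw, Sum.elim_inl, Sum.elim_inr,
          Matrix.cons_val]
        first | linear_combination h1 | linear_combination -h1)
  · exact mkN x _ _ _ (Sum.elim ![0, 1, 0, 0] ![0, 0, 0, 0]) (Sum.elim ![0, 1, 0, 0] ![0, 0, 0, 0]) (by decide)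
      (fun s h => by
        simp only [Fin.zero_eta, Fin.mk_one, Fin.reduceFinMk, cu, cw, Sum.elim_inl, Sum.elim_inr,
          Matrix.cons_val]
        ring)
  · exact mkN x _ _ _ (Sum.elim ![-1, 0, 1, -1] ![0, 1, 0, 0]) (Sum.elim ![8, 0, 6, 0] ![0, 4, 0, 0]) (by decide)
      (fun s h => by
        have h1 := congrFun h 9
        simp only [HH, Matrix.cons_val, Pi.zero_apply] at h1
        simp only [Fin.zero_eta, Fin.mk_one, Fin.reduceFinMk, cu, cw, Sum.elim_inl, Sum.elim_inr,
          Matrix.cons_val]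
        first | linear_combination h1 | linear_combination -h1)
  · exact mkN x _ _ _ (Sum.elim ![0, 0, 1, 0] ![0, 0, 0, 0]) (Sum.elim ![0, 0, 1, 0] ![0, 0, 0, 0]) (by decide)
      (fun s h => by
        simp only [Fin.zero_eta, Fin.mk_one, Fin.reduceFinMk, cu, cw, Sum.elim_inl, Sum.elim_inr,
          Matrix.cons_val]
        ring)
  · exact mkN x _ _ _ (Sum.elim ![-1, -1, 0, 1] ![0, 0, 1, 0]) (Sum.elim ![2, 6, 0, 7] ![0, 0, 4, 0]) (by decide)
      (fun s h => by
        have h1 := congrFun h 10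
        simp only [HH, Matrix.cons_val, Pi.zero_apply] at h1
        simp only [Fin.zero_eta, Fin.mk_one, Fin.reduceFinMk, cu, cw, Sum.elim_inl, Sum.elim_inr,
          Matrix.cons_val]
        first | linear_combination h1 | linear_combination -h1)
  · exact mkN x _ _ _ (Sum.elim ![0, 0, 0, 1] ![0, 0, 0, 0]) (Sum.elim ![0, 0, 0, 1] ![0, 0, 0, 0]) (by decide)
      (fun s h => by
        simp only [Fin.zero_eta, Fin.mk_one, Fin.reduceFinMk, cu, cw, Sum.elim_inl, Sum.elim_inr,
          Matrix.cons_val]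
        ring)
  · exact mkN x _ _ _ (Sum.elim ![-1, -1, 1, 0] ![0, 0, 0, 1]) (Sum.elim ![9, 0, 7, 0] ![0, 0, 0, 4]) (by decide)
      (fun s h => by
        have h1 := congrFun h 15
        simp only [HH, Matrix.cons_val, Pi.zero_apply] at h1
        simp only [Fin.zero_eta, Fin.mk_one, Fin.reduceFinMk, cu, cw, Sum.elim_inl, Sum.elim_inr,
          Matrix.cons_val]
        first | linear_combination h1 | linear_combination -h1)
  · exact mkN x _ _ _ (Sum.elim ![0, 0, 0, 0] ![0, 1, 0, 0]) (Sum.elim ![0, 0, 0, 0] ![0, 1, 0, 0]) (by decide)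
      (fun s h => by
        simp only [Fin.zero_eta, Fin.mk_one, Fin.reduceFinMk, cu, cw, Sum.elim_inl, Sum.elim_inr,
          Matrix.cons_val]
        ring)
  · exact mkN x _ _ _ (Sum.elim ![0, -1, 0, 0] ![1, 0, -1, 1]) (Sum.elim ![0, 5, 0, 0] ![7, 0, 9, 2]) (by decide)
      (fun s h => by
        have h1 := congrFun h 3
        simp only [HH, Matrix.cons_val, Pi.zero_apply] at h1
        simp only [Fin.zero_eta, Fin.mk_one, Fin.reduceFinMk, cu, cw, Sum.elim_inl, Sum.elim_inr,
          Matrix.cons_val]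
        first | linear_combination h1 | linear_combination -h1)
  · exact mkN x _ _ _ (Sum.elim ![0, 0, -1, 0] ![1, 1, 0, -1]) (Sum.elim ![0, 0, 5, 0] ![0, 9, 0, 8]) (by decide)
      (fun s h => by
        have h1 := congrFun h 5
        simp only [HH, Matrix.cons_val, Pi.zero_apply] at h1
        simp only [Fin.zero_eta, Fin.mk_one, Fin.reduceFinMk, cu, cw, Sum.elim_inl, Sum.elim_inr,
          Matrix.cons_val]
        first | linear_combination h1 | linear_combination -h1)
  · exact mkN x _ _ _ (Sum.elim ![0, 0, 0, 0] ![0, 0, 1, 0]) (Sum.elim ![0, 0, 0, 0] ![0, 0, 1, 0]) (by decide)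
      (fun s h => by
        simp only [Fin.zero_eta, Fin.mk_one, Fin.reduceFinMk, cu, cw, Sum.elim_inl, Sum.elim_inr,
          Matrix.cons_val]
        ring)
  · exact mkN x _ _ _ (Sum.elim ![-1, 0, 0, 0] ![0, 1, 1, -1]) (Sum.elim ![5, 0, 0, 0] ![0, 7, 0, 6]) (by decide)
      (fun s h => by
        have h1 := congrFun h 1
        simp only [HH, Matrix.cons_val, Pi.zero_apply] at h1
        simp only [Fin.zero_eta, Fin.mk_one, Fin.reduceFinMk, cu, cw, Sum.elim_inl, Sum.elim_inr,
          Matrix.cons_val]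
        first | linear_combination h1 | linear_combination -h1)
  · exact mkN x _ _ _ (Sum.elim ![0, 0, 0, 0] ![1, 0, 0, 0]) (Sum.elim ![0, 0, 0, 0] ![1, 0, 0, 0]) (by decide)
      (fun s h => by
        simp only [Fin.zero_eta, Fin.mk_one, Fin.reduceFinMk, cu, cw, Sum.elim_inl, Sum.elim_inr,
          Matrix.cons_val]
        ring)
  · exact mkN x _ _ _ (Sum.elim ![0, 0, 0, 0] ![0, 0, 0, 1]) (Sum.elim ![0, 0, 0, 0] ![0, 0, 0, 1]) (by decide)
      (fun s h => by
        simp only [Fin.zero_eta, Fin.mk_one, Fin.reduceFinMk, cu, cw, Sum.elim_inl, Sum.elim_inr,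
          Matrix.cons_val]
        ring)
  · exact mkN x _ _ _ (Sum.elim ![0, 0, 0, -1] ![1, 1, -1, 0]) (Sum.elim ![0, 0, 0, 5] ![6, 2, 8, 0]) (by decide)
      (fun s h => by
        have h1 := congrFun h 7
        simp only [HH, Matrix.cons_val, Pi.zero_apply] at h1
        simp only [Fin.zero_eta, Fin.mk_one, Fin.reduceFinMk, cu, cw, Sum.elim_inl, Sum.elim_inr,
          Matrix.cons_val]
        first | linear_combination h1 | linear_combination -h1)

private lemma chart_2 (x : Fin 10 → ℤ) (a : Fin 16) :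
    ∃ N : Fin 4 ⊕ Fin 4 → ℤ, (∀ κ, ∃ i, |N κ| ≤ |x i|) ∧
      ∀ s, HH x s = 0 → x 2 * s a = ∑ κ, N κ * s (Sum.elim (cu 2) (cw 2) κ) := by
  fin_cases a
  · exact mkN x _ _ _ (Sum.elim ![0, -1, -1, 1] ![1, 0, 0, 0]) (Sum.elim ![0, 6, 1, 7] ![4, 0, 0, 0]) (by decide)
      (fun s h => by
        have h1 := congrFun h 10
        simp only [HH, Matrix.cons_val, Pi.zero_apply] at h1
        simp only [Fin.zero_eta, Fin.mk_one, Fin.reduceFinMk, cu, cw, Sum.elim_inl, Sum.elim_inr,
          Matrix.cons_val]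
        first | linear_combination h1 | linear_combination -h1)
  · exact mkN x _ _ _ (Sum.elim ![1, 0, 0, 0] ![0, 0, 0, 0]) (Sum.elim ![2, 0, 0, 0] ![0, 0, 0, 0]) (by decide)
      (fun s h => by
        simp only [Fin.zero_eta, Fin.mk_one, Fin.reduceFinMk, cu, cw, Sum.elim_inl, Sum.elim_inr,
          Matrix.cons_val]
        ring)
  · exact mkN x _ _ _ (Sum.elim ![0, 1, 0, 0] ![0, 0, 0, 0]) (Sum.elim ![0, 2, 0, 0] ![0, 0, 0, 0]) (by decide)
      (fun s h => by
        simp only [Fin.zero_eta, Fin.mk_one, Fin.reduceFinMk, cu, cw, Sum.elim_inl, Sum.elim_inr,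
          Matrix.cons_val]
        ring)
  · exact mkN x _ _ _ (Sum.elim ![-1, 0, 1, -1] ![0, 1, 0, 0]) (Sum.elim ![6, 0, 8, 3] ![0, 4, 0, 0]) (by decide)
      (fun s h => by
        have h1 := congrFun h 14
        simp only [HH, Matrix.cons_val, Pi.zero_apply] at h1
        simp only [Fin.zero_eta, Fin.mk_one, Fin.reduceFinMk, cu, cw, Sum.elim_inl, Sum.elim_inr,
          Matrix.cons_val]
        first | linear_combination h1 | linear_combination -h1)
  · exact mkN x _ _ _ (Sum.elim ![-1, -1, 0, 1] ![0, 0, 1, 0]) (Sum.elim ![1, 8, 0, 9] ![0, 0, 4, 0]) (by decide)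
      (fun s h => by
        have h1 := congrFun h 12
        simp only [HH, Matrix.cons_val, Pi.zero_apply] at h1
        simp only [Fin.zero_eta, Fin.mk_one, Fin.reduceFinMk, cu, cw, Sum.elim_inl, Sum.elim_inr,
          Matrix.cons_val]
        first | linear_combination h1 | linear_combination -h1)
  · exact mkN x _ _ _ (Sum.elim ![0, 0, 1, 0] ![0, 0, 0, 0]) (Sum.elim ![0, 0, 2, 0] ![0, 0, 0, 0]) (by decide)
      (fun s h => by
        simp only [Fin.zero_eta, Fin.mk_one, Fin.reduceFinMk, cu, cw, Sum.elim_inl, Sum.elim_inr,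
          Matrix.cons_val]
        ring)
  · exact mkN x _ _ _ (Sum.elim ![0, 0, 0, 1] ![0, 0, 0, 0]) (Sum.elim ![0, 0, 0, 2] ![0, 0, 0, 0]) (by decide)
      (fun s h => by
        simp only [Fin.zero_eta, Fin.mk_one, Fin.reduceFinMk, cu, cw, Sum.elim_inl, Sum.elim_inr,
          Matrix.cons_val]
        ring)
  · exact mkN x _ _ _ (Sum.elim ![-1, -1, 1, 0] ![0, 0, 0, 1]) (Sum.elim ![7, 3, 9, 0] ![0, 0, 0, 4]) (by decide)
      (fun s h => by
        have h1 := congrFun h 8
        simp only [HH, Matrix.cons_val, Pi.zero_apply] at h1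
        simp only [Fin.zero_eta, Fin.mk_one, Fin.reduceFinMk, cu, cw, Sum.elim_inl, Sum.elim_inr,
          Matrix.cons_val]
        first | linear_combination h1 | linear_combination -h1)
  · exact mkN x _ _ _ (Sum.elim ![0, 0, 0, 1] ![1, 1, -1, 0]) (Sum.elim ![0, 0, 0, 5] ![8, 1, 6, 0]) (by decide)
      (fun s h => by
        have h1 := congrFun h 7
        simp only [HH, Matrix.cons_val, Pi.zero_apply] at h1
        simp only [Fin.zero_eta, Fin.mk_one, Fin.reduceFinMk, cu, cw, Sum.elim_inl, Sum.elim_inr,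
          Matrix.cons_val]
        first | linear_combination h1 | linear_combination -h1)
  · exact mkN x _ _ _ (Sum.elim ![0, 0, 0, 0] ![0, 0, 0, 1]) (Sum.elim ![0, 0, 0, 0] ![0, 0, 0, 2]) (by decide)
      (fun s h => by
        simp only [Fin.zero_eta, Fin.mk_one, Fin.reduceFinMk, cu, cw, Sum.elim_inl, Sum.elim_inr,
          Matrix.cons_val]
        ring)
  · exact mkN x _ _ _ (Sum.elim ![1, 0, 0, 0] ![0, 1, 1, -1]) (Sum.elim ![5, 0, 0, 0] ![0, 9, 3, 8]) (by decide)
      (fun s h => by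
        have h1 := congrFun h 0
        simp only [HH, Matrix.cons_val, Pi.zero_apply] at h1
        simp only [Fin.zero_eta, Fin.mk_one, Fin.reduceFinMk, cu, cw, Sum.elim_inl, Sum.elim_inr,
          Matrix.cons_val]
        first | linear_combination h1 | linear_combination -h1)
  · exact mkN x _ _ _ (Sum.elim ![0, 0, 0, 0] ![1, 0, 0, 0]) (Sum.elim ![0, 0, 0, 0] ![2, 0, 0, 0]) (by decide)
      (fun s h => by
        simp only [Fin.zero_eta, Fin.mk_one, Fin.reduceFinMk, cu, cw, Sum.elim_inl, Sum.elim_inr,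
          Matrix.cons_val]
        ring)
  · exact mkN x _ _ _ (Sum.elim ![0, 0, 1, 0] ![1, 1, 0, -1]) (Sum.elim ![0, 0, 5, 0] ![3, 7, 0, 6]) (by decide)
      (fun s h => by
        have h1 := congrFun h 4
        simp only [HH, Matrix.cons_val, Pi.zero_apply] at h1
        simp only [Fin.zero_eta, Fin.mk_one, Fin.reduceFinMk, cu, cw, Sum.elim_inl, Sum.elim_inr,
          Matrix.cons_val]
        first | linear_combination h1 | linear_combination -h1)
  · exact mkN x _ _ _ (Sum.elim ![0, 0, 0, 0] ![0, 0, 1, 0]) (Sum.elim ![0, 0, 0, 0] ![0, 0, 2, 0]) (by decide)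
      (fun s h => by
        simp only [Fin.zero_eta, Fin.mk_one, Fin.reduceFinMk, cu, cw, Sum.elim_inl, Sum.elim_inr,
          Matrix.cons_val]
        ring)
  · exact mkN x _ _ _ (Sum.elim ![0, 1, 0, 0] ![1, 0, -1, 1]) (Sum.elim ![0, 5, 0, 0] ![9, 0, 7, 1]) (by decide)
      (fun s h => by
        have h1 := congrFun h 3
        simp only [HH, Matrix.cons_val, Pi.zero_apply] at h1
        simp only [Fin.zero_eta, Fin.mk_one, Fin.reduceFinMk, cu, cw, Sum.elim_inl, Sum.elim_inr,
          Matrix.cons_val]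
        first | linear_combination h1 | linear_combination -h1)
  · exact mkN x _ _ _ (Sum.elim ![0, 0, 0, 0] ![0, 1, 0, 0]) (Sum.elim ![0, 0, 0, 0] ![0, 2, 0, 0]) (by decide)
      (fun s h => by
        simp only [Fin.zero_eta, Fin.mk_one, Fin.reduceFinMk, cu, cw, Sum.elim_inl, Sum.elim_inr,
          Matrix.cons_val]
        ring)

private lemma chart_3 (x : Fin 10 → ℤ) (a : Fin 16) :
    ∃ N : Fin 4 ⊕ Fin 4 → ℤ, (∀ κ, ∃ i, |N κ| ≤ |x i|) ∧
      ∀ s, HH x s = 0 → x 3 * s a = ∑ κ, N κ * s (Sum.elim (cu 3) (cw 3) κ) := by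
  fin_cases a
  · exact mkN x _ _ _ (Sum.elim ![0, -1, -1, 1] ![1, 0, 0, 0]) (Sum.elim ![0, 7, 0, 6] ![4, 0, 0, 0]) (by decide)
      (fun s h => by
        have h1 := congrFun h 13
        simp only [HH, Matrix.cons_val, Pi.zero_apply] at h1
        simp only [Fin.zero_eta, Fin.mk_one, Fin.reduceFinMk, cu, cw, Sum.elim_inl, Sum.elim_inr,
          Matrix.cons_val]
        first | linear_combination h1 | linear_combination -h1)
  · exact mkN x _ _ _ (Sum.elim ![1, 0, 0, 0] ![0, 0, 0, 0]) (Sum.elim ![3, 0, 0, 0] ![0, 0, 0, 0]) (by decide)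
      (fun s h => by
        simp only [Fin.zero_eta, Fin.mk_one, Fin.reduceFinMk, cu, cw, Sum.elim_inl, Sum.elim_inr,
          Matrix.cons_val]
        ring)
  · exact mkN x _ _ _ (Sum.elim ![-1, 0, 1, -1] ![0, 1, 0, 0]) (Sum.elim ![7, 0, 9, 2] ![0, 4, 0, 0]) (by decide)
      (fun s h => by
        have h1 := congrFun h 8
        simp only [HH, Matrix.cons_val, Pi.zero_apply] at h1
        simp only [Fin.zero_eta, Fin.mk_one, Fin.reduceFinMk, cu, cw, Sum.elim_inl, Sum.elim_inr,
          Matrix.cons_val]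
        first | linear_combination h1 | linear_combination -h1)
  · exact mkN x _ _ _ (Sum.elim ![0, 1, 0, 0] ![0, 0, 0, 0]) (Sum.elim ![0, 3, 0, 0] ![0, 0, 0, 0]) (by decide)
      (fun s h => by
        simp only [Fin.zero_eta, Fin.mk_one, Fin.reduceFinMk, cu, cw, Sum.elim_inl, Sum.elim_inr,
          Matrix.cons_val]
        ring)
  · exact mkN x _ _ _ (Sum.elim ![-1, -1, 0, 1] ![0, 0, 1, 0]) (Sum.elim ![0, 9, 0, 8] ![0, 0, 4, 0]) (by decide)
      (fun s h => by
        have h1 := congrFun h 11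
        simp only [HH, Matrix.cons_val, Pi.zero_apply] at h1
        simp only [Fin.zero_eta, Fin.mk_one, Fin.reduceFinMk, cu, cw, Sum.elim_inl, Sum.elim_inr,
          Matrix.cons_val]
        first | linear_combination h1 | linear_combination -h1)
  · exact mkN x _ _ _ (Sum.elim ![0, 0, 1, 0] ![0, 0, 0, 0]) (Sum.elim ![0, 0, 3, 0] ![0, 0, 0, 0]) (by decide)
      (fun s h => by
        simp only [Fin.zero_eta, Fin.mk_one, Fin.reduceFinMk, cu, cw, Sum.elim_inl, Sum.elim_inr,
          Matrix.cons_val]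
        ring)
  · exact mkN x _ _ _ (Sum.elim ![-1, -1, 1, 0] ![0, 0, 0, 1]) (Sum.elim ![6, 2, 8, 0] ![0, 0, 0, 4]) (by decide)
      (fun s h => by
        have h1 := congrFun h 14
        simp only [HH, Matrix.cons_val, Pi.zero_apply] at h1
        simp only [Fin.zero_eta, Fin.mk_one, Fin.reduceFinMk, cu, cw, Sum.elim_inl, Sum.elim_inr,
          Matrix.cons_val]
        first | linear_combination h1 | linear_combination -h1)
  · exact mkN x _ _ _ (Sum.elim ![0, 0, 0, 1] ![0, 0, 0, 0]) (Sum.elim ![0, 0, 0, 3] ![0, 0, 0, 0]) (by decide)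
      (fun s h => by
        simp only [Fin.zero_eta, Fin.mk_one, Fin.reduceFinMk, cu, cw, Sum.elim_inl, Sum.elim_inr,
          Matrix.cons_val]
        ring)
  · exact mkN x _ _ _ (Sum.elim ![0, -1, 0, 0] ![1, 0, -1, 1]) (Sum.elim ![0, 5, 0, 0] ![8, 0, 6, 0]) (by decide)
      (fun s h => by
        have h1 := congrFun h 2
        simp only [HH, Matrix.cons_val, Pi.zero_apply] at h1
        simp only [Fin.zero_eta, Fin.mk_one, Fin.reduceFinMk, cu, cw, Sum.elim_inl, Sum.elim_inr,
          Matrix.cons_val]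
        first | linear_combination h1 | linear_combination -h1)
  · exact mkN x _ _ _ (Sum.elim ![0, 0, 0, 0] ![0, 1, 0, 0]) (Sum.elim ![0, 0, 0, 0] ![0, 3, 0, 0]) (by decide)
      (fun s h => by
        simp only [Fin.zero_eta, Fin.mk_one, Fin.reduceFinMk, cu, cw, Sum.elim_inl, Sum.elim_inr,
          Matrix.cons_val]
        ring)
  · exact mkN x _ _ _ (Sum.elim ![0, 0, 0, 0] ![0, 0, 1, 0]) (Sum.elim ![0, 0, 0, 0] ![0, 0, 3, 0]) (by decide)
      (fun s h => by
        simp only [Fin.zero_eta, Fin.mk_one, Fin.reduceFinMk, cu, cw, Sum.elim_inl, Sum.elim_inr,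
          Matrix.cons_val]
        ring)
  · exact mkN x _ _ _ (Sum.elim ![0, 0, -1, 0] ![1, 1, 0, -1]) (Sum.elim ![0, 0, 5, 0] ![2, 6, 0, 7]) (by decide)
      (fun s h => by
        have h1 := congrFun h 4
        simp only [HH, Matrix.cons_val, Pi.zero_apply] at h1
        simp only [Fin.zero_eta, Fin.mk_one, Fin.reduceFinMk, cu, cw, Sum.elim_inl, Sum.elim_inr,
          Matrix.cons_val]
        first | linear_combination h1 | linear_combination -h1)
  · exact mkN x _ _ _ (Sum.elim ![0, 0, 0, 0] ![1, 0, 0, 0]) (Sum.elim ![0, 0, 0, 0] ![3, 0, 0, 0]) (by decide)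
      (fun s h => by
        simp only [Fin.zero_eta, Fin.mk_one, Fin.reduceFinMk, cu, cw, Sum.elim_inl, Sum.elim_inr,
          Matrix.cons_val]
        ring)
  · exact mkN x _ _ _ (Sum.elim ![-1, 0, 0, 0] ![0, 1, 1, -1]) (Sum.elim ![5, 0, 0, 0] ![0, 8, 2, 9]) (by decide)
      (fun s h => by
        have h1 := congrFun h 0
        simp only [HH, Matrix.cons_val, Pi.zero_apply] at h1
        simp only [Fin.zero_eta, Fin.mk_one, Fin.reduceFinMk, cu, cw, Sum.elim_inl, Sum.elim_inr,
          Matrix.cons_val]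
        first | linear_combination h1 | linear_combination -h1)
  · exact mkN x _ _ _ (Sum.elim ![0, 0, 0, -1] ![1, 1, -1, 0]) (Sum.elim ![0, 0, 0, 5] ![9, 0, 7, 0]) (by decide)
      (fun s h => by
        have h1 := congrFun h 6
        simp only [HH, Matrix.cons_val, Pi.zero_apply] at h1
        simp only [Fin.zero_eta, Fin.mk_one, Fin.reduceFinMk, cu, cw, Sum.elim_inl, Sum.elim_inr,
          Matrix.cons_val]
        first | linear_combination h1 | linear_combination -h1)
  · exact mkN x _ _ _ (Sum.elim ![0, 0, 0, 0] ![0, 0, 0, 1]) (Sum.elim ![0, 0, 0, 0] ![0, 0, 0, 3]) (by decide)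
      (fun s h => by
        simp only [Fin.zero_eta, Fin.mk_one, Fin.reduceFinMk, cu, cw, Sum.elim_inl, Sum.elim_inr,
          Matrix.cons_val]
        ring)

private lemma chart_4 (x : Fin 10 → ℤ) (a : Fin 16) :
    ∃ N : Fin 4 ⊕ Fin 4 → ℤ, (∀ κ, ∃ i, |N κ| ≤ |x i|) ∧
      ∀ s, HH x s = 0 → x 4 * s a = ∑ κ, N κ * s (Sum.elim (cu 4) (cw 4) κ) := by
  fin_cases a
  · exact mkN x _ _ _ (Sum.elim ![1, 0, 0, 0] ![0, 0, 0, 0]) (Sum.elim ![4, 0, 0, 0] ![0, 0, 0, 0]) (by decide)
      (fun s h => by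
        simp only [Fin.zero_eta, Fin.mk_one, Fin.reduceFinMk, cu, cw, Sum.elim_inl, Sum.elim_inr,
          Matrix.cons_val]
        ring)
  · exact mkN x _ _ _ (Sum.elim ![0, 0, 0, 0] ![1, 0, 0, 0]) (Sum.elim ![0, 0, 0, 0] ![4, 0, 0, 0]) (by decide)
      (fun s h => by
        simp only [Fin.zero_eta, Fin.mk_one, Fin.reduceFinMk, cu, cw, Sum.elim_inl, Sum.elim_inr,
          Matrix.cons_val]
        ring)
  · exact mkN x _ _ _ (Sum.elim ![0, 1, 0, 0] ![0, 0, 0, 0]) (Sum.elim ![0, 4, 0, 0] ![0, 0, 0, 0]) (by decide)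
      (fun s h => by
        simp only [Fin.zero_eta, Fin.mk_one, Fin.reduceFinMk, cu, cw, Sum.elim_inl, Sum.elim_inr,
          Matrix.cons_val]
        ring)
  · exact mkN x _ _ _ (Sum.elim ![0, 0, 0, 0] ![0, 1, 0, 0]) (Sum.elim ![0, 0, 0, 0] ![0, 4, 0, 0]) (by decide)
      (fun s h => by
        simp only [Fin.zero_eta, Fin.mk_one, Fin.reduceFinMk, cu, cw, Sum.elim_inl, Sum.elim_inr,
          Matrix.cons_val]
        ring)
  · exact mkN x _ _ _ (Sum.elim ![0, 0, 1, 0] ![0, 0, 0, 0]) (Sum.elim ![0, 0, 4, 0] ![0, 0, 0, 0]) (by decide)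
      (fun s h => by
        simp only [Fin.zero_eta, Fin.mk_one, Fin.reduceFinMk, cu, cw, Sum.elim_inl, Sum.elim_inr,
          Matrix.cons_val]
        ring)
  · exact mkN x _ _ _ (Sum.elim ![0, 0, 0, 0] ![0, 0, 1, 0]) (Sum.elim ![0, 0, 0, 0] ![0, 0, 4, 0]) (by decide)
      (fun s h => by
        simp only [Fin.zero_eta, Fin.mk_one, Fin.reduceFinMk, cu, cw, Sum.elim_inl, Sum.elim_inr,
          Matrix.cons_val]
        ring)
  · exact mkN x _ _ _ (Sum.elim ![0, 0, 0, 1] ![0, 0, 0, 0]) (Sum.elim ![0, 0, 0, 4] ![0, 0, 0, 0]) (by decide)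
      (fun s h => by
        simp only [Fin.zero_eta, Fin.mk_one, Fin.reduceFinMk, cu, cw, Sum.elim_inl, Sum.elim_inr,
          Matrix.cons_val]
        ring)
  · exact mkN x _ _ _ (Sum.elim ![0, 0, 0, 0] ![0, 0, 0, 1]) (Sum.elim ![0, 0, 0, 0] ![0, 0, 0, 4]) (by decide)
      (fun s h => by
        simp only [Fin.zero_eta, Fin.mk_one, Fin.reduceFinMk, cu, cw, Sum.elim_inl, Sum.elim_inr,
          Matrix.cons_val]
        ring)
  · exact mkN x _ _ _ (Sum.elim ![1, 0, -1, 1] ![0, 1, 0, 0]) (Sum.elim ![8, 0, 6, 0] ![0, 1, 0, 0]) (by decide)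
      (fun s h => by
        have h1 := congrFun h 9
        simp only [HH, Matrix.cons_val, Pi.zero_apply] at h1
        simp only [Fin.zero_eta, Fin.mk_one, Fin.reduceFinMk, cu, cw, Sum.elim_inl, Sum.elim_inr,
          Matrix.cons_val]
        first | linear_combination h1 | linear_combination -h1)
  · exact mkN x _ _ _ (Sum.elim ![0, 1, 0, 0] ![1, 0, -1, 1]) (Sum.elim ![0, 3, 0, 0] ![7, 0, 9, 2]) (by decide)
      (fun s h => by
        have h1 := congrFun h 8
        simp only [HH, Matrix.cons_val, Pi.zero_apply] at h1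
        simp only [Fin.zero_eta, Fin.mk_one, Fin.reduceFinMk, cu, cw, Sum.elim_inl, Sum.elim_inr,
          Matrix.cons_val]
        first | linear_combination h1 | linear_combination -h1)
  · exact mkN x _ _ _ (Sum.elim ![0, 0, 1, 0] ![1, 1, 0, -1]) (Sum.elim ![0, 0, 3, 0] ![0, 9, 0, 8]) (by decide)
      (fun s h => by
        have h1 := congrFun h 11
        simp only [HH, Matrix.cons_val, Pi.zero_apply] at h1
        simp only [Fin.zero_eta, Fin.mk_one, Fin.reduceFinMk, cu, cw, Sum.elim_inl, Sum.elim_inr,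
          Matrix.cons_val]
        first | linear_combination h1 | linear_combination -h1)
  · exact mkN x _ _ _ (Sum.elim ![1, 1, 0, -1] ![0, 0, 1, 0]) (Sum.elim ![2, 6, 0, 7] ![0, 0, 1, 0]) (by decide)
      (fun s h => by
        have h1 := congrFun h 10
        simp only [HH, Matrix.cons_val, Pi.zero_apply] at h1
        simp only [Fin.zero_eta, Fin.mk_one, Fin.reduceFinMk, cu, cw, Sum.elim_inl, Sum.elim_inr,
          Matrix.cons_val]
        first | linear_combination h1 | linear_combination -h1)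
  · exact mkN x _ _ _ (Sum.elim ![1, 0, 0, 0] ![0, 1, 1, -1]) (Sum.elim ![3, 0, 0, 0] ![0, 7, 0, 6]) (by decide)
      (fun s h => by
        have h1 := congrFun h 13
        simp only [HH, Matrix.cons_val, Pi.zero_apply] at h1
        simp only [Fin.zero_eta, Fin.mk_one, Fin.reduceFinMk, cu, cw, Sum.elim_inl, Sum.elim_inr,
          Matrix.cons_val]
        first | linear_combination h1 | linear_combination -h1)
  · exact mkN x _ _ _ (Sum.elim ![0, 1, 1, -1] ![1, 0, 0, 0]) (Sum.elim ![0, 8, 2, 9] ![1, 0, 0, 0]) (by decide)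
      (fun s h => by
        have h1 := congrFun h 12
        simp only [HH, Matrix.cons_val, Pi.zero_apply] at h1
        simp only [Fin.zero_eta, Fin.mk_one, Fin.reduceFinMk, cu, cw, Sum.elim_inl, Sum.elim_inr,
          Matrix.cons_val]
        first | linear_combination h1 | linear_combination -h1)
  · exact mkN x _ _ _ (Sum.elim ![1, 1, -1, 0] ![0, 0, 0, 1]) (Sum.elim ![9, 0, 7, 0] ![0, 0, 0, 1]) (by decide)
      (fun s h => by
        have h1 := congrFun h 15
        simp only [HH, Matrix.cons_val, Pi.zero_apply] at h1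
        simp only [Fin.zero_eta, Fin.mk_one, Fin.reduceFinMk, cu, cw, Sum.elim_inl, Sum.elim_inr,
          Matrix.cons_val]
        first | linear_combination h1 | linear_combination -h1)
  · exact mkN x _ _ _ (Sum.elim ![0, 0, 0, 1] ![1, 1, -1, 0]) (Sum.elim ![0, 0, 0, 3] ![6, 2, 8, 0]) (by decide)
      (fun s h => by
        have h1 := congrFun h 14
        simp only [HH, Matrix.cons_val, Pi.zero_apply] at h1
        simp only [Fin.zero_eta, Fin.mk_one, Fin.reduceFinMk, cu, cw, Sum.elim_inl, Sum.elim_inr,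
          Matrix.cons_val]
        first | linear_combination h1 | linear_combination -h1)

private lemma chart_5 (x : Fin 10 → ℤ) (a : Fin 16) :
    ∃ N : Fin 4 ⊕ Fin 4 → ℤ, (∀ κ, ∃ i, |N κ| ≤ |x i|) ∧
      ∀ s, HH x s = 0 → x 5 * s a = ∑ κ, N κ * s (Sum.elim (cu 5) (cw 5) κ) := by
  fin_cases a
  · exact mkN x _ _ _ (Sum.elim ![1, 0, -1, -1] ![0, 1, 0, 0]) (Sum.elim ![7, 0, 1, 6] ![0, 0, 0, 0]) (by decide)
      (fun s h => by
        have h1 := congrFun h 1
        simp only [HH, Matrix.cons_val, Pi.zero_apply] at h1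
        simp only [Fin.zero_eta, Fin.mk_one, Fin.reduceFinMk, cu, cw, Sum.elim_inl, Sum.elim_inr,
          Matrix.cons_val]
        first | linear_combination h1 | linear_combination -h1)
  · exact mkN x _ _ _ (Sum.elim ![0, 1, 0, 0] ![1, 0, -1, -1]) (Sum.elim ![0, 2, 0, 0] ![8, 0, 3, 9]) (by decide)
      (fun s h => by
        have h1 := congrFun h 0
        simp only [HH, Matrix.cons_val, Pi.zero_apply] at h1
        simp only [Fin.zero_eta, Fin.mk_one, Fin.reduceFinMk, cu, cw, Sum.elim_inl, Sum.elim_inr,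
          Matrix.cons_val]
        first | linear_combination h1 | linear_combination -h1)
  · exact mkN x _ _ _ (Sum.elim ![0, 0, 0, 1] ![-1, -1, 1, 0]) (Sum.elim ![0, 0, 0, 2] ![1, 9, 7, 0]) (by decide)
      (fun s h => by
        have h1 := congrFun h 3
        simp only [HH, Matrix.cons_val, Pi.zero_apply] at h1
        simp only [Fin.zero_eta, Fin.mk_one, Fin.reduceFinMk, cu, cw, Sum.elim_inl, Sum.elim_inr,
          Matrix.cons_val]
        first | linear_combination h1 | linear_combination -h1)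
  · exact mkN x _ _ _ (Sum.elim ![-1, -1, 1, 0] ![0, 0, 0, 1]) (Sum.elim ![3, 6, 8, 0] ![0, 0, 0, 0]) (by decide)
      (fun s h => by
        have h1 := congrFun h 2
        simp only [HH, Matrix.cons_val, Pi.zero_apply] at h1
        simp only [Fin.zero_eta, Fin.mk_one, Fin.reduceFinMk, cu, cw, Sum.elim_inl, Sum.elim_inr,
          Matrix.cons_val]
        first | linear_combination h1 | linear_combination -h1)
  · exact mkN x _ _ _ (Sum.elim ![1, -1, 0, -1] ![0, 0, 1, 0]) (Sum.elim ![9, 1, 0, 8] ![0, 0, 0, 0]) (by decide)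
      (fun s h => by
        have h1 := congrFun h 5
        simp only [HH, Matrix.cons_val, Pi.zero_apply] at h1
        simp only [Fin.zero_eta, Fin.mk_one, Fin.reduceFinMk, cu, cw, Sum.elim_inl, Sum.elim_inr,
          Matrix.cons_val]
        first | linear_combination h1 | linear_combination -h1)
  · exact mkN x _ _ _ (Sum.elim ![0, 0, 1, 0] ![1, -1, 0, -1]) (Sum.elim ![0, 0, 2, 0] ![6, 3, 0, 7]) (by decide)
      (fun s h => by
        have h1 := congrFun h 4
        simp only [HH, Matrix.cons_val, Pi.zero_apply] at h1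
        simp only [Fin.zero_eta, Fin.mk_one, Fin.reduceFinMk, cu, cw, Sum.elim_inl, Sum.elim_inr,
          Matrix.cons_val]
        first | linear_combination h1 | linear_combination -h1)
  · exact mkN x _ _ _ (Sum.elim ![1, 0, 0, 0] ![0, -1, 1, -1]) (Sum.elim ![2, 0, 0, 0] ![0, 8, 6, 1]) (by decide)
      (fun s h => by
        have h1 := congrFun h 7
        simp only [HH, Matrix.cons_val, Pi.zero_apply] at h1
        simp only [Fin.zero_eta, Fin.mk_one, Fin.reduceFinMk, cu, cw, Sum.elim_inl, Sum.elim_inr,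
          Matrix.cons_val]
        first | linear_combination h1 | linear_combination -h1)
  · exact mkN x _ _ _ (Sum.elim ![0, -1, 1, -1] ![1, 0, 0, 0]) (Sum.elim ![0, 7, 9, 3] ![0, 0, 0, 0]) (by decide)
      (fun s h => by
        have h1 := congrFun h 6
        simp only [HH, Matrix.cons_val, Pi.zero_apply] at h1
        simp only [Fin.zero_eta, Fin.mk_one, Fin.reduceFinMk, cu, cw, Sum.elim_inl, Sum.elim_inr,
          Matrix.cons_val]
        first | linear_combination h1 | linear_combination -h1)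
  · exact mkN x _ _ _ (Sum.elim ![1, 0, 0, 0] ![0, 0, 0, 0]) (Sum.elim ![5, 0, 0, 0] ![0, 0, 0, 0]) (by decide)
      (fun s h => by
        simp only [Fin.zero_eta, Fin.mk_one, Fin.reduceFinMk, cu, cw, Sum.elim_inl, Sum.elim_inr,
          Matrix.cons_val]
        ring)
  · exact mkN x _ _ _ (Sum.elim ![0, 0, 0, 0] ![1, 0, 0, 0]) (Sum.elim ![0, 0, 0, 0] ![5, 0, 0, 0]) (by decide)
      (fun s h => by
        simp only [Fin.zero_eta, Fin.mk_one, Fin.reduceFinMk, cu, cw, Sum.elim_inl, Sum.elim_inr,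
          Matrix.cons_val]
        ring)
  · exact mkN x _ _ _ (Sum.elim ![0, 1, 0, 0] ![0, 0, 0, 0]) (Sum.elim ![0, 5, 0, 0] ![0, 0, 0, 0]) (by decide)
      (fun s h => by
        simp only [Fin.zero_eta, Fin.mk_one, Fin.reduceFinMk, cu, cw, Sum.elim_inl, Sum.elim_inr,
          Matrix.cons_val]
        ring)
  · exact mkN x _ _ _ (Sum.elim ![0, 0, 0, 0] ![0, 1, 0, 0]) (Sum.elim ![0, 0, 0, 0] ![0, 5, 0, 0]) (by decide)
      (fun s h => by
        simp only [Fin.zero_eta, Fin.mk_one, Fin.reduceFinMk, cu, cw, Sum.elim_inl, Sum.elim_inr,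
          Matrix.cons_val]
        ring)
  · exact mkN x _ _ _ (Sum.elim ![0, 0, 1, 0] ![0, 0, 0, 0]) (Sum.elim ![0, 0, 5, 0] ![0, 0, 0, 0]) (by decide)
      (fun s h => by
        simp only [Fin.zero_eta, Fin.mk_one, Fin.reduceFinMk, cu, cw, Sum.elim_inl, Sum.elim_inr,
          Matrix.cons_val]
        ring)
  · exact mkN x _ _ _ (Sum.elim ![0, 0, 0, 0] ![0, 0, 1, 0]) (Sum.elim ![0, 0, 0, 0] ![0, 0, 5, 0]) (by decide)
      (fun s h => by
        simp only [Fin.zero_eta, Fin.mk_one, Fin.reduceFinMk, cu, cw, Sum.elim_inl, Sum.elim_inr,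
          Matrix.cons_val]
        ring)
  · exact mkN x _ _ _ (Sum.elim ![0, 0, 0, 1] ![0, 0, 0, 0]) (Sum.elim ![0, 0, 0, 5] ![0, 0, 0, 0]) (by decide)
      (fun s h => by
        simp only [Fin.zero_eta, Fin.mk_one, Fin.reduceFinMk, cu, cw, Sum.elim_inl, Sum.elim_inr,
          Matrix.cons_val]
        ring)
  · exact mkN x _ _ _ (Sum.elim ![0, 0, 0, 0] ![0, 0, 0, 1]) (Sum.elim ![0, 0, 0, 0] ![0, 0, 0, 5]) (by decide)
      (fun s h => by
        simp only [Fin.zero_eta, Fin.mk_one, Fin.reduceFinMk, cu, cw, Sum.elim_inl, Sum.elim_inr,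
          Matrix.cons_val]
        ring)

private lemma chart_6 (x : Fin 10 → ℤ) (a : Fin 16) :
    ∃ N : Fin 4 ⊕ Fin 4 → ℤ, (∀ κ, ∃ i, |N κ| ≤ |x i|) ∧
      ∀ s, HH x s = 0 → x 6 * s a = ∑ κ, N κ * s (Sum.elim (cu 6) (cw 6) κ) := by
  fin_cases a
  · exact mkN x _ _ _ (Sum.elim ![1, 0, 0, 0] ![0, 0, 0, 0]) (Sum.elim ![6, 0, 0, 0] ![0, 0, 0, 0]) (by decide)
      (fun s h => by
        simp only [Fin.zero_eta, Fin.mk_one, Fin.reduceFinMk, cu, cw, Sum.elim_inl, Sum.elim_inr,
          Matrix.cons_val]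
        ring)
  · exact mkN x _ _ _ (Sum.elim ![0, -1, 1, -1] ![1, 0, 0, 0]) (Sum.elim ![0, 2, 8, 3] ![4, 0, 0, 0]) (by decide)
      (fun s h => by
        have h1 := congrFun h 14
        simp only [HH, Matrix.cons_val, Pi.zero_apply] at h1
        simp only [Fin.zero_eta, Fin.mk_one, Fin.reduceFinMk, cu, cw, Sum.elim_inl, Sum.elim_inr,
          Matrix.cons_val]
        first | linear_combination h1 | linear_combination -h1)
  · exact mkN x _ _ _ (Sum.elim ![-1, 0, -1, 1] ![0, 1, 0, 0]) (Sum.elim ![2, 0, 1, 7] ![0, 4, 0, 0]) (by decide)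
      (fun s h => by
        have h1 := congrFun h 10
        simp only [HH, Matrix.cons_val, Pi.zero_apply] at h1
        simp only [Fin.zero_eta, Fin.mk_one, Fin.reduceFinMk, cu, cw, Sum.elim_inl, Sum.elim_inr,
          Matrix.cons_val]
        first | linear_combination h1 | linear_combination -h1)
  · exact mkN x _ _ _ (Sum.elim ![0, 1, 0, 0] ![0, 0, 0, 0]) (Sum.elim ![0, 6, 0, 0] ![0, 0, 0, 0]) (by decide)
      (fun s h => by
        simp only [Fin.zero_eta, Fin.mk_one, Fin.reduceFinMk, cu, cw, Sum.elim_inl, Sum.elim_inr,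
          Matrix.cons_val]
        ring)
  · exact mkN x _ _ _ (Sum.elim ![1, 1, 0, 1] ![0, 0, -1, 0]) (Sum.elim ![8, 1, 0, 0] ![0, 0, 4, 0]) (by decide)
      (fun s h => by
        have h1 := congrFun h 9
        simp only [HH, Matrix.cons_val, Pi.zero_apply] at h1
        simp only [Fin.zero_eta, Fin.mk_one, Fin.reduceFinMk, cu, cw, Sum.elim_inl, Sum.elim_inr,
          Matrix.cons_val]
        first | linear_combination h1 | linear_combination -h1)
  · exact mkN x _ _ _ (Sum.elim ![0, 0, 1, 0] ![0, 0, 0, 0]) (Sum.elim ![0, 0, 6, 0] ![0, 0, 0, 0]) (by decide)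
      (fun s h => by
        simp only [Fin.zero_eta, Fin.mk_one, Fin.reduceFinMk, cu, cw, Sum.elim_inl, Sum.elim_inr,
          Matrix.cons_val]
        ring)
  · exact mkN x _ _ _ (Sum.elim ![0, 0, 0, 1] ![0, 0, 0, 0]) (Sum.elim ![0, 0, 0, 6] ![0, 0, 0, 0]) (by decide)
      (fun s h => by
        simp only [Fin.zero_eta, Fin.mk_one, Fin.reduceFinMk, cu, cw, Sum.elim_inl, Sum.elim_inr,
          Matrix.cons_val]
        ring)
  · exact mkN x _ _ _ (Sum.elim ![1, 1, 1, 0] ![0, 0, 0, -1]) (Sum.elim ![3, 7, 0, 0] ![0, 0, 0, 4]) (by decide)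
      (fun s h => by
        have h1 := congrFun h 13
        simp only [HH, Matrix.cons_val, Pi.zero_apply] at h1
        simp only [Fin.zero_eta, Fin.mk_one, Fin.reduceFinMk, cu, cw, Sum.elim_inl, Sum.elim_inr,
          Matrix.cons_val]
        first | linear_combination h1 | linear_combination -h1)
  · exact mkN x _ _ _ (Sum.elim ![0, 0, 0, 0] ![0, 0, 1, 0]) (Sum.elim ![0, 0, 0, 0] ![0, 0, 6, 0]) (by decide)
      (fun s h => by
        simp only [Fin.zero_eta, Fin.mk_one, Fin.reduceFinMk, cu, cw, Sum.elim_inl, Sum.elim_inr,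
          Matrix.cons_val]
        ring)
  · exact mkN x _ _ _ (Sum.elim ![0, 0, 1, 0] ![1, 1, 0, -1]) (Sum.elim ![0, 0, 5, 0] ![7, 3, 0, 2]) (by decide)
      (fun s h => by
        have h1 := congrFun h 4
        simp only [HH, Matrix.cons_val, Pi.zero_apply] at h1
        simp only [Fin.zero_eta, Fin.mk_one, Fin.reduceFinMk, cu, cw, Sum.elim_inl, Sum.elim_inr,
          Matrix.cons_val]
        first | linear_combination h1 | linear_combination -h1)
  · exact mkN x _ _ _ (Sum.elim ![0, -1, 0, 0] ![1, 0, -1, 1]) (Sum.elim ![0, 5, 0, 0] ![0, 0, 3, 8]) (by decide)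
      (fun s h => by
        have h1 := congrFun h 2
        simp only [HH, Matrix.cons_val, Pi.zero_apply] at h1
        simp only [Fin.zero_eta, Fin.mk_one, Fin.reduceFinMk, cu, cw, Sum.elim_inl, Sum.elim_inr,
          Matrix.cons_val]
        first | linear_combination h1 | linear_combination -h1)
  · exact mkN x _ _ _ (Sum.elim ![0, 0, 0, 0] ![0, 1, 0, 0]) (Sum.elim ![0, 0, 0, 0] ![0, 6, 0, 0]) (by decide)
      (fun s h => by
        simp only [Fin.zero_eta, Fin.mk_one, Fin.reduceFinMk, cu, cw, Sum.elim_inl, Sum.elim_inr,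
          Matrix.cons_val]
        ring)
  · exact mkN x _ _ _ (Sum.elim ![0, 0, 0, 0] ![0, 0, 0, 1]) (Sum.elim ![0, 0, 0, 0] ![0, 0, 0, 6]) (by decide)
      (fun s h => by
        simp only [Fin.zero_eta, Fin.mk_one, Fin.reduceFinMk, cu, cw, Sum.elim_inl, Sum.elim_inr,
          Matrix.cons_val]
        ring)
  · exact mkN x _ _ _ (Sum.elim ![0, 0, 0, 1] ![1, 1, -1, 0]) (Sum.elim ![0, 0, 0, 5] ![1, 8, 2, 0]) (by decide)
      (fun s h => by
        have h1 := congrFun h 7
        simp only [HH, Matrix.cons_val, Pi.zero_apply] at h1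
        simp only [Fin.zero_eta, Fin.mk_one, Fin.reduceFinMk, cu, cw, Sum.elim_inl, Sum.elim_inr,
          Matrix.cons_val]
        first | linear_combination h1 | linear_combination -h1)
  · exact mkN x _ _ _ (Sum.elim ![-1, 0, 0, 0] ![0, 1, 1, -1]) (Sum.elim ![5, 0, 0, 0] ![0, 0, 7, 1]) (by decide)
      (fun s h => by
        have h1 := congrFun h 1
        simp only [HH, Matrix.cons_val, Pi.zero_apply] at h1
        simp only [Fin.zero_eta, Fin.mk_one, Fin.reduceFinMk, cu, cw, Sum.elim_inl, Sum.elim_inr,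
          Matrix.cons_val]
        first | linear_combination h1 | linear_combination -h1)
  · exact mkN x _ _ _ (Sum.elim ![0, 0, 0, 0] ![1, 0, 0, 0]) (Sum.elim ![0, 0, 0, 0] ![6, 0, 0, 0]) (by decide)
      (fun s h => by
        simp only [Fin.zero_eta, Fin.mk_one, Fin.reduceFinMk, cu, cw, Sum.elim_inl, Sum.elim_inr,
          Matrix.cons_val]
        ring)

private lemma chart_7 (x : Fin 10 → ℤ) (a : Fin 16) :
    ∃ N : Fin 4 ⊕ Fin 4 → ℤ, (∀ κ, ∃ i, |N κ| ≤ |x i|) ∧
      ∀ s, HH x s = 0 → x 7 * s a = ∑ κ, N κ * s (Sum.elim (cu 7) (cw 7) κ) := by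
  fin_cases a
  · exact mkN x _ _ _ (Sum.elim ![1, 0, 0, 0] ![0, 0, 0, 0]) (Sum.elim ![7, 0, 0, 0] ![0, 0, 0, 0]) (by decide)
      (fun s h => by
        simp only [Fin.zero_eta, Fin.mk_one, Fin.reduceFinMk, cu, cw, Sum.elim_inl, Sum.elim_inr,
          Matrix.cons_val]
        ring)
  · exact mkN x _ _ _ (Sum.elim ![0, -1, 1, -1] ![1, 0, 0, 0]) (Sum.elim ![0, 3, 9, 2] ![4, 0, 0, 0]) (by decide)
      (fun s h => by
        have h1 := congrFun h 8
        simp only [HH, Matrix.cons_val, Pi.zero_apply] at h1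
        simp only [Fin.zero_eta, Fin.mk_one, Fin.reduceFinMk, cu, cw, Sum.elim_inl, Sum.elim_inr,
          Matrix.cons_val]
        first | linear_combination h1 | linear_combination -h1)
  · exact mkN x _ _ _ (Sum.elim ![0, 1, 0, 0] ![0, 0, 0, 0]) (Sum.elim ![0, 7, 0, 0] ![0, 0, 0, 0]) (by decide)
      (fun s h => by
        simp only [Fin.zero_eta, Fin.mk_one, Fin.reduceFinMk, cu, cw, Sum.elim_inl, Sum.elim_inr,
          Matrix.cons_val]
        ring)
  · exact mkN x _ _ _ (Sum.elim ![-1, 0, -1, 1] ![0, 1, 0, 0]) (Sum.elim ![3, 0, 0, 6] ![0, 4, 0, 0]) (by decide)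
      (fun s h => by
        have h1 := congrFun h 13
        simp only [HH, Matrix.cons_val, Pi.zero_apply] at h1
        simp only [Fin.zero_eta, Fin.mk_one, Fin.reduceFinMk, cu, cw, Sum.elim_inl, Sum.elim_inr,
          Matrix.cons_val]
        first | linear_combination h1 | linear_combination -h1)
  · exact mkN x _ _ _ (Sum.elim ![1, 1, 0, 1] ![0, 0, -1, 0]) (Sum.elim ![9, 0, 0, 1] ![0, 0, 4, 0]) (by decide)
      (fun s h => by
        have h1 := congrFun h 15
        simp only [HH, Matrix.cons_val, Pi.zero_apply] at h1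
        simp only [Fin.zero_eta, Fin.mk_one, Fin.reduceFinMk, cu, cw, Sum.elim_inl, Sum.elim_inr,
          Matrix.cons_val]
        first | linear_combination h1 | linear_combination -h1)
  · exact mkN x _ _ _ (Sum.elim ![0, 0, 1, 0] ![0, 0, 0, 0]) (Sum.elim ![0, 0, 7, 0] ![0, 0, 0, 0]) (by decide)
      (fun s h => by
        simp only [Fin.zero_eta, Fin.mk_one, Fin.reduceFinMk, cu, cw, Sum.elim_inl, Sum.elim_inr,
          Matrix.cons_val]
        ring)
  · exact mkN x _ _ _ (Sum.elim ![1, 1, 1, 0] ![0, 0, 0, -1]) (Sum.elim ![2, 6, 1, 0] ![0, 0, 0, 4]) (by decide)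
      (fun s h => by
        have h1 := congrFun h 10
        simp only [HH, Matrix.cons_val, Pi.zero_apply] at h1
        simp only [Fin.zero_eta, Fin.mk_one, Fin.reduceFinMk, cu, cw, Sum.elim_inl, Sum.elim_inr,
          Matrix.cons_val]
        first | linear_combination h1 | linear_combination -h1)
  · exact mkN x _ _ _ (Sum.elim ![0, 0, 0, 1] ![0, 0, 0, 0]) (Sum.elim ![0, 0, 0, 7] ![0, 0, 0, 0]) (by decide)
      (fun s h => by
        simp only [Fin.zero_eta, Fin.mk_one, Fin.reduceFinMk, cu, cw, Sum.elim_inl, Sum.elim_inr,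
          Matrix.cons_val]
        ring)
  · exact mkN x _ _ _ (Sum.elim ![1, 0, 0, 0] ![0, 1, 1, -1]) (Sum.elim ![5, 0, 0, 0] ![0, 1, 6, 0]) (by decide)
      (fun s h => by
        have h1 := congrFun h 1
        simp only [HH, Matrix.cons_val, Pi.zero_apply] at h1
        simp only [Fin.zero_eta, Fin.mk_one, Fin.reduceFinMk, cu, cw, Sum.elim_inl, Sum.elim_inr,
          Matrix.cons_val]
        first | linear_combination h1 | linear_combination -h1)
  · exact mkN x _ _ _ (Sum.elim ![0, 0, 0, 0] ![1, 0, 0, 0]) (Sum.elim ![0, 0, 0, 0] ![7, 0, 0, 0]) (by decide)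
      (fun s h => by
        simp only [Fin.zero_eta, Fin.mk_one, Fin.reduceFinMk, cu, cw, Sum.elim_inl, Sum.elim_inr,
          Matrix.cons_val]
        ring)
  · exact mkN x _ _ _ (Sum.elim ![0, 0, 0, -1] ![1, 1, -1, 0]) (Sum.elim ![0, 0, 0, 5] ![0, 9, 3, 0]) (by decide)
      (fun s h => by
        have h1 := congrFun h 6
        simp only [HH, Matrix.cons_val, Pi.zero_apply] at h1
        simp only [Fin.zero_eta, Fin.mk_one, Fin.reduceFinMk, cu, cw, Sum.elim_inl, Sum.elim_inr,
          Matrix.cons_val]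
        first | linear_combination h1 | linear_combination -h1)
  · exact mkN x _ _ _ (Sum.elim ![0, 0, 0, 0] ![0, 0, 0, 1]) (Sum.elim ![0, 0, 0, 0] ![0, 0, 0, 7]) (by decide)
      (fun s h => by
        simp only [Fin.zero_eta, Fin.mk_one, Fin.reduceFinMk, cu, cw, Sum.elim_inl, Sum.elim_inr,
          Matrix.cons_val]
        ring)
  · exact mkN x _ _ _ (Sum.elim ![0, 0, 0, 0] ![0, 1, 0, 0]) (Sum.elim ![0, 0, 0, 0] ![0, 7, 0, 0]) (by decide)
      (fun s h => by
        simp only [Fin.zero_eta, Fin.mk_one, Fin.reduceFinMk, cu, cw, Sum.elim_inl, Sum.elim_inr,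
          Matrix.cons_val]
        ring)
  · exact mkN x _ _ _ (Sum.elim ![0, 1, 0, 0] ![1, 0, -1, 1]) (Sum.elim ![0, 5, 0, 0] ![1, 0, 2, 9]) (by decide)
      (fun s h => by
        have h1 := congrFun h 3
        simp only [HH, Matrix.cons_val, Pi.zero_apply] at h1
        simp only [Fin.zero_eta, Fin.mk_one, Fin.reduceFinMk, cu, cw, Sum.elim_inl, Sum.elim_inr,
          Matrix.cons_val]
        first | linear_combination h1 | linear_combination -h1)
  · exact mkN x _ _ _ (Sum.elim ![0, 0, 0, 0] ![0, 0, 1, 0]) (Sum.elim ![0, 0, 0, 0] ![0, 0, 7, 0]) (by decide)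
      (fun s h => by
        simp only [Fin.zero_eta, Fin.mk_one, Fin.reduceFinMk, cu, cw, Sum.elim_inl, Sum.elim_inr,
          Matrix.cons_val]
        ring)
  · exact mkN x _ _ _ (Sum.elim ![0, 0, -1, 0] ![1, 1, 0, -1]) (Sum.elim ![0, 0, 5, 0] ![6, 2, 0, 3]) (by decide)
      (fun s h => by
        have h1 := congrFun h 4
        simp only [HH, Matrix.cons_val, Pi.zero_apply] at h1
        simp only [Fin.zero_eta, Fin.mk_one, Fin.reduceFinMk, cu, cw, Sum.elim_inl, Sum.elim_inr,
          Matrix.cons_val]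
        first | linear_combination h1 | linear_combination -h1)

private lemma chart_8 (x : Fin 10 → ℤ) (a : Fin 16) :
    ∃ N : Fin 4 ⊕ Fin 4 → ℤ, (∀ κ, ∃ i, |N κ| ≤ |x i|) ∧
      ∀ s, HH x s = 0 → x 8 * s a = ∑ κ, N κ * s (Sum.elim (cu 8) (cw 8) κ) := by
  fin_cases a
  · exact mkN x _ _ _ (Sum.elim ![0, -1, 1, -1] ![1, 0, 0, 0]) (Sum.elim ![0, 1, 6, 0] ![4, 0, 0, 0]) (by decide)
      (fun s h => by
        have h1 := congrFun h 9
        simp only [HH, Matrix.cons_val, Pi.zero_apply] at h1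
        simp only [Fin.zero_eta, Fin.mk_one, Fin.reduceFinMk, cu, cw, Sum.elim_inl, Sum.elim_inr,
          Matrix.cons_val]
        first | linear_combination h1 | linear_combination -h1)
  · exact mkN x _ _ _ (Sum.elim ![1, 0, 0, 0] ![0, 0, 0, 0]) (Sum.elim ![8, 0, 0, 0] ![0, 0, 0, 0]) (by decide)
      (fun s h => by
        simp only [Fin.zero_eta, Fin.mk_one, Fin.reduceFinMk, cu, cw, Sum.elim_inl, Sum.elim_inr,
          Matrix.cons_val]
        ring)
  · exact mkN x _ _ _ (Sum.elim ![-1, 0, -1, 1] ![0, 1, 0, 0]) (Sum.elim ![1, 0, 2, 9] ![0, 4, 0, 0]) (by decide)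
      (fun s h => by
        have h1 := congrFun h 12
        simp only [HH, Matrix.cons_val, Pi.zero_apply] at h1
        simp only [Fin.zero_eta, Fin.mk_one, Fin.reduceFinMk, cu, cw, Sum.elim_inl, Sum.elim_inr,
          Matrix.cons_val]
        first | linear_combination h1 | linear_combination -h1)
  · exact mkN x _ _ _ (Sum.elim ![0, 1, 0, 0] ![0, 0, 0, 0]) (Sum.elim ![0, 8, 0, 0] ![0, 0, 0, 0]) (by decide)
      (fun s h => by
        simp only [Fin.zero_eta, Fin.mk_one, Fin.reduceFinMk, cu, cw, Sum.elim_inl, Sum.elim_inr,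
          Matrix.cons_val]
        ring)
  · exact mkN x _ _ _ (Sum.elim ![0, 0, 1, 0] ![0, 0, 0, 0]) (Sum.elim ![0, 0, 8, 0] ![0, 0, 0, 0]) (by decide)
      (fun s h => by
        simp only [Fin.zero_eta, Fin.mk_one, Fin.reduceFinMk, cu, cw, Sum.elim_inl, Sum.elim_inr,
          Matrix.cons_val]
        ring)
  · exact mkN x _ _ _ (Sum.elim ![1, 1, 0, 1] ![0, 0, -1, 0]) (Sum.elim ![6, 2, 0, 3] ![0, 0, 4, 0]) (by decide)
      (fun s h => by
        have h1 := congrFun h 14
        simp only [HH, Matrix.cons_val, Pi.zero_apply] at h1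
        simp only [Fin.zero_eta, Fin.mk_one, Fin.reduceFinMk, cu, cw, Sum.elim_inl, Sum.elim_inr,
          Matrix.cons_val]
        first | linear_combination h1 | linear_combination -h1)
  · exact mkN x _ _ _ (Sum.elim ![0, 0, 0, 1] ![0, 0, 0, 0]) (Sum.elim ![0, 0, 0, 8] ![0, 0, 0, 0]) (by decide)
      (fun s h => by
        simp only [Fin.zero_eta, Fin.mk_one, Fin.reduceFinMk, cu, cw, Sum.elim_inl, Sum.elim_inr,
          Matrix.cons_val]
        ring)
  · exact mkN x _ _ _ (Sum.elim ![1, 1, 1, 0] ![0, 0, 0, -1]) (Sum.elim ![0, 9, 3, 0] ![0, 0, 0, 4]) (by decide)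
      (fun s h => by
        have h1 := congrFun h 11
        simp only [HH, Matrix.cons_val, Pi.zero_apply] at h1
        simp only [Fin.zero_eta, Fin.mk_one, Fin.reduceFinMk, cu, cw, Sum.elim_inl, Sum.elim_inr,
          Matrix.cons_val]
        first | linear_combination h1 | linear_combination -h1)
  · exact mkN x _ _ _ (Sum.elim ![0, 0, 0, 0] ![1, 0, 0, 0]) (Sum.elim ![0, 0, 0, 0] ![8, 0, 0, 0]) (by decide)
      (fun s h => by
        simp only [Fin.zero_eta, Fin.mk_one, Fin.reduceFinMk, cu, cw, Sum.elim_inl, Sum.elim_inr,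
          Matrix.cons_val]
        ring)
  · exact mkN x _ _ _ (Sum.elim ![1, 0, 0, 0] ![0, 1, 1, -1]) (Sum.elim ![5, 0, 0, 0] ![0, 3, 9, 2]) (by decide)
      (fun s h => by
        have h1 := congrFun h 0
        simp only [HH, Matrix.cons_val, Pi.zero_apply] at h1
        simp only [Fin.zero_eta, Fin.mk_one, Fin.reduceFinMk, cu, cw, Sum.elim_inl, Sum.elim_inr,
          Matrix.cons_val]
        first | linear_combination h1 | linear_combination -h1)
  · exact mkN x _ _ _ (Sum.elim ![0, 0, 0, 0] ![0, 0, 0, 1]) (Sum.elim ![0, 0, 0, 0] ![0, 0, 0, 8]) (by decide)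
      (fun s h => by
        simp only [Fin.zero_eta, Fin.mk_one, Fin.reduceFinMk, cu, cw, Sum.elim_inl, Sum.elim_inr,
          Matrix.cons_val]
        ring)
  · exact mkN x _ _ _ (Sum.elim ![0, 0, 0, -1] ![1, 1, -1, 0]) (Sum.elim ![0, 0, 0, 5] ![2, 6, 1, 0]) (by decide)
      (fun s h => by
        have h1 := congrFun h 7
        simp only [HH, Matrix.cons_val, Pi.zero_apply] at h1
        simp only [Fin.zero_eta, Fin.mk_one, Fin.reduceFinMk, cu, cw, Sum.elim_inl, Sum.elim_inr,
          Matrix.cons_val]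
        first | linear_combination h1 | linear_combination -h1)
  · exact mkN x _ _ _ (Sum.elim ![0, 1, 0, 0] ![1, 0, -1, 1]) (Sum.elim ![0, 5, 0, 0] ![3, 0, 0, 6]) (by decide)
      (fun s h => by
        have h1 := congrFun h 2
        simp only [HH, Matrix.cons_val, Pi.zero_apply] at h1
        simp only [Fin.zero_eta, Fin.mk_one, Fin.reduceFinMk, cu, cw, Sum.elim_inl, Sum.elim_inr,
          Matrix.cons_val]
        first | linear_combination h1 | linear_combination -h1)
  · exact mkN x _ _ _ (Sum.elim ![0, 0, 0, 0] ![0, 1, 0, 0]) (Sum.elim ![0, 0, 0, 0] ![0, 8, 0, 0]) (by decide)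
      (fun s h => by
        simp only [Fin.zero_eta, Fin.mk_one, Fin.reduceFinMk, cu, cw, Sum.elim_inl, Sum.elim_inr,
          Matrix.cons_val]
        ring)
  · exact mkN x _ _ _ (Sum.elim ![0, 0, -1, 0] ![1, 1, 0, -1]) (Sum.elim ![0, 0, 5, 0] ![9, 0, 0, 1]) (by decide)
      (fun s h => by
        have h1 := congrFun h 5
        simp only [HH, Matrix.cons_val, Pi.zero_apply] at h1
        simp only [Fin.zero_eta, Fin.mk_one, Fin.reduceFinMk, cu, cw, Sum.elim_inl, Sum.elim_inr,
          Matrix.cons_val]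
        first | linear_combination h1 | linear_combination -h1)
  · exact mkN x _ _ _ (Sum.elim ![0, 0, 0, 0] ![0, 0, 1, 0]) (Sum.elim ![0, 0, 0, 0] ![0, 0, 8, 0]) (by decide)
      (fun s h => by
        simp only [Fin.zero_eta, Fin.mk_one, Fin.reduceFinMk, cu, cw, Sum.elim_inl, Sum.elim_inr,
          Matrix.cons_val]
        ring)

private lemma chart_9 (x : Fin 10 → ℤ) (a : Fin 16) :
    ∃ N : Fin 4 ⊕ Fin 4 → ℤ, (∀ κ, ∃ i, |N κ| ≤ |x i|) ∧
      ∀ s, HH x s = 0 → x 9 * s a = ∑ κ, N κ * s (Sum.elim (cu 9) (cw 9) κ) := by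
  fin_cases a
  · exact mkN x _ _ _ (Sum.elim ![0, -1, 1, -1] ![1, 0, 0, 0]) (Sum.elim ![0, 0, 7, 1] ![4, 0, 0, 0]) (by decide)
      (fun s h => by
        have h1 := congrFun h 15
        simp only [HH, Matrix.cons_val, Pi.zero_apply] at h1
        simp only [Fin.zero_eta, Fin.mk_one, Fin.reduceFinMk, cu, cw, Sum.elim_inl, Sum.elim_inr,
          Matrix.cons_val]
        first | linear_combination h1 | linear_combination -h1)
  · exact mkN x _ _ _ (Sum.elim ![1, 0, 0, 0] ![0, 0, 0, 0]) (Sum.elim ![9, 0, 0, 0] ![0, 0, 0, 0]) (by decide)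
      (fun s h => by
        simp only [Fin.zero_eta, Fin.mk_one, Fin.reduceFinMk, cu, cw, Sum.elim_inl, Sum.elim_inr,
          Matrix.cons_val]
        ring)
  · exact mkN x _ _ _ (Sum.elim ![0, 1, 0, 0] ![0, 0, 0, 0]) (Sum.elim ![0, 9, 0, 0] ![0, 0, 0, 0]) (by decide)
      (fun s h => by
        simp only [Fin.zero_eta, Fin.mk_one, Fin.reduceFinMk, cu, cw, Sum.elim_inl, Sum.elim_inr,
          Matrix.cons_val]
        ring)
  · exact mkN x _ _ _ (Sum.elim ![-1, 0, -1, 1] ![0, 1, 0, 0]) (Sum.elim ![0, 0, 3, 8] ![0, 4, 0, 0]) (by decide)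
      (fun s h => by
        have h1 := congrFun h 11
        simp only [HH, Matrix.cons_val, Pi.zero_apply] at h1
        simp only [Fin.zero_eta, Fin.mk_one, Fin.reduceFinMk, cu, cw, Sum.elim_inl, Sum.elim_inr,
          Matrix.cons_val]
        first | linear_combination h1 | linear_combination -h1)
  · exact mkN x _ _ _ (Sum.elim ![0, 0, 1, 0] ![0, 0, 0, 0]) (Sum.elim ![0, 0, 9, 0] ![0, 0, 0, 0]) (by decide)
      (fun s h => by
        simp only [Fin.zero_eta, Fin.mk_one, Fin.reduceFinMk, cu, cw, Sum.elim_inl, Sum.elim_inr,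
          Matrix.cons_val]
        ring)
  · exact mkN x _ _ _ (Sum.elim ![1, 1, 0, 1] ![0, 0, -1, 0]) (Sum.elim ![7, 3, 0, 2] ![0, 0, 4, 0]) (by decide)
      (fun s h => by
        have h1 := congrFun h 8
        simp only [HH, Matrix.cons_val, Pi.zero_apply] at h1
        simp only [Fin.zero_eta, Fin.mk_one, Fin.reduceFinMk, cu, cw, Sum.elim_inl, Sum.elim_inr,
          Matrix.cons_val]
        first | linear_combination h1 | linear_combination -h1)
  · exact mkN x _ _ _ (Sum.elim ![1, 1, 1, 0] ![0, 0, 0, -1]) (Sum.elim ![1, 8, 2, 0] ![0, 0, 0, 4]) (by decide)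
      (fun s h => by
        have h1 := congrFun h 12
        simp only [HH, Matrix.cons_val, Pi.zero_apply] at h1
        simp only [Fin.zero_eta, Fin.mk_one, Fin.reduceFinMk, cu, cw, Sum.elim_inl, Sum.elim_inr,
          Matrix.cons_val]
        first | linear_combination h1 | linear_combination -h1)
  · exact mkN x _ _ _ (Sum.elim ![0, 0, 0, 1] ![0, 0, 0, 0]) (Sum.elim ![0, 0, 0, 9] ![0, 0, 0, 0]) (by decide)
      (fun s h => by
        simp only [Fin.zero_eta, Fin.mk_one, Fin.reduceFinMk, cu, cw, Sum.elim_inl, Sum.elim_inr,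
          Matrix.cons_val]
        ring)
  · exact mkN x _ _ _ (Sum.elim ![0, 0, 1, 0] ![1, 1, 0, -1]) (Sum.elim ![0, 0, 5, 0] ![8, 1, 0, 0]) (by decide)
      (fun s h => by
        have h1 := congrFun h 5
        simp only [HH, Matrix.cons_val, Pi.zero_apply] at h1
        simp only [Fin.zero_eta, Fin.mk_one, Fin.reduceFinMk, cu, cw, Sum.elim_inl, Sum.elim_inr,
          Matrix.cons_val]
        first | linear_combination h1 | linear_combination -h1)
  · exact mkN x _ _ _ (Sum.elim ![0, 0, 0, 0] ![0, 0, 1, 0]) (Sum.elim ![0, 0, 0, 0] ![0, 0, 9, 0]) (by decide)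
      (fun s h => by
        simp only [Fin.zero_eta, Fin.mk_one, Fin.reduceFinMk, cu, cw, Sum.elim_inl, Sum.elim_inr,
          Matrix.cons_val]
        ring)
  · exact mkN x _ _ _ (Sum.elim ![0, 0, 0, 0] ![0, 1, 0, 0]) (Sum.elim ![0, 0, 0, 0] ![0, 9, 0, 0]) (by decide)
      (fun s h => by
        simp only [Fin.zero_eta, Fin.mk_one, Fin.reduceFinMk, cu, cw, Sum.elim_inl, Sum.elim_inr,
          Matrix.cons_val]
        ring)
  · exact mkN x _ _ _ (Sum.elim ![0, -1, 0, 0] ![1, 0, -1, 1]) (Sum.elim ![0, 5, 0, 0] ![2, 0, 1, 7]) (by decide)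
      (fun s h => by
        have h1 := congrFun h 3
        simp only [HH, Matrix.cons_val, Pi.zero_apply] at h1
        simp only [Fin.zero_eta, Fin.mk_one, Fin.reduceFinMk, cu, cw, Sum.elim_inl, Sum.elim_inr,
          Matrix.cons_val]
        first | linear_combination h1 | linear_combination -h1)
  · exact mkN x _ _ _ (Sum.elim ![0, 0, 0, 1] ![1, 1, -1, 0]) (Sum.elim ![0, 0, 0, 5] ![3, 7, 0, 0]) (by decide)
      (fun s h => by
        have h1 := congrFun h 6
        simp only [HH, Matrix.cons_val, Pi.zero_apply] at h1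
        simp only [Fin.zero_eta, Fin.mk_one, Fin.reduceFinMk, cu, cw, Sum.elim_inl, Sum.elim_inr,
          Matrix.cons_val]
        first | linear_combination h1 | linear_combination -h1)
  · exact mkN x _ _ _ (Sum.elim ![0, 0, 0, 0] ![0, 0, 0, 1]) (Sum.elim ![0, 0, 0, 0] ![0, 0, 0, 9]) (by decide)
      (fun s h => by
        simp only [Fin.zero_eta, Fin.mk_one, Fin.reduceFinMk, cu, cw, Sum.elim_inl, Sum.elim_inr,
          Matrix.cons_val]
        ring)
  · exact mkN x _ _ _ (Sum.elim ![0, 0, 0, 0] ![1, 0, 0, 0]) (Sum.elim ![0, 0, 0, 0] ![9, 0, 0, 0]) (by decide)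
      (fun s h => by
        simp only [Fin.zero_eta, Fin.mk_one, Fin.reduceFinMk, cu, cw, Sum.elim_inl, Sum.elim_inr,
          Matrix.cons_val]
        ring)
  · exact mkN x _ _ _ (Sum.elim ![-1, 0, 0, 0] ![0, 1, 1, -1]) (Sum.elim ![5, 0, 0, 0] ![0, 2, 8, 3]) (by decide)
      (fun s h => by
        have h1 := congrFun h 0
        simp only [HH, Matrix.cons_val, Pi.zero_apply] at h1
        simp only [Fin.zero_eta, Fin.mk_one, Fin.reduceFinMk, cu, cw, Sum.elim_inl, Sum.elim_inr,
          Matrix.cons_val]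
        first | linear_combination h1 | linear_combination -h1)

/-- size 3.  For every `j` eight of the sixteen coordinates (the ones that occur in `Bd s t j`; pairs `(inl i, inr i)` with sign `ε i`, e.g. for
`j = 0`: `(0,10,+) (3,14,-) (4,12,-) (7,8,+)`) determine a vector of `K_x`: for `a` in the chart take `N = x j` at `a`; for the other eight `a` one of the
sixteen equations `HH x s = 0` contains the term `± x j * s a` and otherwise only terms `± x i * s (c κ)` (e.g. `j = 5`: the first eight equations).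
Ten cases. -/
theorem chart (j : Fin 10) : ∃ (c : Fin 4 ⊕ Fin 4 → Fin 16) (ε : Fin 4 → ℤ),
    (∀ i, ε i = 1 ∨ ε i = -1) ∧
    (∀ s t : Fin 16 → ℤ, Bd s t j = ∑ i, ε i * (s (c (Sum.inl i)) * t (c (Sum.inr i)) +
      s (c (Sum.inr i)) * t (c (Sum.inl i)))) ∧
    ∀ (x : Fin 10 → ℤ) (a : Fin 16), ∃ N : Fin 4 ⊕ Fin 4 → ℤ, (∀ κ, ∃ i, |N κ| ≤ |x i|) ∧
      ∀ s, HH x s = 0 → x j * s a = ∑ κ, N κ * s (c κ) := by
  refine ⟨Sum.elim (cu j) (cw j), ce j, ?_, fun s t => Bd_chart s t j, fun x a => ?_⟩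
  · revert j; decide
  · fin_cases j
    · exact chart_0 x a
    · exact chart_1 x a
    · exact chart_2 x a
    · exact chart_3 x a
    · exact chart_4 x a
    · exact chart_5 x a
    · exact chart_6 x a
    · exact chart_7 x a
    · exact chart_8 x a
    · exact chart_9 x a

end Pool.Agent.PP5M
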