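import Mathlib

/-!
# PP5M/D1a: the 2 x 2 minors of the adjugate of a 4 x 4 matrix (Jacobi)
-/

set_option autoImplicit false
set_option linter.unusedSimpArgs false

namespace Pool.Agent.PP5M

open Matrix

/-- the 2 x 2 minor (rows `i, j`, columns `k, l`) -/
def mn2 {R : Type*} [CommRing R] {ι κ : Type*} (A : Matrix ι κ R) (i j : ι) (k l : κ) : R :=
  A i k * A j l - A i l * A j k

section

variable {R : Type*} [CommRing R] (A : Matrix (Fin 4) (Fin 4) R)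

private theorem det4 : A.det =
    A 0 0 * (A 1 1 * (A 2 2 * A 3 3 - A 2 3 * A 3 2) - A 1 2 * (A 2 1 * A 3 3 - A 2 3 * A 3 1) +
      A 1 3 * (A 2 1 * A 3 2 - A 2 2 * A 3 1)) -
    A 0 1 * (A 1 0 * (A 2 2 * A 3 3 - A 2 3 * A 3 2) - A 1 2 * (A 2 0 * A 3 3 - A 2 3 * A 3 0) +
      A 1 3 * (A 2 0 * A 3 2 - A 2 2 * A 3 0)) +
    A 0 2 * (A 1 0 * (A 2 1 * A 3 3 - A 2 3 * A 3 1) - A 1 1 * (A 2 0 * A 3 3 - A 2 3 * A 3 0) +
      A 1 3 * (A 2 0 * A 3 1 - A 2 1 * A 3 0)) -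
    A 0 3 * (A 1 0 * (A 2 1 * A 3 2 - A 2 2 * A 3 1) - A 1 1 * (A 2 0 * A 3 2 - A 2 2 * A 3 0) +
      A 1 2 * (A 2 0 * A 3 1 - A 2 1 * A 3 0)) := by
  simp [Matrix.det_succ_row_zero, Fin.sum_univ_succ, Fin.succAbove]
  ring

private theorem a00 : A.adjugate 0 0 =
    (A 1 1 * (A 2 2 * A 3 3 - A 2 3 * A 3 2) - A 1 2 * (A 2 1 * A 3 3 - A 2 3 * A 3 1) + A 1 3 * (A 2 1 * A 3 2 - A 2 2 * A 3 1)) := by
  rw [Matrix.adjugate_fin_succ_eq_det_submatrix, Matrix.det_fin_three]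
  simp [Fin.succAbove]
  ring

private theorem a01 : A.adjugate 0 1 =
    -(A 0 1 * (A 2 2 * A 3 3 - A 2 3 * A 3 2) - A 0 2 * (A 2 1 * A 3 3 - A 2 3 * A 3 1) + A 0 3 * (A 2 1 * A 3 2 - A 2 2 * A 3 1)) := by
  rw [Matrix.adjugate_fin_succ_eq_det_submatrix, Matrix.det_fin_three]
  simp [Fin.succAbove]
  ring

private theorem a02 : A.adjugate 0 2 =
    (A 0 1 * (A 1 2 * A 3 3 - A 1 3 * A 3 2) - A 0 2 * (A 1 1 * A 3 3 - A 1 3 * A 3 1) + A 0 3 * (A 1 1 * A 3 2 - A 1 2 * A 3 1)) := by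
  rw [Matrix.adjugate_fin_succ_eq_det_submatrix, Matrix.det_fin_three]
  simp [Fin.succAbove]
  ring

private theorem a03 : A.adjugate 0 3 =
    -(A 0 1 * (A 1 2 * A 2 3 - A 1 3 * A 2 2) - A 0 2 * (A 1 1 * A 2 3 - A 1 3 * A 2 1) + A 0 3 * (A 1 1 * A 2 2 - A 1 2 * A 2 1)) := by
  rw [Matrix.adjugate_fin_succ_eq_det_submatrix, Matrix.det_fin_three]
  simp [Fin.succAbove]
  ring

private theorem a10 : A.adjugate 1 0 =
    -(A 1 0 * (A 2 2 * A 3 3 - A 2 3 * A 3 2) - A 1 2 * (A 2 0 * A 3 3 - A 2 3 * A 3 0) + A 1 3 * (A 2 0 * A 3 2 - A 2 2 * A 3 0)) := by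
  rw [Matrix.adjugate_fin_succ_eq_det_submatrix, Matrix.det_fin_three]
  simp [Fin.succAbove]
  ring

private theorem a11 : A.adjugate 1 1 =
    (A 0 0 * (A 2 2 * A 3 3 - A 2 3 * A 3 2) - A 0 2 * (A 2 0 * A 3 3 - A 2 3 * A 3 0) + A 0 3 * (A 2 0 * A 3 2 - A 2 2 * A 3 0)) := by
  rw [Matrix.adjugate_fin_succ_eq_det_submatrix, Matrix.det_fin_three]
  simp [Fin.succAbove]
  ring

private theorem a12 : A.adjugate 1 2 =
    -(A 0 0 * (A 1 2 * A 3 3 - A 1 3 * A 3 2) - A 0 2 * (A 1 0 * A 3 3 - A 1 3 * A 3 0) + A 0 3 * (A 1 0 * A 3 2 - A 1 2 * A 3 0)) := by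
  rw [Matrix.adjugate_fin_succ_eq_det_submatrix, Matrix.det_fin_three]
  simp [Fin.succAbove]
  ring

private theorem a13 : A.adjugate 1 3 =
    (A 0 0 * (A 1 2 * A 2 3 - A 1 3 * A 2 2) - A 0 2 * (A 1 0 * A 2 3 - A 1 3 * A 2 0) + A 0 3 * (A 1 0 * A 2 2 - A 1 2 * A 2 0)) := by
  rw [Matrix.adjugate_fin_succ_eq_det_submatrix, Matrix.det_fin_three]
  simp [Fin.succAbove]
  ring

private theorem a20 : A.adjugate 2 0 =
    (A 1 0 * (A 2 1 * A 3 3 - A 2 3 * A 3 1) - A 1 1 * (A 2 0 * A 3 3 - A 2 3 * A 3 0) + A 1 3 * (A 2 0 * A 3 1 - A 2 1 * A 3 0)) := by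
  rw [Matrix.adjugate_fin_succ_eq_det_submatrix, Matrix.det_fin_three]
  simp [Fin.succAbove]
  ring

private theorem a21 : A.adjugate 2 1 =
    -(A 0 0 * (A 2 1 * A 3 3 - A 2 3 * A 3 1) - A 0 1 * (A 2 0 * A 3 3 - A 2 3 * A 3 0) + A 0 3 * (A 2 0 * A 3 1 - A 2 1 * A 3 0)) := by
  rw [Matrix.adjugate_fin_succ_eq_det_submatrix, Matrix.det_fin_three]
  simp [Fin.succAbove]
  ring

private theorem a22 : A.adjugate 2 2 =
    (A 0 0 * (A 1 1 * A 3 3 - A 1 3 * A 3 1) - A 0 1 * (A 1 0 * A 3 3 - A 1 3 * A 3 0) + A 0 3 * (A 1 0 * A 3 1 - A 1 1 * A 3 0)) := by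
  rw [Matrix.adjugate_fin_succ_eq_det_submatrix, Matrix.det_fin_three]
  simp [Fin.succAbove]
  ring

private theorem a23 : A.adjugate 2 3 =
    -(A 0 0 * (A 1 1 * A 2 3 - A 1 3 * A 2 1) - A 0 1 * (A 1 0 * A 2 3 - A 1 3 * A 2 0) + A 0 3 * (A 1 0 * A 2 1 - A 1 1 * A 2 0)) := by
  rw [Matrix.adjugate_fin_succ_eq_det_submatrix, Matrix.det_fin_three]
  simp [Fin.succAbove]
  ring

private theorem a30 : A.adjugate 3 0 =
    -(A 1 0 * (A 2 1 * A 3 2 - A 2 2 * A 3 1) - A 1 1 * (A 2 0 * A 3 2 - A 2 2 * A 3 0) + A 1 2 * (A 2 0 * A 3 1 - A 2 1 * A 3 0)) := by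
  rw [Matrix.adjugate_fin_succ_eq_det_submatrix, Matrix.det_fin_three]
  simp [Fin.succAbove]
  ring

private theorem a31 : A.adjugate 3 1 =
    (A 0 0 * (A 2 1 * A 3 2 - A 2 2 * A 3 1) - A 0 1 * (A 2 0 * A 3 2 - A 2 2 * A 3 0) + A 0 2 * (A 2 0 * A 3 1 - A 2 1 * A 3 0)) := by
  rw [Matrix.adjugate_fin_succ_eq_det_submatrix, Matrix.det_fin_three]
  simp [Fin.succAbove]
  ring

private theorem a32 : A.adjugate 3 2 =
    -(A 0 0 * (A 1 1 * A 3 2 - A 1 2 * A 3 1) - A 0 1 * (A 1 0 * A 3 2 - A 1 2 * A 3 0) + A 0 2 * (A 1 0 * A 3 1 - A 1 1 * A 3 0)) := by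
  rw [Matrix.adjugate_fin_succ_eq_det_submatrix, Matrix.det_fin_three]
  simp [Fin.succAbove]
  ring

private theorem a33 : A.adjugate 3 3 =
    (A 0 0 * (A 1 1 * A 2 2 - A 1 2 * A 2 1) - A 0 1 * (A 1 0 * A 2 2 - A 1 2 * A 2 0) + A 0 2 * (A 1 0 * A 2 1 - A 1 1 * A 2 0)) := by
  rw [Matrix.adjugate_fin_succ_eq_det_submatrix, Matrix.det_fin_three]
  simp [Fin.succAbove]
  ring

private theorem m0101 : mn2 A.adjugate 0 1 0 1 =
    A.det * (mn2 A 2 3 2 3) := by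
  unfold mn2
  rw [det4, a00, a01, a10, a11]
  ring

private theorem m0102 : mn2 A.adjugate 0 1 0 2 =
    A.det * (-mn2 A 1 3 2 3) := by
  unfold mn2
  rw [det4, a00, a02, a10, a12]
  ring

private theorem m0103 : mn2 A.adjugate 0 1 0 3 =
    A.det * (mn2 A 1 2 2 3) := by
  unfold mn2
  rw [det4, a00, a03, a10, a13]
  ring

private theorem m0112 : mn2 A.adjugate 0 1 1 2 =
    A.det * (mn2 A 0 3 2 3) := by
  unfold mn2
  rw [det4, a01, a02, a11, a12]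
  ring

private theorem m0113 : mn2 A.adjugate 0 1 1 3 =
    A.det * (-mn2 A 0 2 2 3) := by
  unfold mn2
  rw [det4, a01, a03, a11, a13]
  ring

private theorem m0123 : mn2 A.adjugate 0 1 2 3 =
    A.det * (mn2 A 0 1 2 3) := by
  unfold mn2
  rw [det4, a02, a03, a12, a13]
  ring

private theorem m0201 : mn2 A.adjugate 0 2 0 1 =
    A.det * (-mn2 A 2 3 1 3) := by
  unfold mn2
  rw [det4, a00, a01, a20, a21]
  ring

private theorem m0202 : mn2 A.adjugate 0 2 0 2 =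
    A.det * (mn2 A 1 3 1 3) := by
  unfold mn2
  rw [det4, a00, a02, a20, a22]
  ring

private theorem m0203 : mn2 A.adjugate 0 2 0 3 =
    A.det * (-mn2 A 1 2 1 3) := by
  unfold mn2
  rw [det4, a00, a03, a20, a23]
  ring

private theorem m0212 : mn2 A.adjugate 0 2 1 2 =
    A.det * (-mn2 A 0 3 1 3) := by
  unfold mn2
  rw [det4, a01, a02, a21, a22]
  ring

private theorem m0213 : mn2 A.adjugate 0 2 1 3 =
    A.det * (mn2 A 0 2 1 3) := by
  unfold mn2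
  rw [det4, a01, a03, a21, a23]
  ring

private theorem m0223 : mn2 A.adjugate 0 2 2 3 =
    A.det * (-mn2 A 0 1 1 3) := by
  unfold mn2
  rw [det4, a02, a03, a22, a23]
  ring

private theorem m0301 : mn2 A.adjugate 0 3 0 1 =
    A.det * (mn2 A 2 3 1 2) := by
  unfold mn2
  rw [det4, a00, a01, a30, a31]
  ring

private theorem m0302 : mn2 A.adjugate 0 3 0 2 =
    A.det * (-mn2 A 1 3 1 2) := by
  unfold mn2
  rw [det4, a00, a02, a30, a32]
  ring

private theorem m0303 : mn2 A.adjugate 0 3 0 3 =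
    A.det * (mn2 A 1 2 1 2) := by
  unfold mn2
  rw [det4, a00, a03, a30, a33]
  ring

private theorem m0312 : mn2 A.adjugate 0 3 1 2 =
    A.det * (mn2 A 0 3 1 2) := by
  unfold mn2
  rw [det4, a01, a02, a31, a32]
  ring

private theorem m0313 : mn2 A.adjugate 0 3 1 3 =
    A.det * (-mn2 A 0 2 1 2) := by
  unfold mn2
  rw [det4, a01, a03, a31, a33]
  ring

private theorem m0323 : mn2 A.adjugate 0 3 2 3 =
    A.det * (mn2 A 0 1 1 2) := by
  unfold mn2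
  rw [det4, a02, a03, a32, a33]
  ring

private theorem m1201 : mn2 A.adjugate 1 2 0 1 =
    A.det * (mn2 A 2 3 0 3) := by
  unfold mn2
  rw [det4, a10, a11, a20, a21]
  ring

private theorem m1202 : mn2 A.adjugate 1 2 0 2 =
    A.det * (-mn2 A 1 3 0 3) := by
  unfold mn2
  rw [det4, a10, a12, a20, a22]
  ring

private theorem m1203 : mn2 A.adjugate 1 2 0 3 =
    A.det * (mn2 A 1 2 0 3) := by
  unfold mn2
  rw [det4, a10, a13, a20, a23]
  ring

private theorem m1212 : mn2 A.adjugate 1 2 1 2 =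
    A.det * (mn2 A 0 3 0 3) := by
  unfold mn2
  rw [det4, a11, a12, a21, a22]
  ring

private theorem m1213 : mn2 A.adjugate 1 2 1 3 =
    A.det * (-mn2 A 0 2 0 3) := by
  unfold mn2
  rw [det4, a11, a13, a21, a23]
  ring

private theorem m1223 : mn2 A.adjugate 1 2 2 3 =
    A.det * (mn2 A 0 1 0 3) := by
  unfold mn2
  rw [det4, a12, a13, a22, a23]
  ring

private theorem m1301 : mn2 A.adjugate 1 3 0 1 =
    A.det * (-mn2 A 2 3 0 2) := by
  unfold mn2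
  rw [det4, a10, a11, a30, a31]
  ring

private theorem m1302 : mn2 A.adjugate 1 3 0 2 =
    A.det * (mn2 A 1 3 0 2) := by
  unfold mn2
  rw [det4, a10, a12, a30, a32]
  ring

private theorem m1303 : mn2 A.adjugate 1 3 0 3 =
    A.det * (-mn2 A 1 2 0 2) := by
  unfold mn2
  rw [det4, a10, a13, a30, a33]
  ring

private theorem m1312 : mn2 A.adjugate 1 3 1 2 =
    A.det * (-mn2 A 0 3 0 2) := by
  unfold mn2
  rw [det4, a11, a12, a31, a32]
  ring

private theorem m1313 : mn2 A.adjugate 1 3 1 3 =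
    A.det * (mn2 A 0 2 0 2) := by
  unfold mn2
  rw [det4, a11, a13, a31, a33]
  ring

private theorem m1323 : mn2 A.adjugate 1 3 2 3 =
    A.det * (-mn2 A 0 1 0 2) := by
  unfold mn2
  rw [det4, a12, a13, a32, a33]
  ring

private theorem m2301 : mn2 A.adjugate 2 3 0 1 =
    A.det * (mn2 A 2 3 0 1) := by
  unfold mn2
  rw [det4, a20, a21, a30, a31]
  ring

private theorem m2302 : mn2 A.adjugate 2 3 0 2 =
    A.det * (-mn2 A 1 3 0 1) := by
  unfold mn2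
  rw [det4, a20, a22, a30, a32]
  ring

private theorem m2303 : mn2 A.adjugate 2 3 0 3 =
    A.det * (mn2 A 1 2 0 1) := by
  unfold mn2
  rw [det4, a20, a23, a30, a33]
  ring

private theorem m2312 : mn2 A.adjugate 2 3 1 2 =
    A.det * (mn2 A 0 3 0 1) := by
  unfold mn2
  rw [det4, a21, a22, a31, a32]
  ring

private theorem m2313 : mn2 A.adjugate 2 3 1 3 =
    A.det * (-mn2 A 0 2 0 1) := by
  unfold mn2
  rw [det4, a21, a23, a31, a33]
  ring

private theorem m2323 : mn2 A.adjugate 2 3 2 3 =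
    A.det * (mn2 A 0 1 0 1) := by
  unfold mn2
  rw [det4, a22, a23, a32, a33]
  ring

end

theorem mn2_swap {R : Type*} [CommRing R] {ι κ : Type*} (A : Matrix ι κ R) (i j : ι) (k l : κ) :
    mn2 A j i k l = -mn2 A i j k l := by unfold mn2; ring

theorem mn2_swap' {R : Type*} [CommRing R] {ι κ : Type*} (A : Matrix ι κ R) (i j : ι) (k l : κ) :
    mn2 A i j l k = -mn2 A i j k l := by unfold mn2; ring

theorem mn2_self {R : Type*} [CommRing R] {ι κ : Type*} (A : Matrix ι κ R) (i : ι) (k l : κ) :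
    mn2 A i i k l = 0 := by unfold mn2; ring

theorem mn2_self' {R : Type*} [CommRing R] {ι κ : Type*} (A : Matrix ι κ R) (i j : ι) (k : κ) :
    mn2 A i j k k = 0 := by unfold mn2; ring

theorem neg_dvd_aux {R : Type*} [CommRing R] {n g e : R} (h : n ∣ e) : g * n ∣ g * -e :=
  mul_dvd_mul_left _ ((dvd_neg).2 h)

private theorem l01 {R : Type*} [CommRing R] (A : Matrix (Fin 4) (Fin 4) R) (n : R)
    (hn : ∀ i j k l, n ∣ mn2 A i j k l) (c d : Fin 4) (hcd : c < d) :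
    A.det * n ∣ mn2 A.adjugate 0 1 c d := by
  fin_cases c <;> fin_cases d <;> (try exact absurd hcd (by decide))
  · show A.det * n ∣ mn2 A.adjugate 0 1 0 1
    rw [m0101]
    exact mul_dvd_mul_left _ (hn 2 3 2 3)
  · show A.det * n ∣ mn2 A.adjugate 0 1 0 2
    rw [m0102]
    exact neg_dvd_aux (hn 1 3 2 3)
  · show A.det * n ∣ mn2 A.adjugate 0 1 0 3
    rw [m0103]
    exact mul_dvd_mul_left _ (hn 1 2 2 3)
  · show A.det * n ∣ mn2 A.adjugate 0 1 1 2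
    rw [m0112]
    exact mul_dvd_mul_left _ (hn 0 3 2 3)
  · show A.det * n ∣ mn2 A.adjugate 0 1 1 3
    rw [m0113]
    exact neg_dvd_aux (hn 0 2 2 3)
  · show A.det * n ∣ mn2 A.adjugate 0 1 2 3
    rw [m0123]
    exact mul_dvd_mul_left _ (hn 0 1 2 3)

private theorem l02 {R : Type*} [CommRing R] (A : Matrix (Fin 4) (Fin 4) R) (n : R)
    (hn : ∀ i j k l, n ∣ mn2 A i j k l) (c d : Fin 4) (hcd : c < d) :
    A.det * n ∣ mn2 A.adjugate 0 2 c d := by
  fin_cases c <;> fin_cases d <;> (try exact absurd hcd (by decide))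
  · show A.det * n ∣ mn2 A.adjugate 0 2 0 1
    rw [m0201]
    exact neg_dvd_aux (hn 2 3 1 3)
  · show A.det * n ∣ mn2 A.adjugate 0 2 0 2
    rw [m0202]
    exact mul_dvd_mul_left _ (hn 1 3 1 3)
  · show A.det * n ∣ mn2 A.adjugate 0 2 0 3
    rw [m0203]
    exact neg_dvd_aux (hn 1 2 1 3)
  · show A.det * n ∣ mn2 A.adjugate 0 2 1 2
    rw [m0212]
    exact neg_dvd_aux (hn 0 3 1 3)
  · show A.det * n ∣ mn2 A.adjugate 0 2 1 3
    rw [m0213]
    exact mul_dvd_mul_left _ (hn 0 2 1 3)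
  · show A.det * n ∣ mn2 A.adjugate 0 2 2 3
    rw [m0223]
    exact neg_dvd_aux (hn 0 1 1 3)

private theorem l03 {R : Type*} [CommRing R] (A : Matrix (Fin 4) (Fin 4) R) (n : R)
    (hn : ∀ i j k l, n ∣ mn2 A i j k l) (c d : Fin 4) (hcd : c < d) :
    A.det * n ∣ mn2 A.adjugate 0 3 c d := by
  fin_cases c <;> fin_cases d <;> (try exact absurd hcd (by decide))
  · show A.det * n ∣ mn2 A.adjugate 0 3 0 1
    rw [m0301]
    exact mul_dvd_mul_left _ (hn 2 3 1 2)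
  · show A.det * n ∣ mn2 A.adjugate 0 3 0 2
    rw [m0302]
    exact neg_dvd_aux (hn 1 3 1 2)
  · show A.det * n ∣ mn2 A.adjugate 0 3 0 3
    rw [m0303]
    exact mul_dvd_mul_left _ (hn 1 2 1 2)
  · show A.det * n ∣ mn2 A.adjugate 0 3 1 2
    rw [m0312]
    exact mul_dvd_mul_left _ (hn 0 3 1 2)
  · show A.det * n ∣ mn2 A.adjugate 0 3 1 3
    rw [m0313]
    exact neg_dvd_aux (hn 0 2 1 2)
  · show A.det * n ∣ mn2 A.adjugate 0 3 2 3
    rw [m0323]
    exact mul_dvd_mul_left _ (hn 0 1 1 2)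

private theorem l12 {R : Type*} [CommRing R] (A : Matrix (Fin 4) (Fin 4) R) (n : R)
    (hn : ∀ i j k l, n ∣ mn2 A i j k l) (c d : Fin 4) (hcd : c < d) :
    A.det * n ∣ mn2 A.adjugate 1 2 c d := by
  fin_cases c <;> fin_cases d <;> (try exact absurd hcd (by decide))
  · show A.det * n ∣ mn2 A.adjugate 1 2 0 1
    rw [m1201]
    exact mul_dvd_mul_left _ (hn 2 3 0 3)
  · show A.det * n ∣ mn2 A.adjugate 1 2 0 2
    rw [m1202]
    exact neg_dvd_aux (hn 1 3 0 3)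
  · show A.det * n ∣ mn2 A.adjugate 1 2 0 3
    rw [m1203]
    exact mul_dvd_mul_left _ (hn 1 2 0 3)
  · show A.det * n ∣ mn2 A.adjugate 1 2 1 2
    rw [m1212]
    exact mul_dvd_mul_left _ (hn 0 3 0 3)
  · show A.det * n ∣ mn2 A.adjugate 1 2 1 3
    rw [m1213]
    exact neg_dvd_aux (hn 0 2 0 3)
  · show A.det * n ∣ mn2 A.adjugate 1 2 2 3
    rw [m1223]
    exact mul_dvd_mul_left _ (hn 0 1 0 3)

private theorem l13 {R : Type*} [CommRing R] (A : Matrix (Fin 4) (Fin 4) R) (n : R)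
    (hn : ∀ i j k l, n ∣ mn2 A i j k l) (c d : Fin 4) (hcd : c < d) :
    A.det * n ∣ mn2 A.adjugate 1 3 c d := by
  fin_cases c <;> fin_cases d <;> (try exact absurd hcd (by decide))
  · show A.det * n ∣ mn2 A.adjugate 1 3 0 1
    rw [m1301]
    exact neg_dvd_aux (hn 2 3 0 2)
  · show A.det * n ∣ mn2 A.adjugate 1 3 0 2
    rw [m1302]
    exact mul_dvd_mul_left _ (hn 1 3 0 2)
  · show A.det * n ∣ mn2 A.adjugate 1 3 0 3
    rw [m1303]
    exact neg_dvd_aux (hn 1 2 0 2)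
  · show A.det * n ∣ mn2 A.adjugate 1 3 1 2
    rw [m1312]
    exact neg_dvd_aux (hn 0 3 0 2)
  · show A.det * n ∣ mn2 A.adjugate 1 3 1 3
    rw [m1313]
    exact mul_dvd_mul_left _ (hn 0 2 0 2)
  · show A.det * n ∣ mn2 A.adjugate 1 3 2 3
    rw [m1323]
    exact neg_dvd_aux (hn 0 1 0 2)

private theorem l23 {R : Type*} [CommRing R] (A : Matrix (Fin 4) (Fin 4) R) (n : R)
    (hn : ∀ i j k l, n ∣ mn2 A i j k l) (c d : Fin 4) (hcd : c < d) :
    A.det * n ∣ mn2 A.adjugate 2 3 c d := by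
  fin_cases c <;> fin_cases d <;> (try exact absurd hcd (by decide))
  · show A.det * n ∣ mn2 A.adjugate 2 3 0 1
    rw [m2301]
    exact mul_dvd_mul_left _ (hn 2 3 0 1)
  · show A.det * n ∣ mn2 A.adjugate 2 3 0 2
    rw [m2302]
    exact neg_dvd_aux (hn 1 3 0 1)
  · show A.det * n ∣ mn2 A.adjugate 2 3 0 3
    rw [m2303]
    exact mul_dvd_mul_left _ (hn 1 2 0 1)
  · show A.det * n ∣ mn2 A.adjugate 2 3 1 2
    rw [m2312]
    exact mul_dvd_mul_left _ (hn 0 3 0 1)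
  · show A.det * n ∣ mn2 A.adjugate 2 3 1 3
    rw [m2313]
    exact neg_dvd_aux (hn 0 2 0 1)
  · show A.det * n ∣ mn2 A.adjugate 2 3 2 3
    rw [m2323]
    exact mul_dvd_mul_left _ (hn 0 1 0 1)

/-- the 2 x 2 minors of `adj A` -/
theorem mn2_adj_lt {R : Type*} [CommRing R] (A : Matrix (Fin 4) (Fin 4) R) (n : R)
    (hn : ∀ i j k l, n ∣ mn2 A i j k l) (a b c d : Fin 4) (hab : a < b) (hcd : c < d) :
    A.det * n ∣ mn2 A.adjugate a b c d := by
  fin_cases a <;> fin_cases b <;> (try exact absurd hab (by decide))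
  · exact l01 A n hn c d hcd
  · exact l02 A n hn c d hcd
  · exact l03 A n hn c d hcd
  · exact l12 A n hn c d hcd
  · exact l13 A n hn c d hcd
  · exact l23 A n hn c d hcd

theorem mn2_adj {R : Type*} [CommRing R] (A : Matrix (Fin 4) (Fin 4) R) (n : R)
    (hn : ∀ i j k l, n ∣ mn2 A i j k l) (a b c d : Fin 4) :
    A.det * n ∣ mn2 A.adjugate a b c d := by
  rcases lt_trichotomy a b with h | h | h
  · rcases lt_trichotomy c d with h' | h' | h'
    · exact mn2_adj_lt A n hn _ _ _ _ h h'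
    · rw [h', mn2_self']; exact dvd_zero _
    · rw [mn2_swap']; exact (dvd_neg).2 (mn2_adj_lt A n hn _ _ _ _ h h')
  · rw [h, mn2_self]; exact dvd_zero _
  · rw [mn2_swap]
    refine (dvd_neg).2 ?_
    rcases lt_trichotomy c d with h' | h' | h'
    · exact mn2_adj_lt A n hn _ _ _ _ h h'
    · rw [h', mn2_self']; exact dvd_zero _
    · rw [mn2_swap']; exact (dvd_neg).2 (mn2_adj_lt A n hn _ _ _ _ h h')

end Pool.Agent.PP5M
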