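import Pool.Agent.PP5M.D1a
import Pool.Agent.PP5.LUni

/-!
# PP5M/D1b: the 2 x 2 minors of complementary blocks of a unimodular matrix
-/

set_option autoImplicit false

namespace Pool.Agent.PP5M

open Matrix

theorem mn2_mul_dvd {ι κ μ : Type*} [Fintype μ] {A : Matrix ι μ ℤ} {B : Matrix μ κ ℤ} {n : ℤ}
    (h : ∀ i j k l, n ∣ mn2 A i j k l) (i j : ι) (k l : κ) : n ∣ mn2 (A * B) i j k l := by
  have e : mn2 (A * B) i j k l = ∑ a, ∑ b, B a k * B b l * mn2 A i j a b := by
    unfold mn2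
    simp only [Matrix.mul_apply]
    rw [Finset.sum_mul_sum, Finset.sum_mul_sum]
    have e2 : ∑ a, ∑ b, A i a * B a l * (A j b * B b k) =
        ∑ a, ∑ b, A i b * B b l * (A j a * B a k) := Finset.sum_comm
    rw [e2, ← Finset.sum_sub_distrib]
    refine Finset.sum_congr rfl fun a _ => ?_
    rw [← Finset.sum_sub_distrib]
    refine Finset.sum_congr rfl fun b _ => ?_
    ring
  rw [e]
  exact Finset.dvd_sum fun a _ => Finset.dvd_sum fun b _ => Dvd.dvd.mul_left (h i j a b) _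

theorem mn2_transpose {R : Type*} [CommRing R] {ι κ : Type*} (A : Matrix ι κ R) (i j : κ) (k l : ι) :
    mn2 Aᵀ i j k l = mn2 A k l i j := by
  unfold mn2
  simp only [Matrix.transpose_apply]
  ring

theorem mn2_mul_dvd' {ι κ μ : Type*} [Fintype μ] {A : Matrix ι μ ℤ} {B : Matrix μ κ ℤ} {n : ℤ}
    (h : ∀ i j k l, n ∣ mn2 B i j k l) (i j : ι) (k l : κ) : n ∣ mn2 (A * B) i j k l := by
  rw [← mn2_transpose, Matrix.transpose_mul]
  exact mn2_mul_dvd (fun i j k l => by rw [mn2_transpose]; exact h _ _ _ _) _ _ _ _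

/-- 2 x 2 minors of a 4 x 4 matrix divide the entries of the adjugate -/
theorem adj_of_mn2 {G : Matrix (Fin 4) (Fin 4) ℤ} {n : ℤ} (hn : ∀ i j k l, n ∣ mn2 G i j k l)
    (i j : Fin 4) : n ∣ G.adjugate i j := by
  rw [Matrix.adjugate_fin_succ_eq_det_submatrix]
  refine Dvd.dvd.mul_left ?_ _
  rw [Matrix.det_fin_three]
  set a := j.succAbove
  set b := i.succAbove
  have h1 := hn (a 1) (a 2) (b 1) (b 2)
  have h2 := hn (a 1) (a 2) (b 0) (b 2)
  have h3 := hn (a 1) (a 2) (b 0) (b 1)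
  unfold mn2 at h1 h2 h3
  have h : n ∣ G (a 0) (b 0) * (G (a 1) (b 1) * G (a 2) (b 2) - G (a 1) (b 2) * G (a 2) (b 1)) -
      G (a 0) (b 1) * (G (a 1) (b 0) * G (a 2) (b 2) - G (a 1) (b 2) * G (a 2) (b 0)) +
      G (a 0) (b 2) * (G (a 1) (b 0) * G (a 2) (b 1) - G (a 1) (b 1) * G (a 2) (b 0)) :=
    dvd_add (dvd_sub (Dvd.dvd.mul_left h1 _) (Dvd.dvd.mul_left h2 _)) (Dvd.dvd.mul_left h3 _)
  have e : G.submatrix a b 0 0 * G.submatrix a b 1 1 * G.submatrix a b 2 2 -
      G.submatrix a b 0 0 * G.submatrix a b 1 2 * G.submatrix a b 2 1 -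
      G.submatrix a b 0 1 * G.submatrix a b 1 0 * G.submatrix a b 2 2 +
      G.submatrix a b 0 1 * G.submatrix a b 1 2 * G.submatrix a b 2 0 +
      G.submatrix a b 0 2 * G.submatrix a b 1 0 * G.submatrix a b 2 1 -
      G.submatrix a b 0 2 * G.submatrix a b 1 1 * G.submatrix a b 2 0 =
      G (a 0) (b 0) * (G (a 1) (b 1) * G (a 2) (b 2) - G (a 1) (b 2) * G (a 2) (b 1)) -
      G (a 0) (b 1) * (G (a 1) (b 0) * G (a 2) (b 2) - G (a 1) (b 2) * G (a 2) (b 0)) +
      G (a 0) (b 2) * (G (a 1) (b 0) * G (a 2) (b 1) - G (a 1) (b 1) * G (a 2) (b 0)) := by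
    simp only [Matrix.submatrix_apply]
    ring
  rw [e]
  exact h

theorem det_of_mn2 {G : Matrix (Fin 4) (Fin 4) ℤ} {n : ℤ} (hn : ∀ i j k l, n ∣ mn2 G i j k l) :
    n ∣ G.det := by
  have h2 : (G * G.adjugate) 0 0 = G.det := by
    rw [Matrix.mul_adjugate]; simp
  rw [← h2, Matrix.mul_apply]
  exact Finset.dvd_sum (fun k _ => Dvd.dvd.mul_left (adj_of_mn2 hn k 0) _)

/-- the 2 x 2 minors of the complementary block of a unimodular matrix -/
theorem mn2_block (G B B' E X Y Y' W : Matrix (Fin 4) (Fin 4) ℤ)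
    (h : Matrix.fromBlocks G B B' E * Matrix.fromBlocks X Y Y' W = 1)
    (h' : Matrix.fromBlocks X Y Y' W * Matrix.fromBlocks G B B' E = 1)
    (hU : (Matrix.fromBlocks G B B' E).det = 1) (hG : G.det ≠ 0) (n : ℤ)
    (hn : ∀ i j k l, n ∣ mn2 G i j k l) (i j k l : Fin 4) : n ∣ mn2 W i j k l := by
  have hadj := PP5L.adj_block G B B' E X Y Y' W h h' hU hG
  have hdet : W.det = G.det := by
    rw [Matrix.fromBlocks_multiply, ← Matrix.fromBlocks_one, Matrix.fromBlocks_inj] at h h'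
    obtain ⟨h11, h12, h21, h22⟩ := h
    obtain ⟨k11, k12, k21, k22⟩ := h'
    have e1 : Matrix.fromBlocks G B B' E * Matrix.fromBlocks 1 Y 0 W =
        Matrix.fromBlocks G 0 B' 1 := by
      rw [Matrix.fromBlocks_multiply, Matrix.fromBlocks_inj]
      refine ⟨by simp, h12, by simp, h22⟩
    have e2 := congrArg Matrix.det e1
    rw [Matrix.det_mul, hU, Matrix.det_fromBlocks_zero₂₁, Matrix.det_fromBlocks_zero₁₂,
      Matrix.det_one] at e2
    simpa using e2
  have hnG : n ∣ G.det := det_of_mn2 hn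
  have hnA : ∀ i j, n ∣ G.adjugate i j := adj_of_mn2 hn
  -- the minors of M = adj W
  have hP : ∀ i j, n ∣ (B' * G.adjugate * B) i j := by
    intro i j
    rw [Matrix.mul_apply]
    refine Finset.dvd_sum (fun k _ => Dvd.dvd.mul_right ?_ _)
    rw [Matrix.mul_apply]
    exact Finset.dvd_sum (fun l _ => Dvd.dvd.mul_left (hnA l k) _)
  have hPm : ∀ i j k l, G.det * n ∣ mn2 (B' * G.adjugate * B) i j k l := fun i j k l =>
    mn2_mul_dvd (mn2_mul_dvd' (mn2_adj G n hn)) i j k l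
  have hM : ∀ i j k l, G.det * n ∣ mn2 W.adjugate i j k l := by
    intro i j k l
    have e : mn2 W.adjugate i j k l = G.det * (G.det * mn2 E i j k l) -
        G.det * (E i k * (B' * G.adjugate * B) j l + E j l * (B' * G.adjugate * B) i k -
          E i l * (B' * G.adjugate * B) j k - E j k * (B' * G.adjugate * B) i l) +
        mn2 (B' * G.adjugate * B) i j k l := by
      rw [hadj]
      unfold mn2
      simp only [Matrix.sub_apply, Matrix.smul_apply, smul_eq_mul]
      ring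
    rw [e]
    refine dvd_add (dvd_sub ?_ ?_) (hPm i j k l)
    · exact mul_dvd_mul_left _ (Dvd.dvd.mul_right hnG _)
    · refine mul_dvd_mul_left _ ?_
      exact dvd_sub (dvd_sub (dvd_add (Dvd.dvd.mul_left (hP _ _) _) (Dvd.dvd.mul_left (hP _ _) _))
        (Dvd.dvd.mul_left (hP _ _) _)) (Dvd.dvd.mul_left (hP _ _) _)
  -- `adj (adj W) = (det W)^2 W`
  have hAA : W.adjugate.adjugate = W.det ^ 2 • W := by
    have := Matrix.adjugate_adjugate W (by simp)
    simpa using this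
  -- minors of `adj (adj W)`: by `mn2_adj` applied to `adj W` with `n' = det G * n`
  have h1 := mn2_adj W.adjugate (G.det * n) hM i j k l
  rw [hAA] at h1
  have e : mn2 (W.det ^ 2 • W) i j k l = W.det ^ 4 * mn2 W i j k l := by
    unfold mn2
    simp only [Matrix.smul_apply, smul_eq_mul]
    ring
  rw [e, Matrix.det_adjugate, hdet] at h1
  have e2 : G.det ^ (Fintype.card (Fin 4) - 1) * (G.det * n) = G.det ^ 4 * n := by
    simp only [Fintype.card_fin]
    ring
  rw [e2] at h1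
  exact (mul_dvd_mul_iff_left (pow_ne_zero 4 hG)).1 h1

end Pool.Agent.PP5M
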