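import Mathlib

/-!
# PP5M/D1e: divisibility of minors of complementary blocks of a unimodular matrix, without `det ≠ 0`
-/

set_option autoImplicit false

namespace Pool.Agent.PP5M

open Matrix

/-- `n` divides all `k x k` minors of `M` -/
def PM {α β : Type*} (k : ℕ) (n : ℤ) (M : Matrix α β ℤ) : Prop :=
  ∀ (r : Fin k → α) (c : Fin k → β), n ∣ (M.submatrix r c).det

theorem PM.mul_left {α β γ : Type*} [Fintype α] [DecidableEq α] {k : ℕ} {n : ℤ} {M : Matrix α β ℤ}
    (h : PM k n M) (A : Matrix γ α ℤ) : PM k n (A * M) := by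
  intro r c
  have e : ((A * M).submatrix r c).det =
      ∑ t : Fin k → α, (∏ s, A (r s) (t s)) * (M.submatrix t c).det := by
    have e1 : (A * M).submatrix r c = Matrix.of fun s => ∑ a, A (r s) a • fun j => M a (c j) := by
      ext s j
      simp [Matrix.mul_apply, Finset.sum_apply]
    rw [e1]
    have e2 := (Matrix.detRowAlternating (n := Fin k) (R := ℤ)).toMultilinearMap.map_sum
      (fun s (a : α) => A (r s) a • fun j : Fin k => M a (c j))
    have e3 : (Matrix.of fun s => ∑ a, A (r s) a • fun j => M a (c j)).det =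
        (Matrix.detRowAlternating (n := Fin k) (R := ℤ)).toMultilinearMap
          (fun s => ∑ a, A (r s) a • fun j : Fin k => M a (c j)) := rfl
    rw [e3, e2]
    refine Finset.sum_congr rfl fun t _ => ?_
    have e4 := (Matrix.detRowAlternating (n := Fin k) (R := ℤ)).toMultilinearMap.map_smul_univ
      (fun s => A (r s) (t s)) (fun s => fun j : Fin k => M (t s) (c j))
    rw [e4]
    rfl
  rw [e]
  exact Finset.dvd_sum fun t _ => Dvd.dvd.mul_left (h t c) _

theorem PM.transpose {α β : Type*} {k : ℕ} {n : ℤ} {M : Matrix α β ℤ} (h : PM k n M) :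
    PM k n Mᵀ := by
  intro r c
  have : (Mᵀ.submatrix r c) = (M.submatrix c r)ᵀ := rfl
  rw [this, Matrix.det_transpose]
  exact h c r

theorem PM.mul_right {α β γ : Type*} [Fintype β] [DecidableEq β] {k : ℕ} {n : ℤ} {M : Matrix α β ℤ}
    (h : PM k n M) (A : Matrix β γ ℤ) : PM k n (M * A) := by
  have := (h.transpose.mul_left Aᵀ).transpose
  rwa [Matrix.transpose_mul, Matrix.transpose_transpose, Matrix.transpose_transpose] at this

theorem PM.succ {α β : Type*} {k : ℕ} {n : ℤ} {M : Matrix α β ℤ} (h : PM k n M) :
    PM (k + 1) n M := by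
  intro r c
  rw [Matrix.det_succ_row_zero]
  refine Finset.dvd_sum fun j _ => Dvd.dvd.mul_left ?_ _
  rw [Matrix.submatrix_submatrix]
  exact h _ _

theorem PM.mono {α β : Type*} {k m : ℕ} {n : ℤ} {M : Matrix α β ℤ} (h : PM k n M) (hkm : k ≤ m) :
    PM m n M := by
  induction m, hkm using Nat.le_induction with
  | base => exact h
  | succ m _ ih => exact ih.succ

/-- minors of `diag (G, E)` with few rows in the second block -/
theorem PM.diag_aux {ι κ : Type*} {k : ℕ} {n : ℤ} {G : Matrix ι ι ℤ} (h : PM k n G)
    (E : Matrix κ κ ℤ) : ∀ (m : ℕ) (r c : Fin m → ι ⊕ κ),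
    k + (Finset.univ.filter fun s => (r s).isRight).card ≤ m →
    n ∣ ((Matrix.fromBlocks G 0 0 E).submatrix r c).det := by
  intro m
  induction m with
  | zero =>
    intro r c hm
    have hk : k = 0 := by omega
    subst hk
    have := h (fun i => i.elim0) (fun i => i.elim0)
    simpa using this
  | succ m ih =>
    intro r c hm
    by_cases hs : ∃ s, (r s).isRight
    · obtain ⟨s, hs⟩ := hs
      rw [Matrix.det_succ_row _ s]
      refine Finset.dvd_sum fun j _ => Dvd.dvd.mul_left ?_ _
      rw [Matrix.submatrix_submatrix]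
      refine ih _ _ ?_
      have h1 : (Finset.univ.filter fun t : Fin m => ((r ∘ s.succAbove) t).isRight).card + 1 ≤
          (Finset.univ.filter fun t => (r t).isRight).card := by
        have h2 : ((Finset.univ.filter fun t : Fin m => ((r ∘ s.succAbove) t).isRight).map
            s.succAboveEmb) ⊆ (Finset.univ.filter fun t => (r t).isRight).erase s := by
          intro t ht
          rw [Finset.mem_map] at ht
          obtain ⟨u, hu, rfl⟩ := ht
          rw [Finset.mem_erase, Finset.mem_filter]
          refine ⟨Fin.succAbove_ne s u, Finset.mem_univ _, ?_⟩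
          exact (Finset.mem_filter.mp hu).2
        have h3 := Finset.card_le_card h2
        rw [Finset.card_map, Finset.card_erase_of_mem (a := s) (Finset.mem_filter.mpr
          ⟨Finset.mem_univ s, hs⟩)] at h3
        have h4 : 0 < (Finset.univ.filter fun t => (r t).isRight).card :=
          Finset.card_pos.mpr ⟨s, Finset.mem_filter.mpr ⟨Finset.mem_univ _, hs⟩⟩
        omega
      omega
    · push Not at hs
      have hr : ∀ s, ∃ a, r s = Sum.inl a := by
        intro s
        rcases hx : r s with a | a
        · exact ⟨a, rfl⟩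
        · exact absurd (by rw [hx]; rfl) (hs s)
      choose a ha using hr
      by_cases ht : ∃ t, (c t).isRight
      · obtain ⟨t, ht⟩ := ht
        have h0 : ((Matrix.fromBlocks G 0 0 E).submatrix r c).det = 0 := by
          refine Matrix.det_eq_zero_of_column_eq_zero t fun s => ?_
          rw [Matrix.submatrix_apply, ha s]
          rcases hx : c t with b | b
          · rw [hx] at ht; simp at ht
          · simp
        rw [h0]
        exact dvd_zero _
      · push Not at ht
        have hc : ∀ s, ∃ a, c s = Sum.inl a := by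
          intro s
          rcases hx : c s with a | a
          · exact ⟨a, rfl⟩
          · exact absurd (by rw [hx]; rfl) (ht s)
        choose b hb using hc
        have e : (Matrix.fromBlocks G 0 0 E).submatrix r c = G.submatrix a b := by
          ext s t
          rw [Matrix.submatrix_apply, ha s, hb t]
          rfl
        rw [e]
        exact (h.mono (by omega)) a b

theorem PM.diag {ι κ : Type*} [Fintype κ] [DecidableEq κ] {k : ℕ} {n : ℤ} {G : Matrix ι ι ℤ}
    (h : PM k n G) (E : Matrix κ κ ℤ) : PM (k + Fintype.card κ) n (Matrix.fromBlocks G 0 0 E) := by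
  classical
  intro r c
  by_cases hr : Function.Injective r
  · refine h.diag_aux E _ r c ?_
    have h1 : (Finset.univ.filter fun s => (r s).isRight).card ≤ Fintype.card κ := by
      have h2 : (Finset.univ.filter fun s => (r s).isRight).image r ⊆
          (Finset.univ : Finset κ).map ⟨Sum.inr, Sum.inr_injective⟩ := by
        intro z hz
        rw [Finset.mem_image] at hz
        obtain ⟨s, hs, rfl⟩ := hz
        have h3 := (Finset.mem_filter.mp hs).2
        rcases hx : r s with a | a
        · rw [hx] at h3; simp at h3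
        · exact Finset.mem_map.mpr ⟨a, Finset.mem_univ _, rfl⟩
      have h3 := Finset.card_le_card h2
      rw [Finset.card_image_of_injective _ hr, Finset.card_map, Finset.card_univ] at h3
      exact h3
    omega
  · rw [Function.Injective] at hr
    push Not at hr
    obtain ⟨a, b, hab, hne⟩ := hr
    have : ((Matrix.fromBlocks G 0 0 E).submatrix r c).det = 0 := by
      refine Matrix.det_zero_of_row_eq hne ?_
      ext j
      simp [Matrix.submatrix_apply, hab]
    rw [this]
    exact dvd_zero _

/-- the complementary block of a unimodular matrix -/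
theorem PM.block {k : ℕ} {n : ℤ} (G B B' E X Y Y' W : Matrix (Fin 4) (Fin 4) ℤ)
    (h : Matrix.fromBlocks G B B' E * Matrix.fromBlocks X Y Y' W = 1)
    (h' : Matrix.fromBlocks X Y Y' W * Matrix.fromBlocks G B B' E = 1)
    (hG : PM k n G) : PM k n W := by
  have hd : PM (k + 4) n (Matrix.fromBlocks G 0 0 (1 : Matrix (Fin 4) (Fin 4) ℤ)) := by
    have := hG.diag (1 : Matrix (Fin 4) (Fin 4) ℤ)
    rwa [Fintype.card_fin] at this
  have e : Matrix.fromBlocks (1 : Matrix (Fin 4) (Fin 4) ℤ) 0 0 W =
      Matrix.fromBlocks X Y Y' W * Matrix.fromBlocks G 0 0 (1 : Matrix (Fin 4) (Fin 4) ℤ) *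
        (Matrix.fromBlocks 1 0 B' 1 * Matrix.fromBlocks 1 (-Y) 0 1) := by
    rw [Matrix.fromBlocks_multiply, ← Matrix.fromBlocks_one, Matrix.fromBlocks_inj] at h h'
    obtain ⟨h11, h12, h21, h22⟩ := h
    obtain ⟨k11, k12, k21, k22⟩ := h'
    rw [Matrix.fromBlocks_multiply, Matrix.fromBlocks_multiply, Matrix.fromBlocks_multiply,
      Matrix.fromBlocks_inj]
    simp only [Matrix.mul_zero, Matrix.mul_one, Matrix.one_mul, add_zero, zero_add]
    refine ⟨k11.symm, ?_, k21.symm, ?_⟩
    · have e : X * G * -Y + Y * (B' * -Y + 1) = Y - (X * G + Y * B') * Y := by noncomm_ring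
      rw [e, k11, Matrix.one_mul, sub_self]
    · have e : Y' * G * -Y + W * (B' * -Y + 1) = W - (Y' * G + W * B') * Y := by noncomm_ring
      rw [e, k21, Matrix.zero_mul, sub_zero]
  have hW : PM (k + 4) n (Matrix.fromBlocks (1 : Matrix (Fin 4) (Fin 4) ℤ) 0 0 W) := by
    rw [e]
    exact (hd.mul_left _).mul_right _
  intro r c
  have h1 := hW ((Sum.elim (Sum.inr ∘ r) Sum.inl) ∘ finSumFinEquiv.symm)
    ((Sum.elim (Sum.inr ∘ c) Sum.inl) ∘ finSumFinEquiv.symm)
  rw [← Matrix.submatrix_submatrix, Matrix.det_submatrix_equiv_self] at h1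
  have e2 : (Matrix.fromBlocks (1 : Matrix (Fin 4) (Fin 4) ℤ) 0 0 W).submatrix
      (Sum.elim (Sum.inr ∘ r) Sum.inl) (Sum.elim (Sum.inr ∘ c) Sum.inl) =
      Matrix.fromBlocks (W.submatrix r c) 0 0 1 := by
    ext i j
    rcases i with i | i <;> rcases j with j | j <;> simp [Matrix.one_apply]
  rw [e2, Matrix.det_fromBlocks_zero₂₁, Matrix.det_one, mul_one] at h1
  exact h1

end Pool.Agent.PP5M
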