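import Pool.Agent.PP5M.D1e
import Pool.Agent.PP5.LFin

/-!
# PP5M/D1f: `n ∣` all `k x k` minors of `G` => `n ∣` all `k x k` minors of `SS x` (no condition on `det`)
-/

set_option autoImplicit false

namespace Pool.Agent.PP5M

open Matrix Module Pool.Agent.PP5L

theorem exists_completion' {x x' : Fin 10 → ℤ} (hF : FF x = 0) (h1 : bF x x' = 1)
    (b : Basis (Fin 4) ℤ (Lx x)) :
    ∃ e : Basis (Fin 4 ⊕ Fin 4) ℤ (Kx x), ∀ i, ((e (Sum.inl i) : Kx x) : Fin 16 → ℤ) = b i := by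
  set L : Submodule ℤ (Kx x) := (Lx x).comap (Kx x).subtype with hL
  set bW : Basis (Fin 4) ℤ L := b.map (Submodule.comapSubtypeEquivOfLe (Lx_le_Kx x)).symm with hbW
  have htf : Module.IsTorsionFree ℤ (Kx x ⧸ L) := by
    rw [Module.isTorsionFree_iff_smul_eq_zero]
    intro c m hm
    by_cases hc : c = 0
    · exact Or.inl hc
    · right
      obtain ⟨s, rfl⟩ := Submodule.Quotient.mk_surjective L m
      rw [← Submodule.Quotient.mk_smul, Submodule.Quotient.mk_eq_zero] at hm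
      rw [Submodule.Quotient.mk_eq_zero]
      exact saturated_Lx hc hm
  have hfr : finrank ℤ (Kx x ⧸ L) = 4 := by
    have h := L.finrank_quotient_add_finrank
    rw [finrank_Kx hF h1] at h
    have h4 : finrank ℤ L = 4 := by
      rw [finrank_eq_card_basis bW]; simp
    omega
  have bQ : Basis (Fin 4) ℤ (Kx x ⧸ L) := Module.finBasisOfFinrankEq ℤ _ hfr
  refine ⟨bW.sumQuot bQ, fun i => ?_⟩
  rw [Basis.sumQuot_inl, hbW]
  rfl



/-- the block data of a completed basis (no condition on the determinant) -/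
theorem block_data' {x x' : Fin 10 → ℤ} (hF : FF x = 0) (h1 : bF x x' = 1)
    (b : Basis (Fin 4) ℤ (Lx x)) (G : Matrix (Fin 4) (Fin 4) ℤ)
    (hG : ∀ i j, G i j = bx x' (b i) (b j)) :
    ∃ B B' E X Y Y' W Cm : Matrix (Fin 4) (Fin 4) ℤ,
      Matrix.fromBlocks G B B' E * Matrix.fromBlocks X Y Y' W = 1 ∧
      Matrix.fromBlocks X Y Y' W * Matrix.fromBlocks G B B' E = 1 ∧
      SS x = Cm * W * Cmᵀ := by
  obtain ⟨e, he⟩ := exists_completion' hF h1 b
  -- dual basis
  choose φ hφK hφ using fun a : Fin 4 ⊕ Fin 4 => functional_Kx hF h1 (e.coord a)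
  have hφe : ∀ a c, bx x' (φ a) (e c) = if a = c then 1 else 0 := by
    intro a c
    rw [hφ a (e c)]
    simp [Finsupp.single_apply, eq_comm]
  -- expansion in the dual basis
  have hexp : ∀ ψ ∈ Kx x, ψ = ∑ a, bx x' ψ (e a) • φ a := by
    intro ψ hψ
    have hmem : ψ - ∑ a, bx x' ψ (e a) • φ a ∈ Kx x :=
      Submodule.sub_mem _ hψ (Submodule.sum_mem _ fun a _ => Submodule.smul_mem _ _ (hφK a))
    have hz : ψ - ∑ a, bx x' ψ (e a) • φ a = 0 := by
      apply bx_nondeg hF h1 hmem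
      intro t ht
      have hrep := e.sum_repr ⟨t, ht⟩
      have hrep2 : t = ∑ c, (e.repr ⟨t, ht⟩ c) • ((e c : Kx x) : Fin 16 → ℤ) := by
        have := congrArg (Subtype.val) hrep
        simp only [AddSubmonoidClass.coe_finsetSum, SetLike.val_smul] at this
        exact this.symm
      have hbase : ∀ c, bx x' (ψ - ∑ a, bx x' ψ (e a) • φ a) (e c) = 0 := by
        intro c
        have e1 : bx x' (ψ - ∑ a, bx x' ψ (e a) • φ a) (e c) =
            bx x' ψ (e c) - ∑ a, bx x' ψ (e a) * bx x' (φ a) (e c) := by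
          rw [← bx_sum_left]
          have := map_sub ((bxl x').flip ((e c : Kx x) : Fin 16 → ℤ) : (Fin 16 → ℤ) →ₗ[ℤ] ℤ) ψ
            (∑ a, bx x' ψ (e a) • φ a)
          simpa only [LinearMap.flip_apply, bxl_apply] using this
        rw [e1]
        simp only [hφe]
        simp
      rw [bx_symm, hrep2, bx_sum_left]
      refine Finset.sum_eq_zero (fun c _ => ?_)
      rw [bx_symm, hbase, mul_zero]
    exact sub_eq_zero.1 hz
  -- the matrices
  set U : Matrix (Fin 4 ⊕ Fin 4) (Fin 4 ⊕ Fin 4) ℤ := Matrix.of fun a c => bx x' (e a) (e c) with hU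
  set V : Matrix (Fin 4 ⊕ Fin 4) (Fin 4 ⊕ Fin 4) ℤ := Matrix.of fun a c => bx x' (φ a) (φ c) with hV
  have hUV : U * V = 1 := by
    ext a c
    simp only [hU, hV, Matrix.mul_apply, Matrix.of_apply, Matrix.one_apply]
    have h2 := hexp _ (e a).2
    have h3 : bx x' (e a) (φ c) = ∑ k, bx x' (e a) (e k) * bx x' (φ k) (φ c) := by
      conv_lhs => rw [h2]
      rw [bx_sum_left]
    rw [← h3, bx_symm, hφe]
    by_cases h : a = c <;> simp [h, eq_comm]
  have hVU : V * U = 1 := mul_eq_one_comm.1 hUV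
  have hUb : U = Matrix.fromBlocks U.toBlocks₁₁ U.toBlocks₁₂ U.toBlocks₂₁ U.toBlocks₂₂ :=
    (Matrix.fromBlocks_toBlocks U).symm
  have hVb : V = Matrix.fromBlocks V.toBlocks₁₁ V.toBlocks₁₂ V.toBlocks₂₁ V.toBlocks₂₂ :=
    (Matrix.fromBlocks_toBlocks V).symm
  have hU11 : U.toBlocks₁₁ = G := by
    ext i j
    simp only [Matrix.toBlocks₁₁, hU, Matrix.of_apply, he, hG]
  -- S = C W C^T
  set Cm : Matrix (Fin 4) (Fin 4) ℤ := Matrix.of fun i k => bx x' (HP x (rho i)) (e (Sum.inr k))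
    with hCm
  have hrho : ∀ i, HP x (rho i) = ∑ k, Cm i k • φ (Sum.inr k) := by
    intro i
    have h2 := hexp _ (HP_mem_Kx hF (rho i))
    rw [Fintype.sum_sum_type] at h2
    have h3 : ∑ a : Fin 4, bx x' (HP x (rho i)) (e (Sum.inl a)) • φ (Sum.inl a) = 0 := by
      refine Finset.sum_eq_zero (fun a _ => ?_)
      rw [he, bx_HP_rho h1 (b a).2, zero_smul]
    rw [h3, zero_add] at h2
    exact h2
  have hS : SS x = Cm * V.toBlocks₂₂ * Cmᵀ := by
    ext i j
    have e1 : SS x i j = bx x' (HP x (rho i)) (HP x (rho j)) := by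
      rw [bx_HP h1 _ (HP_mem_Kx hF _), ← SS_eq, dot_HP_symm]
    rw [e1, hrho i, bx_sum_left, Matrix.mul_assoc, Matrix.mul_apply]
    refine Finset.sum_congr rfl (fun k _ => ?_)
    congr 1
    rw [hrho j, bx_symm, bx_sum_left, Matrix.mul_apply]
    refine Finset.sum_congr rfl (fun l _ => ?_)
    simp only [Matrix.toBlocks₂₂, hV, Matrix.of_apply, Matrix.transpose_apply]
    rw [bx_symm, mul_comm]
  refine ⟨U.toBlocks₁₂, U.toBlocks₂₁, U.toBlocks₂₂, V.toBlocks₁₁, V.toBlocks₁₂, V.toBlocks₂₁,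
    V.toBlocks₂₂, Cm, ?_, ?_, hS⟩
  · rw [← hU11, ← hUb, ← hVb, hUV]
  · rw [← hU11, ← hUb, ← hVb, hVU]

/-- all `k x k` minors -/
theorem content_PM {x : Fin 10 → ℤ} (hF : FF x = 0)
    (hp : ∀ p : ℕ, p.Prime → ∃ j, ¬ (p : ℤ) ∣ x j)
    (b : Basis (Fin 4) ℤ (Lx x)) (G : Matrix (Fin 4) (Fin 4) ℤ)
    (hG : ∀ i k j, Bd (b i : Fin 16 → ℤ) (b k) j = G i k * x j) (k : ℕ) (n : ℤ)
    (hn : PM k n G) : PM k n (SS x) := by
  obtain ⟨x', h1⟩ := exists_partner hp
  obtain ⟨j0, hj⟩ := exists_coord_ne h1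
  have hGe : ∀ i k, G i k = bx x' (b i) (b k) := by
    intro i k
    have h2 := hG i k j0
    rw [Bd_Kx hF h1 (Lx_le_Kx x (b i).2) (Lx_le_Kx x (b k).2) j0] at h2
    exact (mul_right_cancel₀ hj h2).symm
  obtain ⟨B, B', E, X, Y, Y', W, Cm, h, h', hS⟩ := block_data' hF h1 b G hGe
  have hW := PM.block G B B' E X Y Y' W h h' hn
  rw [hS]
  exact (hW.mul_left Cm).mul_right _

/-- (D1) without `det ≠ 0` -/
theorem content2' {x : Fin 10 → ℤ} (hF : FF x = 0)
    (hp : ∀ p : ℕ, p.Prime → ∃ j, ¬ (p : ℤ) ∣ x j)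
    (b : Basis (Fin 4) ℤ (Lx x)) (G : Matrix (Fin 4) (Fin 4) ℤ)
    (hG : ∀ i k j, Bd (b i : Fin 16 → ℤ) (b k) j = G i k * x j) (n : ℤ)
    (hn : ∀ i i' k k', n ∣ G i k * G i' k' - G i k' * G i' k) (i i' k k' : Fin 4) :
    n ∣ SS x i k * SS x i' k' - SS x i k' * SS x i' k := by
  have h1 : PM 2 n G := by
    intro r c
    rw [Matrix.det_fin_two]
    exact hn _ _ _ _
  have h2 := content_PM hF hp b G hG 2 n h1 ![i, i'] ![k, k']
  rw [Matrix.det_fin_two] at h2
  simpa using h2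

theorem inj3 (r : Fin 3 → Fin 4) (hr : Function.Injective r) :
    ∃ (j : Fin 4) (σ : Equiv.Perm (Fin 3)), r = j.succAbove ∘ σ := by
  have h1 : ∃ j, ∀ s, r s ≠ j := by
    by_contra h
    push Not at h
    have h2 : Function.Surjective r := h
    have h3 := Fintype.card_le_of_surjective r h2
    simp at h3
  obtain ⟨j, hj⟩ := h1
  choose f hf using fun s => Fin.exists_succAbove_eq (hj s)
  have hfi : Function.Injective f := by
    intro a b hab
    apply hr
    rw [← hf a, ← hf b, hab]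
  refine ⟨j, Equiv.ofBijective f (Finite.injective_iff_bijective.1 hfi), ?_⟩
  funext s
  exact (hf s).symm

theorem minor3 {G : Matrix (Fin 4) (Fin 4) ℤ} {n : ℤ} (hn : ∀ i j, n ∣ G.adjugate i j)
    (r c : Fin 3 → Fin 4) (hr : Function.Injective r) (hc : Function.Injective c) :
    n ∣ (G.submatrix r c).det := by
  obtain ⟨i, σ, rfl⟩ := inj3 r hr
  obtain ⟨j, τ, rfl⟩ := inj3 c hc
  have h1 := hn j i
  rw [Matrix.adjugate_fin_succ_eq_det_submatrix] at h1
  have h2 : n ∣ (G.submatrix i.succAbove j.succAbove).det := by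
    have h3 : (-1 : ℤ) ^ ((i : ℕ) + (j : ℕ)) * (-1 : ℤ) ^ ((i : ℕ) + (j : ℕ)) = 1 := by
      rw [← mul_pow]; simp
    have h4 := Dvd.dvd.mul_left h1 ((-1 : ℤ) ^ ((i : ℕ) + (j : ℕ)))
    rwa [← mul_assoc, h3, one_mul] at h4
  have e : G.submatrix (i.succAbove ∘ σ) (j.succAbove ∘ τ) =
      ((G.submatrix i.succAbove j.succAbove).submatrix σ id).submatrix id τ := rfl
  rw [e, Matrix.det_permute', Matrix.det_permute]
  exact Dvd.dvd.mul_left (Dvd.dvd.mul_left h2 _) _

/-- (D1') `adj G = 0` => `adj (SS x) = 0`; more generally for divisibility -/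
theorem content_adj' {x : Fin 10 → ℤ} (hF : FF x = 0)
    (hp : ∀ p : ℕ, p.Prime → ∃ j, ¬ (p : ℤ) ∣ x j)
    (b : Basis (Fin 4) ℤ (Lx x)) (G : Matrix (Fin 4) (Fin 4) ℤ)
    (hG : ∀ i k j, Bd (b i : Fin 16 → ℤ) (b k) j = G i k * x j) (n : ℤ)
    (hn : ∀ i j, n ∣ G.adjugate i j) (i j : Fin 4) : n ∣ (SS x).adjugate i j := by
  have h1 : PM 3 n G := by
    intro r c
    by_cases hr : Function.Injective r
    · by_cases hc : Function.Injective c
      · exact minor3 hn r c hr hc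
      · rw [Function.Injective] at hc
        push Not at hc
        obtain ⟨a, b, hab, hne⟩ := hc
        have : (G.submatrix r c).det = 0 := by
          refine Matrix.det_zero_of_column_eq hne fun s => ?_
          simp [Matrix.submatrix_apply, hab]
        rw [this]
        exact dvd_zero _
    · rw [Function.Injective] at hr
      push Not at hr
      obtain ⟨a, b, hab, hne⟩ := hr
      have : (G.submatrix r c).det = 0 := by
        refine Matrix.det_zero_of_row_eq hne ?_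
        ext j
        simp [Matrix.submatrix_apply, hab]
      rw [this]
      exact dvd_zero _
  rw [Matrix.adjugate_fin_succ_eq_det_submatrix]
  exact Dvd.dvd.mul_left (content_PM hF hp b G hG 3 n h1 _ _) _

end Pool.Agent.PP5M
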