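import Pool.Agent.PP5K.Kc

/-!
# PP5 (D'), the dictionary between `G` (the Gram matrix of `L_x`) and `x`: definitions
-/

set_option autoImplicit false

namespace Pool.Agent.PP5M

open Matrix Pool.Agent.PP5L

/-- a `2 x 2` minor -/
def mr {ι κ R : Type*} [CommRing R] (M : Matrix ι κ R) (i i' : ι) (k k' : κ) : R :=
  M i k * M i' k' - M i k' * M i' k

/-- the hyperbolic form with signs `ε` -/
def hy (ε : Fin 4 → ℝ) : Matrix (Fin 4 ⊕ Fin 4) (Fin 4 ⊕ Fin 4) ℝ :=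
  Matrix.fromBlocks 0 (Matrix.diagonal ε) (Matrix.diagonal ε) 0

/-- the data of `x` in sixteen coordinates without weights (`K` bounds the weights) -/
structure LD (C K T : ℝ) (x : Fin 10 → ℤ) (b : Fin 4 → Fin 16 → ℤ)
    (G : Matrix (Fin 4) (Fin 4) ℤ) (l : Fin 4 → ℝ) (k : ℕ) : Prop where
  C1 : 1 ≤ C
  K1 : 1 ≤ K
  T0 : 0 < T
  ff : FF x = 0
  dn : (SS x).det ≠ 0
  xle : ∀ j, |(x j : ℝ)| ≤ K * T
  xge : ∃ j, T ≤ K * |(x j : ℝ)|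
  lp : ∀ i, 0 < l i
  bH : ∀ i, HH x (b i) = 0
  br : ∀ i r, dot (b i) (rho r) = 0
  bl : ∀ i a, |(b i a : ℝ)| ≤ K * l i
  wc : ∀ (u : Fin 4 → ℝ) (i : Fin 4), ∃ a : Fin 16,
    |u i| * l i ≤ C * K * |∑ i', u i' * (b i' a : ℝ)|
  gram : ∀ i i' j, Bd (b i) (b i') j = G i i' * x j
  k1 : 1 ≤ k
  kd : (SS x).det = (k : ℤ) ^ 2 * G.det

end Pool.Agent.PP5M
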