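import Pool.Agent.PP5M.D3a
import Pool.Agent.PP5M.Defs

/-!
# PP5M/D3b: the index `k(x)` and the duality of volumes, without `det ≠ 0`
-/

set_option autoImplicit false

namespace Pool.Agent.PP5M

open Matrix Module Pool.Agent.PP5L Pool.Agent.PP5K

/-- chart coordinates -/
def ch {ι : Type*} (c : Fin 4 ⊕ Fin 4 → Fin 16) (s : ι → Fin 16 → ℤ) :
    Matrix ι (Fin 4 ⊕ Fin 4) ℝ := Matrix.of fun i κ => ((s i (c κ) : ℤ) : ℝ)

theorem ch_hy {ι κ : Type*} {j : Fin 10} {c : Fin 4 ⊕ Fin 4 → Fin 16} {ε : Fin 4 → ℤ}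
    (hB : ∀ s t : Fin 16 → ℤ, Bd s t j = ∑ i, ε i * (s (c (Sum.inl i)) * t (c (Sum.inr i)) +
      s (c (Sum.inr i)) * t (c (Sum.inl i)))) (s : ι → Fin 16 → ℤ) (t : κ → Fin 16 → ℤ) :
    ch c s * hy (fun i => (ε i : ℝ)) * (ch c t)ᵀ = Matrix.of fun i a => ((Bd (s i) (t a) j : ℤ) : ℝ) := by
  ext i a
  rw [Matrix.of_apply, hB]
  simp [Matrix.mul_apply, hy, Fintype.sum_sum_type, Matrix.diagonal_apply, Fin.sum_univ_four, ch]
  ring

theorem hy_det {ε : Fin 4 → ℤ} (hε : ∀ i, ε i = 1 ∨ ε i = -1) :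
    |(hy (fun i => (ε i : ℝ))).det| = 1 := by
  have h2 : hy (fun i => (ε i : ℝ)) * hy (fun i => (ε i : ℝ)) = 1 := by
    unfold hy
    rw [Matrix.fromBlocks_multiply, ← Matrix.fromBlocks_one]
    simp only [Matrix.zero_mul, Matrix.mul_zero, zero_add, add_zero, Matrix.diagonal_mul_diagonal]
    have h : (fun i => (ε i : ℝ) * (ε i : ℝ)) = 1 := by
      funext i
      rcases hε i with h | h <;> simp [h]
    rw [h]
    simp
  have h3 : (hy (fun i => (ε i : ℝ))).det * (hy (fun i => (ε i : ℝ))).det = 1 := by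
    rw [← Matrix.det_mul, h2, Matrix.det_one]
  have h4 : |(hy (fun i => (ε i : ℝ))).det| * |(hy (fun i => (ε i : ℝ))).det| = 1 := by
    rw [← abs_mul, h3, abs_one]
  nlinarith [abs_nonneg (hy (fun i => (ε i : ℝ))).det]

/-- four independent functionals -/
theorem Cm_det_ne {x x' : Fin 10 → ℤ} (hF : FF x = 0) (h1 : bF x x' = 1)
    (b : Basis (Fin 4) ℤ (Lx x)) (e : Basis (Fin 4 ⊕ Fin 4) ℤ (Kx x))
    (he : ∀ i, ((e (Sum.inl i) : Kx x) : Fin 16 → ℤ) = b i)
    (Cm : Matrix (Fin 4) (Fin 4) ℤ)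
    (hCm : ∀ i k, Cm i k = bx x' (HP x (rho i)) (e (Sum.inr k))) : Cm.det ≠ 0 := by
  intro h0
  obtain ⟨u, hu, huC⟩ := Matrix.exists_mulVec_eq_zero_iff.mpr h0
  set t : Kx x := ∑ k, u k • e (Sum.inr k) with ht
  have ht' : (t : Fin 16 → ℤ) = ∑ k, u k • ((e (Sum.inr k) : Kx x) : Fin 16 → ℤ) := by
    rw [ht]
    simp only [AddSubmonoidClass.coe_finsetSum, SetLike.val_smul]
  have hdot : ∀ i, dot (t : Fin 16 → ℤ) (rho i) = 0 := by
    intro i
    have h2 : bx x' (HP x (rho i)) t = dot (rho i) t := bx_HP h1 _ t.2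
    rw [dot_comm, ← h2, bx_symm, ht', bx_sum_left]
    have h3 := congrFun huC i
    simp only [Matrix.mulVec, dotProduct, Pi.zero_apply] at h3
    rw [← h3]
    refine Finset.sum_congr rfl fun k _ => ?_
    rw [hCm, bx_symm, mul_comm]
  have htL : (t : Fin 16 → ℤ) ∈ Lx x := mem_Lx.2 ⟨mem_Kx.1 t.2, hdot⟩
  have hrep := b.sum_repr ⟨(t : Fin 16 → ℤ), htL⟩
  have hrep2 : (t : Fin 16 → ℤ) = ∑ i, (b.repr ⟨(t : Fin 16 → ℤ), htL⟩ i) • (b i : Fin 16 → ℤ) := by
    have := congrArg (Subtype.val) hrep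
    simp only [AddSubmonoidClass.coe_finsetSum, SetLike.val_smul] at this
    exact this.symm
  have hrep3 : t = ∑ i, (b.repr ⟨(t : Fin 16 → ℤ), htL⟩ i) • e (Sum.inl i) := by
    apply Subtype.ext
    refine hrep2.trans ?_
    simp only [AddSubmonoidClass.coe_finsetSum, SetLike.val_smul, he]
  have hli := e.linearIndependent
  rw [Fintype.linearIndependent_iff] at hli
  have h4 := hli (Sum.elim (fun i => b.repr ⟨(t : Fin 16 → ℤ), htL⟩ i) (fun k => - u k)) (by
    rw [Fintype.sum_sum_type]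
    simp only [Sum.elim_inl, Sum.elim_inr, neg_smul, Finset.sum_neg_distrib]
    rw [← hrep3, ← ht]
    exact add_neg_cancel _)
  apply hu
  funext k
  have := h4 (Sum.inr k)
  simpa using this

theorem dual_data {x : Fin 10 → ℤ} (hF : FF x = 0)
    (hp : ∀ p : ℕ, p.Prime → ∃ j, ¬ (p : ℤ) ∣ x j)
    (b : Basis (Fin 4) ℤ (Lx x)) (G : Matrix (Fin 4) (Fin 4) ℤ)
    (hG : ∀ i k j, Bd (b i : Fin 16 → ℤ) (b k) j = G i k * x j) :
    ∃ k : ℕ, 1 ≤ k ∧ (SS x).det = (k : ℤ) ^ 2 * G.det ∧ RK k x ∧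
    ∀ (j : Fin 10) (c : Fin 4 ⊕ Fin 4 → Fin 16) (ε : Fin 4 → ℤ), (∀ i, ε i = 1 ∨ ε i = -1) →
      (∀ s t : Fin 16 → ℤ, Bd s t j = ∑ i, ε i * (s (c (Sum.inl i)) * t (c (Sum.inr i)) +
        s (c (Sum.inr i)) * t (c (Sum.inl i)))) → x j ≠ 0 →
      ∀ Q : Matrix (Fin 4) (Fin 4 ⊕ Fin 4) ℝ,
        |(Matrix.fromRows Q (ch c fun i => HP x (rho i))).det| =
          k * |(Q * hy (fun i => (ε i : ℝ)) * (ch c fun i => (b i : Fin 16 → ℤ))ᵀ).det| := by
  obtain ⟨x', h1⟩ := exists_partner hp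
  obtain ⟨j0, hj0⟩ := exists_coord_ne h1
  have hGe : ∀ i k, G i k = bx x' (b i) (b k) := by
    intro i k
    have h2 := hG i k j0
    rw [Bd_Kx hF h1 (Lx_le_Kx x (b i).2) (Lx_le_Kx x (b k).2) j0] at h2
    exact (mul_right_cancel₀ hj0 h2).symm
  obtain ⟨e, φ, U, B, B', E, X, Y, Y', W, Cm, he, hUe, hU1, hUb, hUV, hVU, hCm, hφ, hS⟩ :=
    block_full hF h1 b G hGe
  have hC0 := Cm_det_ne hF h1 b e he Cm hCm
  refine ⟨Cm.det.natAbs, Nat.one_le_iff_ne_zero.2 (Int.natAbs_ne_zero.2 hC0), ?_, ?_, ?_⟩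
  · -- det
    have hW : W.det = G.det := by
      rw [← hUb, Matrix.fromBlocks_multiply, ← Matrix.fromBlocks_one, Matrix.fromBlocks_inj] at hUV
      obtain ⟨h11, h12, h21, h22⟩ := hUV
      have e1 : Matrix.fromBlocks G B B' E * Matrix.fromBlocks 1 Y 0 W =
          Matrix.fromBlocks G 0 B' 1 := by
        rw [Matrix.fromBlocks_multiply, Matrix.fromBlocks_inj]
        refine ⟨by simp, h12, by simp, h22⟩
      have e2 := congrArg Matrix.det e1
      rw [Matrix.det_mul, hUb, hU1, Matrix.det_fromBlocks_zero₂₁, Matrix.det_fromBlocks_zero₁₂,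
        Matrix.det_one] at e2
      simpa using e2
    rw [hS, Matrix.det_mul, Matrix.det_mul, Matrix.det_transpose, hW]
    have : ((Cm.det.natAbs : ℕ) : ℤ) ^ 2 = Cm.det ^ 2 := by
      rw [Int.natCast_natAbs, sq_abs]
    rw [this]
    ring
  · -- RK
    have hk : ∀ c : Fin 4 → Fin 16, Cm.det ∣ (Matrix.of fun i a => HP x (rho i) (c a)).det := by
      intro c
      have e1 : (Matrix.of fun i a => HP x (rho i) (c a)) = Cm * Matrix.of fun k a => φ k (c a) := by
        ext i a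
        rw [Matrix.of_apply, hφ i, Matrix.mul_apply]
        simp [Finset.sum_apply]
      rw [e1, Matrix.det_mul]
      exact dvd_mul_right _ _
    have h2 := RK_of_minors hF hp (k := ((Cm.det.natAbs : ℕ) : ℤ)) (fun c => by
      rw [Int.natCast_natAbs, abs_dvd]; exact hk c)
    exact h2
  · intro j c ε hε hB hj Q
    set H := hy (fun i => (ε i : ℝ)) with hH
    set Eh : Matrix (Fin 4 ⊕ Fin 4) (Fin 4 ⊕ Fin 4) ℝ :=
      ch c fun a => ((e a : Kx x) : Fin 16 → ℤ) with hEh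
    have hxj : (x j : ℝ) ≠ 0 := by exact_mod_cast hj
    have hdH : |H.det| = 1 := hy_det hε
    have e1 : Eh * H * Ehᵀ = (x j : ℝ) • U.map (fun z => (z : ℝ)) := by
      rw [hEh, hH, ch_hy hB]
      ext a d
      simp only [Matrix.of_apply, Matrix.smul_apply, Matrix.map_apply, smul_eq_mul]
      rw [Bd_Kx hF h1 (e a).2 (e d).2 j, ← hUe]
      push_cast
      ring
    have hdE : |Eh.det| = |(x j : ℝ)| ^ 4 := by
      have h2 := congrArg (fun M => |Matrix.det M|) e1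
      simp only [Matrix.det_mul, Matrix.det_transpose, Matrix.det_smul, abs_mul, hdH] at h2
      have h3 : (U.map (fun z : ℤ => (z : ℝ))).det = 1 := by
        rw [← Int.cast_det, hU1, Int.cast_one]
      rw [h3] at h2
      simp only [Fintype.card_sum, Fintype.card_fin, abs_one, mul_one, abs_pow] at h2
      have h4 : |Eh.det| ^ 2 = (|(x j : ℝ)| ^ 4) ^ 2 := by
        rw [← pow_mul, sq, h2]
      exact (pow_left_inj₀ (abs_nonneg _) (by positivity) two_ne_zero).1 h4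
    have e2 : Matrix.fromRows Q (ch c fun i => HP x (rho i)) * (H * Ehᵀ) =
        Matrix.fromBlocks (Q * H * (ch c fun i => (b i : Fin 16 → ℤ))ᵀ)
          (Q * H * (ch c fun k => ((e (Sum.inr k) : Kx x) : Fin 16 → ℤ))ᵀ) 0
          ((x j : ℝ) • Cm.map (fun z => (z : ℝ))) := by
      rw [Matrix.fromRows_mul]
      have e3 : ch c (fun i => HP x (rho i)) * (H * Ehᵀ) = Matrix.of fun i a =>
          ((Bd (HP x (rho i)) ((e a : Kx x) : Fin 16 → ℤ) j : ℤ) : ℝ) := by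
        rw [← Matrix.mul_assoc, hH, hEh, ch_hy hB]
      rw [e3]
      ext i a
      rcases i with i | i
      · rcases a with a | a
        · rw [Matrix.fromRows_apply_inl, Matrix.fromBlocks_apply₁₁, ← Matrix.mul_assoc]
          simp only [Matrix.mul_apply, hEh, ch, Matrix.transpose_apply, Matrix.of_apply, he]
        · rw [Matrix.fromRows_apply_inl, Matrix.fromBlocks_apply₁₂, ← Matrix.mul_assoc]
          simp only [Matrix.mul_apply, hEh, ch, Matrix.transpose_apply, Matrix.of_apply]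
      · rcases a with a | a
        · rw [Matrix.fromRows_apply_inr, Matrix.fromBlocks_apply₂₁, Matrix.of_apply,
            Bd_Kx hF h1 (HP_mem_Kx hF _) (e _).2 j, he, bx_HP_rho h1 (b a).2, zero_mul]
          simp
        · rw [Matrix.fromRows_apply_inr, Matrix.fromBlocks_apply₂₂, Matrix.of_apply,
            Bd_Kx hF h1 (HP_mem_Kx hF _) (e _).2 j, ← hCm]
          simp only [Matrix.smul_apply, Matrix.map_apply, smul_eq_mul]
          push_cast
          ring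
    have h2 := congrArg (fun M => |Matrix.det M|) e2
    simp only [Matrix.det_mul, Matrix.det_transpose, abs_mul, hdH, hdE, one_mul,
      Matrix.det_fromBlocks_zero₂₁, Matrix.det_smul, Fintype.card_fin, abs_pow] at h2
    have h3 : |(Cm.map (fun z : ℤ => (z : ℝ))).det| = (Cm.det.natAbs : ℝ) := by
      rw [← Int.cast_det, Nat.cast_natAbs, Int.cast_abs]
    rw [h3] at h2
    have h4 : |(x j : ℝ)| ^ 4 ≠ 0 := pow_ne_zero _ (abs_ne_zero.2 hxj)
    have h5 : |(Matrix.fromRows Q (ch c fun i => HP x (rho i))).det| * |(x j : ℝ)| ^ 4 =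
        ((Cm.det.natAbs : ℝ) * |(Q * H * (ch c fun i => (b i : Fin 16 → ℤ))ᵀ).det|) *
          |(x j : ℝ)| ^ 4 := by
      rw [h2]; ring
    exact mul_right_cancel₀ h4 h5

end Pool.Agent.PP5M
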