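import Pool.Agent.PP5M.Defs

/-!
# PP5 (D'), dictionary: `2 x 2` minors, algebra
-/

set_option autoImplicit false

namespace Pool.Agent.PP5M

open Matrix

private theorem mna_apply {α β γ δ R : Type*} [CommRing R] [Fintype β] [Fintype γ]
    (X : Matrix α β R) (Y : Matrix β γ R) (Z : Matrix γ δ R) (i : α) (k : δ) :
    (X * Y * Z) i k = ∑ p, ∑ r, X i p * Y p r * Z r k := by
  rw [Matrix.mul_apply, Finset.sum_comm]
  apply Finset.sum_congr rfl
  intro r _
  rw [Matrix.mul_apply, Finset.sum_mul]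

/-- size 3.  `2 x 2` minors of a product of three matrices (expand both sides) -/
theorem mr_mul3 {α β γ δ R : Type*} [CommRing R] [Fintype β] [Fintype γ] (X : Matrix α β R)
    (Y : Matrix β γ R) (Z : Matrix γ δ R) (i i' : α) (k k' : δ) :
    mr (X * Y * Z) i i' k k' =
      ∑ p, ∑ q, ∑ r, ∑ s, X i p * X i' q * (Z r k * Z s k') * mr Y p q r s := by
  unfold mr
  rw [mna_apply, mna_apply, mna_apply, mna_apply, Finset.sum_mul_sum, Finset.sum_mul_sum,
    ← Finset.sum_sub_distrib]
  apply Finset.sum_congr rfl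
  intro p _
  rw [← Finset.sum_sub_distrib]
  apply Finset.sum_congr rfl
  intro q _
  rw [Finset.sum_mul_sum, Finset.sum_mul_sum]
  rw [Finset.sum_comm (f := fun s r => X i p * Y p s * Z s k' * (X i' q * Y q r * Z r k))]
  rw [← Finset.sum_sub_distrib]
  apply Finset.sum_congr rfl
  intro r _
  rw [← Finset.sum_sub_distrib]
  apply Finset.sum_congr rfl
  intro s _
  ring

/-- the bound for the minors of a product -/
theorem mr_mul3_le {α β γ δ : Type*} [Fintype β] [Fintype γ] (X : Matrix α β ℝ)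
    (Y : Matrix β γ ℝ) (Z : Matrix γ δ ℝ) {A B M : ℝ} (hA : 0 ≤ A) (hB : 0 ≤ B) (hX : ∀ i p, |X i p| ≤ A)
    (hZ : ∀ r k, |Z r k| ≤ B) (hY : ∀ p q r s, |mr Y p q r s| ≤ M) (i i' : α) (k k' : δ) :
    |mr (X * Y * Z) i i' k k'| ≤ (Fintype.card β) ^ 2 * (Fintype.card γ) ^ 2 * (A ^ 2 * B ^ 2 * M) := by
  rw [mr_mul3]
  have h1 : ∀ p q r s, |X i p * X i' q * (Z r k * Z s k') * mr Y p q r s|
      ≤ A ^ 2 * B ^ 2 * M := by
    intro p q r s
    rw [abs_mul, abs_mul, abs_mul, abs_mul]
    have e1 : |X i p| * |X i' q| ≤ A * A :=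
      mul_le_mul (hX i p) (hX i' q) (abs_nonneg _) hA
    have e2 : |Z r k| * |Z s k'| ≤ B * B :=
      mul_le_mul (hZ r k) (hZ s k') (abs_nonneg _) hB
    have e3 : |X i p| * |X i' q| * (|Z r k| * |Z s k'|) ≤ A * A * (B * B) :=
      mul_le_mul e1 e2 (by positivity) (by positivity)
    calc |X i p| * |X i' q| * (|Z r k| * |Z s k'|) * |mr Y p q r s|
        ≤ A * A * (B * B) * M := mul_le_mul e3 (hY p q r s) (abs_nonneg _) (by positivity)
      _ = A ^ 2 * B ^ 2 * M := by ring
  calc |∑ p, ∑ q, ∑ r, ∑ s, X i p * X i' q * (Z r k * Z s k') * mr Y p q r s|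
      ≤ ∑ p, ∑ q, ∑ r, ∑ s, |X i p * X i' q * (Z r k * Z s k') * mr Y p q r s| := by
        refine (Finset.abs_sum_le_sum_abs _ _).trans (Finset.sum_le_sum fun p _ => ?_)
        refine (Finset.abs_sum_le_sum_abs _ _).trans (Finset.sum_le_sum fun q _ => ?_)
        refine (Finset.abs_sum_le_sum_abs _ _).trans (Finset.sum_le_sum fun r _ => ?_)
        exact Finset.abs_sum_le_sum_abs _ _
    _ ≤ ∑ p : β, ∑ q : β, ∑ r : γ, ∑ s : γ, A ^ 2 * B ^ 2 * M :=
        Finset.sum_le_sum fun p _ => Finset.sum_le_sum fun q _ => Finset.sum_le_sum fun r _ =>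
          Finset.sum_le_sum fun s _ => h1 p q r s
    _ = (Fintype.card β) ^ 2 * (Fintype.card γ) ^ 2 * (A ^ 2 * B ^ 2 * M) := by
        simp only [Finset.sum_const, Finset.card_univ, nsmul_eq_mul]
        ring

/-- the sum of the squares of all `2 x 2` minors of a symmetric matrix -/
theorem mr_sq {ι : Type*} [Fintype ι] [DecidableEq ι] {h : Matrix ι ι ℝ} (hs : hᵀ = h) :
    ∑ i, ∑ i', ∑ k, ∑ k', (mr h i i' k k') ^ 2 =
      2 * (Matrix.trace (h * h)) ^ 2 - 2 * Matrix.trace (h * h * (h * h)) := by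
  have hsym : ∀ i k, h k i = h i k := fun i k => congrFun (congrFun hs i) k
  have t1 : Matrix.trace (h * h) = ∑ i, ∑ k, h i k ^ 2 := by
    unfold Matrix.trace
    apply Finset.sum_congr rfl
    intro i _
    rw [Matrix.diag_apply, Matrix.mul_apply]
    apply Finset.sum_congr rfl
    intro k _
    rw [hsym i k, pow_two]
  have hh : ∀ i i', (h * h) i i' = ∑ k, h i k * h i' k := by
    intro i i'
    rw [Matrix.mul_apply]
    apply Finset.sum_congr rfl
    intro k _
    rw [hsym i' k]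
  have t2 : Matrix.trace (h * h * (h * h)) = ∑ i, ∑ i', (∑ k, h i k * h i' k) ^ 2 := by
    unfold Matrix.trace
    apply Finset.sum_congr rfl
    intro i _
    rw [Matrix.diag_apply, Matrix.mul_apply]
    apply Finset.sum_congr rfl
    intro i' _
    rw [hh, hh, pow_two]
    congr 1
    apply Finset.sum_congr rfl
    intro k _
    ring
  have e1 : ∀ i i' : ι, ∑ k, ∑ k', (mr h i i' k k') ^ 2
      = 2 * ((∑ k, h i k ^ 2) * (∑ k, h i' k ^ 2)) - 2 * (∑ k, h i k * h i' k) ^ 2 := by
    intro i i'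
    have a1 : (∑ k, h i k ^ 2) * (∑ k, h i' k ^ 2) = ∑ k, ∑ k', h i k ^ 2 * h i' k' ^ 2 :=
      Finset.sum_mul_sum _ _ _ _
    have a2 : (∑ k, h i k ^ 2) * (∑ k, h i' k ^ 2) = ∑ k, ∑ k', h i k' ^ 2 * h i' k ^ 2 := by
      rw [a1, Finset.sum_comm]
    have a3 : (∑ k, h i k * h i' k) ^ 2 = ∑ k, ∑ k', (h i k * h i' k) * (h i k' * h i' k') := by
      rw [pow_two, Finset.sum_mul_sum]
    have a4 : 2 * ((∑ k, h i k ^ 2) * (∑ k, h i' k ^ 2)) - 2 * (∑ k, h i k * h i' k) ^ 2
        = (∑ k, ∑ k', h i k ^ 2 * h i' k' ^ 2) + (∑ k, ∑ k', h i k' ^ 2 * h i' k ^ 2)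
          - 2 * ∑ k, ∑ k', (h i k * h i' k) * (h i k' * h i' k') := by
      rw [← a1, ← a2, ← a3]; ring
    rw [a4, Finset.mul_sum, ← Finset.sum_add_distrib, ← Finset.sum_sub_distrib]
    apply Finset.sum_congr rfl
    intro k _
    rw [Finset.mul_sum, ← Finset.sum_add_distrib, ← Finset.sum_sub_distrib]
    apply Finset.sum_congr rfl
    intro k' _
    unfold mr
    ring
  rw [t1, t2, pow_two, Finset.sum_mul_sum, Finset.mul_sum, Finset.mul_sum,
    ← Finset.sum_sub_distrib]
  apply Finset.sum_congr rfl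
  intro i _
  rw [Finset.mul_sum, Finset.mul_sum, ← Finset.sum_sub_distrib]
  apply Finset.sum_congr rfl
  intro i' _
  exact e1 i i'

/-- size 3.  An involution `H` and an orthogonal projection `P` onto a subspace of half the dimension: the forms
`P H P` and `(1 - P) H (1 - P)` have the same sum of squares of `2 x 2` minors.
With `A = P * H`: `trace (((1-P) H) ^ 2) = trace 1 - 2 trace P + trace (A ^ 2)` and
`trace (((1-P) H) ^ 4) = trace (A ^ 4)`: expand, use `H * H = 1`, `P * P = P` and cyclicity; words: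
`HHHH: 8`, one `A`: `-4 * trace (H P H) = -4 * 4`, two `A`: `4 * trace (A A) + 2 * trace (H P H) = 4 a2 + 2 * 4`, three `A`: `-4 a2`,
four: `a4`; total `8 - 16 + 8 + 4 a2 - 4 a2 + a4`. -/
theorem mr_dual {ι : Type*} [Fintype ι] [DecidableEq ι] {H P : Matrix ι ι ℝ} (hH : Hᵀ = H)
    (hH2 : H * H = 1) (hP : Pᵀ = P) (hP2 : P * P = P) (ht : 2 * Matrix.trace P = Fintype.card ι) :
    ∑ i, ∑ i', ∑ k, ∑ k', (mr ((1 - P) * H * (1 - P)) i i' k k') ^ 2 =
      ∑ i, ∑ i', ∑ k, ∑ k', (mr (P * H * P) i i' k k') ^ 2 := by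
  obtain ⟨B, hB⟩ : ∃ B, B = H * P * H := ⟨_, rfl⟩
  obtain ⟨Q, hQ⟩ : ∃ Q, Q = 1 - P := ⟨_, rfl⟩
  obtain ⟨C, hC⟩ : ∃ C, C = 1 - B := ⟨_, rfl⟩
  have hBB : B * B = B := by
    rw [hB]
    calc H * P * H * (H * P * H) = H * P * (H * H) * P * H := by simp only [mul_assoc]
      _ = H * (P * P) * H := by rw [hH2, mul_one]; simp only [mul_assoc]
      _ = H * P * H := by rw [hP2]
  have tB : Matrix.trace B = Matrix.trace P := by
    rw [hB, Matrix.trace_mul_comm, ← mul_assoc, hH2, one_mul]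
  have hQQ : Q * Q = Q := by
    rw [hQ, mul_sub, mul_one, sub_mul, one_mul, hP2, sub_self, sub_zero]
  have hHQH : H * Q * H = C := by
    rw [hQ, mul_sub, mul_one, sub_mul, hH2, hC, hB]
  have s1 : (P * H * P)ᵀ = P * H * P := by
    rw [Matrix.transpose_mul, Matrix.transpose_mul, hP, hH, mul_assoc]
  have s2 : (Q * H * Q)ᵀ = Q * H * Q := by
    have hQt : Qᵀ = Q := by rw [hQ, Matrix.transpose_sub, Matrix.transpose_one, hP]
    rw [Matrix.transpose_mul, Matrix.transpose_mul, hQt, hH, mul_assoc]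
  have m1 : (P * H * P) * (P * H * P) = P * B * P := by
    calc (P * H * P) * (P * H * P) = P * H * (P * P) * H * P := by simp only [mul_assoc]
      _ = P * (H * P * H) * P := by rw [hP2]; simp only [mul_assoc]
      _ = P * B * P := by rw [hB]
  have m2 : (Q * H * Q) * (Q * H * Q) = Q * C * Q := by
    calc (Q * H * Q) * (Q * H * Q) = Q * H * (Q * Q) * H * Q := by simp only [mul_assoc]
      _ = Q * (H * Q * H) * Q := by rw [hQQ]; simp only [mul_assoc]
      _ = Q * C * Q := by rw [hHQH]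
  have c1 : Matrix.trace (P * B * P) = Matrix.trace (P * B) := by
    rw [Matrix.trace_mul_comm, ← mul_assoc, hP2]
  have c2 : Matrix.trace (Q * C * Q) = Matrix.trace (Q * C) := by
    rw [Matrix.trace_mul_comm, ← mul_assoc, hQQ]
  have c3 : Matrix.trace (P * B * P * (P * B * P)) = Matrix.trace (P * B * (P * B)) := by
    have e : P * B * P * (P * B * P) = P * B * (P * B) * P := by
      calc P * B * P * (P * B * P) = P * B * (P * P) * B * P := by simp only [mul_assoc]
        _ = P * B * (P * B) * P := by rw [hP2]; simp only [mul_assoc]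
    have e2 : P * (P * B * (P * B)) = P * B * (P * B) := by
      calc P * (P * B * (P * B)) = (P * P) * B * (P * B) := by simp only [mul_assoc]
        _ = P * B * (P * B) := by rw [hP2]
    rw [e, Matrix.trace_mul_comm, e2]
  have c4 : Matrix.trace (Q * C * Q * (Q * C * Q)) = Matrix.trace (Q * C * (Q * C)) := by
    have e : Q * C * Q * (Q * C * Q) = Q * C * (Q * C) * Q := by
      calc Q * C * Q * (Q * C * Q) = Q * C * (Q * Q) * C * Q := by simp only [mul_assoc]
        _ = Q * C * (Q * C) * Q := by rw [hQQ]; simp only [mul_assoc]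
    have e2 : Q * (Q * C * (Q * C)) = Q * C * (Q * C) := by
      calc Q * (Q * C * (Q * C)) = (Q * Q) * C * (Q * C) := by simp only [mul_assoc]
        _ = Q * C * (Q * C) := by rw [hQQ]
    rw [e, Matrix.trace_mul_comm, e2]
  have qc : Q * C = 1 - P - B + P * B := by
    rw [hQ, hC, sub_mul, one_mul, mul_sub, mul_one]
    abel
  have t1 : Matrix.trace (Q * C) = Matrix.trace (P * B) := by
    rw [qc, Matrix.trace_add, Matrix.trace_sub, Matrix.trace_sub, tB, Matrix.trace_one]
    linarith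
  have z1 : P * (Q * C) = 0 := by
    rw [hQ, ← mul_assoc, mul_sub, mul_one, hP2, sub_self, zero_mul]
  have z2 : B * (Q * C) = B * P * B - B * P := by
    rw [qc, mul_add, mul_sub, mul_sub, mul_one, hBB, mul_assoc]
    abel
  have z3 : Q * C * (Q * C) = Q * C - (B * P * B - B * P) + P * (B * P * B - B * P) := by
    calc Q * C * (Q * C) = (1 - P - B + P * B) * (Q * C) := by rw [← qc]
      _ = Q * C - P * (Q * C) - B * (Q * C) + P * (B * (Q * C)) := by
          rw [add_mul, sub_mul, sub_mul, one_mul, mul_assoc P B]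
      _ = Q * C - (B * P * B - B * P) + P * (B * P * B - B * P) := by
          rw [z1, z2, sub_zero]
  have w1 : Matrix.trace (B * P * B) = Matrix.trace (P * B) := by
    rw [Matrix.trace_mul_comm, ← mul_assoc, hBB, Matrix.trace_mul_comm]
  have w2 : Matrix.trace (B * P) = Matrix.trace (P * B) := Matrix.trace_mul_comm _ _
  have w3 : Matrix.trace (P * (B * P)) = Matrix.trace (P * B) := by
    rw [Matrix.trace_mul_comm, mul_assoc, hP2, Matrix.trace_mul_comm]
  have t2 : Matrix.trace (Q * C * (Q * C)) = Matrix.trace (P * B * (P * B)) := by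
    rw [z3, Matrix.trace_add, Matrix.trace_sub, Matrix.trace_sub, mul_sub, Matrix.trace_sub, w1,
      w2, w3, t1]
    have e : P * (B * P * B) = P * B * (P * B) := by simp only [mul_assoc]
    rw [e]
    ring
  rw [← hQ, mr_sq s1, mr_sq s2, m1, m2, c1, c2, c3, c4, t1, t2]

end Pool.Agent.PP5M
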