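import Pool.Agent.PP5M.Defs
import Pool.Agent.PP5M.MnA

/-!
# PP5 (D'), dictionary: `2 x 2` minors, duality with bounds
-/

set_option autoImplicit false

namespace Pool.Agent.PP5M

open Matrix

/-- size 2.  `hy ε` is a symmetric involution with entries at most one. -/
theorem hy_props {ε : Fin 4 → ℝ} (hε : ∀ i, ε i = 1 ∨ ε i = -1) :
    (hy ε)ᵀ = hy ε ∧ hy ε * hy ε = 1 ∧ ∀ i j, |hy ε i j| ≤ 1 := by
  have hd : ∀ i j, |Matrix.diagonal ε i j| ≤ 1 := by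
    intro i j
    by_cases hij : i = j
    · subst hij
      rw [Matrix.diagonal_apply_eq]
      rcases hε i with h | h <;> rw [h] <;> norm_num
    · rw [Matrix.diagonal_apply_ne _ hij]
      norm_num
  refine ⟨?_, ?_, ?_⟩
  · unfold hy
    rw [Matrix.fromBlocks_transpose, Matrix.transpose_zero, Matrix.diagonal_transpose]
  · unfold hy
    rw [Matrix.fromBlocks_multiply]
    simp only [Matrix.zero_mul, Matrix.mul_zero, zero_add, add_zero,
      Matrix.diagonal_mul_diagonal]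
    have h1 : (fun i => ε i * ε i) = fun _ => (1 : ℝ) := by
      funext i
      rcases hε i with h | h <;> rw [h] <;> norm_num
    rw [h1, Matrix.diagonal_one, Matrix.fromBlocks_one]
  · intro i j
    unfold hy
    rcases i with i | i <;> rcases j with j | j
    · rw [Matrix.fromBlocks_apply₁₁]; simp
    · rw [Matrix.fromBlocks_apply₁₂]; exact hd i j
    · rw [Matrix.fromBlocks_apply₂₁]; exact hd i j
    · rw [Matrix.fromBlocks_apply₂₂]; simp

/-- size 2.  The Gram matrix of a well conditioned family.  `u . (A u) = ∑_κ (∑ u i b i κ) ^ 2 ≥ (|u i| / Q) ^ 2` for every `i`; so `A u = 0`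
implies `u = 0`, and for `u = A⁻¹ e_j`: `(|u i| / Q) ^ 2 ≤ u j ≤ max |u|`, so `max |u| ≤ Q ^ 2`. -/
theorem gr_inv {κ : Type*} [Fintype κ] {b : Matrix (Fin 4) κ ℝ} {Q : ℝ} (hQ : 1 ≤ Q)
    (hwc : ∀ (u : Fin 4 → ℝ) (i : Fin 4), ∃ a, |u i| ≤ Q * |∑ i', u i' * b i' a|) :
    ∃ A' : Matrix (Fin 4) (Fin 4) ℝ, (b * bᵀ) * A' = 1 ∧ A' * (b * bᵀ) = 1 ∧ A'ᵀ = A' ∧
      ∀ i j, |A' i j| ≤ Q ^ 2 := by
  classical
  obtain ⟨A, hA⟩ : ∃ A, A = b * bᵀ := ⟨_, rfl⟩
  have hAt : Aᵀ = A := by rw [hA, Matrix.transpose_mul, Matrix.transpose_transpose]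
  have hquad : ∀ u : Fin 4 → ℝ, u ⬝ᵥ (A *ᵥ u) = ∑ a, (∑ i, u i * b i a) ^ 2 := by
    intro u
    have h1 : u ⬝ᵥ (A *ᵥ u) = (u ᵥ* b) ⬝ᵥ (bᵀ *ᵥ u) := by
      rw [hA, ← Matrix.mulVec_mulVec, Matrix.dotProduct_mulVec]
    have h2 : bᵀ *ᵥ u = u ᵥ* b := Matrix.mulVec_transpose b u
    rw [h1, h2]
    unfold dotProduct Matrix.vecMul dotProduct
    apply Finset.sum_congr rfl
    intro a _
    rw [pow_two]
  have hlow : ∀ (u : Fin 4 → ℝ) (i : Fin 4), u i ^ 2 ≤ Q ^ 2 * (u ⬝ᵥ (A *ᵥ u)) := by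
    intro u i
    obtain ⟨a, ha⟩ := hwc u i
    have h1 : (∑ i', u i' * b i' a) ^ 2 ≤ u ⬝ᵥ (A *ᵥ u) := by
      rw [hquad]
      exact Finset.single_le_sum (f := fun a => (∑ i, u i * b i a) ^ 2)
        (fun a _ => sq_nonneg _) (Finset.mem_univ a)
    have h2 : u i ^ 2 ≤ (Q * |∑ i', u i' * b i' a|) ^ 2 := by
      rw [← sq_abs (u i)]
      exact pow_le_pow_left₀ (abs_nonneg _) ha 2
    rw [mul_pow, sq_abs] at h2
    exact h2.trans (mul_le_mul_of_nonneg_left h1 (sq_nonneg _))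
  have hdet : A.det ≠ 0 := by
    intro h0
    obtain ⟨u, hu, hu0⟩ := Matrix.exists_mulVec_eq_zero_iff.2 h0
    apply hu
    funext i
    have h1 := hlow u i
    rw [hu0, dotProduct_zero, mul_zero] at h1
    exact pow_eq_zero_iff (two_ne_zero) |>.1 (le_antisymm h1 (sq_nonneg _))
  have hunit : IsUnit A.det := isUnit_iff_ne_zero.2 hdet
  refine ⟨A⁻¹, ?_, ?_, ?_, ?_⟩
  · rw [← hA]; exact Matrix.mul_nonsing_inv A hunit
  · rw [← hA]; exact Matrix.nonsing_inv_mul A hunit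
  · rw [Matrix.transpose_nonsing_inv, hAt]
  · intro i j
    obtain ⟨u, hu⟩ : ∃ u : Fin 4 → ℝ, u = fun i => A⁻¹ i j := ⟨_, rfl⟩
    have hAu : A *ᵥ u = Pi.single j 1 := by
      have h1 : u = A⁻¹ *ᵥ Pi.single j 1 := by
        rw [hu, Matrix.mulVec_single_one]
        rfl
      rw [h1, Matrix.mulVec_mulVec, Matrix.mul_nonsing_inv A hunit, Matrix.one_mulVec]
    have hq : u ⬝ᵥ (A *ᵥ u) = u j := by
      rw [hAu, dotProduct_single, mul_one]
    have k1 : ∀ i, u i ^ 2 ≤ Q ^ 2 * u j := by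
      intro i
      have := hlow u i
      rwa [hq] at this
    have hQ2 : 0 < Q ^ 2 := by positivity
    have k2 : u j ≤ Q ^ 2 := by
      by_contra hc
      push Not at hc
      have := k1 j
      nlinarith
    have k3 : u i ^ 2 ≤ (Q ^ 2) ^ 2 := by
      have := k1 i
      nlinarith
    have k4 : |u i| ≤ Q ^ 2 := abs_le_of_sq_le_sq k3 hQ2.le
    rw [hu] at k4
    exact k4

/-- size 3.  DUALITY OF THE `2 x 2` MINORS.  Let `H = hy ε`, `A'` the inverse of `b * bᵀ` (`gr_inv`), `P = bᵀ * A' * b`: an orthogonal projection with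
`trace P = trace (A' * (b * bᵀ)) = 4` (`2 * 4 = card (Fin 4 ⊕ Fin 4)`).  `P * H * P = bᵀ * (A' * (b * H * bᵀ) * A') * b`, so its minors are at most
`4 ^ 4 Q ^ 4 * 4 ^ 4 (Q ^ 2) ^ 4 * p` (`mr_mul3_le` twice).  With `n = r * H`: `n * P = (r * H * bᵀ) * A' * b = 0`, `n * (1 - P) = n`, and
`r * H * rᵀ = n * H * nᵀ = n * ((1 - P) * H * (1 - P)) * nᵀ`; the entries of `n` are at most `8 Q`.  `mr_dual`: each minor of
`(1 - P) H (1 - P)` is at most `√ (8 ^ 4) = 8 ^ 2` times the maximum for `P H P`.  `mr_mul3_le` again: factor `8 ^ 4 (8 Q) ^ 4`. -/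
theorem mn_dual {ε : Fin 4 → ℝ} (hε : ∀ i, ε i = 1 ∨ ε i = -1)
    {b r : Matrix (Fin 4) (Fin 4 ⊕ Fin 4) ℝ} {Q p : ℝ} (hQ : 1 ≤ Q) (hb : ∀ i κ, |b i κ| ≤ Q)
    (hr : ∀ i κ, |r i κ| ≤ Q)
    (hwc : ∀ (u : Fin 4 → ℝ) (i : Fin 4), ∃ a, |u i| ≤ Q * |∑ i', u i' * b i' a|)
    (h0 : b * hy ε * rᵀ = 0) (hp : ∀ i i' k k', |mr (b * hy ε * bᵀ) i i' k k'| ≤ p)
    (i i' k k' : Fin 4) :
    |mr (r * hy ε * rᵀ) i i' k k'| ≤ 10 ^ 20 * Q ^ 16 * p := by
  classical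
  obtain ⟨hH, hH2, hH1⟩ := hy_props hε
  obtain ⟨A', hA1, hA2, hA3, hA4⟩ := gr_inv hQ hwc
  obtain ⟨H, hHd⟩ : ∃ H, H = hy ε := ⟨_, rfl⟩
  rw [← hHd] at hH hH2 hH1 h0 hp ⊢
  have hQ0 : 0 ≤ Q := by linarith
  have hp0 : 0 ≤ p := (abs_nonneg _).trans (hp 0 0 0 0)
  obtain ⟨P, hPd⟩ : ∃ P, P = bᵀ * A' * b := ⟨_, rfl⟩
  have hPt : Pᵀ = P := by
    rw [hPd, Matrix.transpose_mul, Matrix.transpose_mul, hA3, Matrix.transpose_transpose,
      Matrix.mul_assoc]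
  have hPP : P * P = P := by
    rw [hPd]
    calc bᵀ * A' * b * (bᵀ * A' * b) = bᵀ * (A' * (b * bᵀ)) * A' * b := by
          simp only [Matrix.mul_assoc]
      _ = bᵀ * A' * b := by rw [hA2, Matrix.mul_one]
  have htr : 2 * Matrix.trace P = Fintype.card (Fin 4 ⊕ Fin 4) := by
    have h1 : Matrix.trace P = Matrix.trace (1 : Matrix (Fin 4) (Fin 4) ℝ) := by
      rw [hPd, Matrix.mul_assoc, Matrix.trace_mul_comm, Matrix.mul_assoc, hA2]
    rw [h1, Matrix.trace_one]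
    simp
    norm_num
  -- the minors of `P H P`
  have hphp : P * H * P = bᵀ * (A' * (b * H * bᵀ) * A') * b := by
    rw [hPd]
    simp only [Matrix.mul_assoc]
  have b1 : ∀ p1 q1 r1 s1, |mr (A' * (b * H * bᵀ) * A') p1 q1 r1 s1| ≤ 256 * Q ^ 8 * p := by
    intro p1 q1 r1 s1
    have h1 := mr_mul3_le A' (b * H * bᵀ) A' (sq_nonneg Q) (sq_nonneg Q) hA4 hA4 hp p1 q1 r1 s1
    refine h1.trans (le_of_eq ?_)
    simp only [Fintype.card_fin]
    push_cast
    ring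
  have b2 : ∀ p1 q1 r1 s1, |mr (P * H * P) p1 q1 r1 s1| ≤ 65536 * Q ^ 12 * p := by
    intro p1 q1 r1 s1
    rw [hphp]
    have h1 := mr_mul3_le bᵀ (A' * (b * H * bᵀ) * A') b hQ0 hQ0 (fun κ i => hb i κ) hb b1
      p1 q1 r1 s1
    refine h1.trans (le_of_eq ?_)
    simp only [Fintype.card_fin]
    push_cast
    ring
  have hsum : ∑ i, ∑ i', ∑ k, ∑ k', (mr (P * H * P) i i' k k') ^ 2
      ≤ (64 * (65536 * Q ^ 12 * p)) ^ 2 := by
    have h1 : ∀ p1 q1 r1 s1, (mr (P * H * P) p1 q1 r1 s1) ^ 2 ≤ (65536 * Q ^ 12 * p) ^ 2 := by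
      intro p1 q1 r1 s1
      rw [← sq_abs]
      exact pow_le_pow_left₀ (abs_nonneg _) (b2 p1 q1 r1 s1) 2
    calc ∑ i, ∑ i', ∑ k, ∑ k', (mr (P * H * P) i i' k k') ^ 2
        ≤ ∑ _i : Fin 4 ⊕ Fin 4, ∑ _i' : Fin 4 ⊕ Fin 4, ∑ _k : Fin 4 ⊕ Fin 4,
          ∑ _k' : Fin 4 ⊕ Fin 4, (65536 * Q ^ 12 * p) ^ 2 :=
          Finset.sum_le_sum fun _ _ => Finset.sum_le_sum fun _ _ => Finset.sum_le_sum fun _ _ =>
            Finset.sum_le_sum fun _ _ => h1 _ _ _ _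
      _ = (64 * (65536 * Q ^ 12 * p)) ^ 2 := by
          simp only [Finset.sum_const, Finset.card_univ, nsmul_eq_mul, Fintype.card_sum,
            Fintype.card_fin]
          push_cast
          ring
  have b3 : ∀ p1 q1 r1 s1, |mr ((1 - P) * H * (1 - P)) p1 q1 r1 s1|
      ≤ 64 * (65536 * Q ^ 12 * p) := by
    intro p1 q1 r1 s1
    rw [← mr_dual hH hH2 hPt hPP htr] at hsum
    apply abs_le_of_sq_le_sq _ (by positivity)
    refine le_trans ?_ hsum
    have f1 := Finset.single_le_sum (f := fun i => ∑ i', ∑ k, ∑ k',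
      (mr ((1 - P) * H * (1 - P)) i i' k k') ^ 2)
      (fun i _ => Finset.sum_nonneg fun _ _ => Finset.sum_nonneg fun _ _ =>
        Finset.sum_nonneg fun _ _ => sq_nonneg _) (Finset.mem_univ p1)
    have f2 := Finset.single_le_sum (f := fun i' => ∑ k, ∑ k',
      (mr ((1 - P) * H * (1 - P)) p1 i' k k') ^ 2)
      (fun i _ => Finset.sum_nonneg fun _ _ => Finset.sum_nonneg fun _ _ => sq_nonneg _)
      (Finset.mem_univ q1)
    have f3 := Finset.single_le_sum (f := fun k => ∑ k',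
      (mr ((1 - P) * H * (1 - P)) p1 q1 k k') ^ 2)
      (fun i _ => Finset.sum_nonneg fun _ _ => sq_nonneg _) (Finset.mem_univ r1)
    have f4 := Finset.single_le_sum (f := fun k' =>
      (mr ((1 - P) * H * (1 - P)) p1 q1 r1 k') ^ 2)
      (fun i _ => sq_nonneg _) (Finset.mem_univ s1)
    exact f4.trans (f3.trans (f2.trans f1))
  -- the forms of `r`
  obtain ⟨m, hm⟩ : ∃ m, m = r * H := ⟨_, rfl⟩
  have hmP : m * P = 0 := by
    have h1 : r * H * bᵀ = 0 := by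
      have := congrArg Matrix.transpose h0
      rw [Matrix.transpose_mul, Matrix.transpose_mul, Matrix.transpose_transpose, hH,
        Matrix.transpose_zero, ← Matrix.mul_assoc] at this
      exact this
    rw [hm, hPd, ← Matrix.mul_assoc, ← Matrix.mul_assoc, h1, Matrix.zero_mul, Matrix.zero_mul]
  have hmQ : m * (1 - P) = m := by rw [Matrix.mul_sub, Matrix.mul_one, hmP, sub_zero]
  have hQm : (1 - P) * mᵀ = mᵀ := by
    have := congrArg Matrix.transpose hmQ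
    rwa [Matrix.transpose_mul, Matrix.transpose_sub, Matrix.transpose_one, hPt] at this
  have hrm : r * H * rᵀ = m * ((1 - P) * H * (1 - P)) * mᵀ := by
    calc r * H * rᵀ = r * (H * H) * H * rᵀ := by rw [hH2, Matrix.mul_one]
      _ = m * H * mᵀ := by
          rw [hm, Matrix.transpose_mul, hH]
          simp only [Matrix.mul_assoc]
      _ = (m * (1 - P)) * H * ((1 - P) * mᵀ) := by rw [hmQ, hQm]
      _ = m * ((1 - P) * H * (1 - P)) * mᵀ := by simp only [Matrix.mul_assoc]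
  have hme : ∀ i κ, |m i κ| ≤ 8 * Q := by
    intro i κ
    rw [hm, Matrix.mul_apply]
    calc |∑ j, r i j * H j κ| ≤ ∑ j, |r i j * H j κ| := Finset.abs_sum_le_sum_abs _ _
      _ ≤ ∑ _j : Fin 4 ⊕ Fin 4, Q := by
          apply Finset.sum_le_sum
          intro j _
          rw [abs_mul]
          calc |r i j| * |H j κ| ≤ Q * 1 := mul_le_mul (hr i j) (hH1 j κ) (abs_nonneg _) hQ0
            _ = Q := mul_one _
      _ = 8 * Q := by
          simp only [Finset.sum_const, Finset.card_univ, nsmul_eq_mul, Fintype.card_sum,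
            Fintype.card_fin]
          push_cast
          ring
  rw [hrm]
  have h8 : 0 ≤ 8 * Q := by positivity
  have h1 := mr_mul3_le m ((1 - P) * H * (1 - P)) mᵀ h8 h8 hme (fun κ i => hme i κ) b3 i i' k k'
  refine h1.trans ?_
  simp only [Fintype.card_sum, Fintype.card_fin]
  push_cast
  have h9 : 0 ≤ Q ^ 16 * p := by positivity
  have h10 : (8 : ℝ) ^ 2 * 8 ^ 2 * ((8 * Q) ^ 2 * (8 * Q) ^ 2 * (64 * (65536 * Q ^ 12 * p)))
      = 70368744177664 * (Q ^ 16 * p) := by ring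
  rw [h10]
  have h11 : (10 : ℝ) ^ 20 * Q ^ 16 * p = 10 ^ 20 * (Q ^ 16 * p) := by ring
  rw [h11]
  apply mul_le_mul_of_nonneg_right _ h9
  norm_num

end Pool.Agent.PP5M
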