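import Pool.Agent.PP5M.Defs
import Pool.Agent.PP5M.MnB

/-!
# PP5 (D'), dictionary: determinants
-/

set_option autoImplicit false

namespace Pool.Agent.PP5M

open Matrix

variable {ε : Fin 4 → ℝ} {b r : Matrix (Fin 4) (Fin 4 ⊕ Fin 4) ℝ} {g s : Matrix (Fin 4) (Fin 4) ℝ} {k : ℝ}

private theorem DtD_H (hε : ∀ i, ε i = 1 ∨ ε i = -1) : |(hy ε).det| = 1 := by
  obtain ⟨-, h2, -⟩ := hy_props hε
  have h3 : (hy ε).det * (hy ε).det = 1 := by
    rw [← Matrix.det_mul, h2, Matrix.det_one]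
  have h4 : |(hy ε).det| * |(hy ε).det| = 1 := by
    rw [← abs_mul, h3, abs_one]
  nlinarith [abs_nonneg (hy ε).det]

private theorem DtD_rb (hε : ∀ i, ε i = 1 ∨ ε i = -1) (h0 : b * hy ε * rᵀ = 0) :
    r * hy ε * bᵀ = 0 := by
  obtain ⟨h1, -, -⟩ := hy_props hε
  have h2 := congrArg Matrix.transpose h0
  rw [Matrix.transpose_mul, Matrix.transpose_mul, Matrix.transpose_transpose, h1,
    Matrix.transpose_zero, ← Matrix.mul_assoc] at h2
  exact h2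

private theorem DtD_tr (P : Matrix (Fin 4) (Fin 4 ⊕ Fin 4) ℝ) (R : Matrix (Fin 4) (Fin 4 ⊕ Fin 4) ℝ)
    (Q : Matrix (Fin 4) (Fin 4 ⊕ Fin 4) ℝ) (S : Matrix (Fin 4) (Fin 4 ⊕ Fin 4) ℝ) :
    Matrix.fromRows P R * (Matrix.fromRows Q S)ᵀ =
      Matrix.fromBlocks (P * Qᵀ) (P * Sᵀ) (R * Qᵀ) (R * Sᵀ) := by
  rw [Matrix.transpose_fromRows, Matrix.fromRows_mul_fromCols]

/-- size 2.  `E = fromRows b r`: `E * H * Eᵀ = fromBlocks g 0 0 s`, `|det H| = 1` (`H * H = 1`), so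
`(det E) ^ 2 = |det g| * |det s| = (k * |det g|) ^ 2`. -/
theorem det_E (hε : ∀ i, ε i = 1 ∨ ε i = -1) (hb : b * hy ε * bᵀ = g) (hr : r * hy ε * rᵀ = s)
    (h0 : b * hy ε * rᵀ = 0) (hk : 0 < k) (hs : s.det = k ^ 2 * g.det) :
    |(Matrix.fromRows b r).det| = k * |g.det| := by
  have hrb := DtD_rb hε h0
  have h1 : Matrix.fromRows b r * hy ε * (Matrix.fromRows b r)ᵀ = Matrix.fromBlocks g 0 0 s := by
    rw [Matrix.fromRows_mul, DtD_tr, hb, h0, hrb, hr]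
  have h2 := congrArg Matrix.det h1
  rw [Matrix.det_mul, Matrix.det_mul, Matrix.det_transpose, Matrix.det_fromBlocks_zero₂₁, hs] at h2
  have h3 := congrArg abs h2
  rw [abs_mul, abs_mul, DtD_H hε, mul_one, abs_mul, abs_mul, abs_of_pos (pow_pos hk 2)] at h3
  have h4 : |(Matrix.fromRows b r).det| ^ 2 = (k * |g.det|) ^ 2 := by
    rw [sq, h3]
    ring
  exact (sq_eq_sq₀ (abs_nonneg _) (mul_nonneg hk.le (abs_nonneg _))).1 h4

/-- size 2.  `fromRows Q r * H * (fromRows b r)ᵀ = fromBlocks (Q H bᵀ) (Q H rᵀ) 0 s`, so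
`|det (fromRows Q r)| * (k |det g|) = |det (Q H bᵀ)| * k ^ 2 |det g|`. -/
theorem det_dual (hε : ∀ i, ε i = 1 ∨ ε i = -1) (hb : b * hy ε * bᵀ = g) (hr : r * hy ε * rᵀ = s)
    (h0 : b * hy ε * rᵀ = 0) (hg : g.det ≠ 0) (hk : 0 < k) (hs : s.det = k ^ 2 * g.det)
    (Q : Matrix (Fin 4) (Fin 4 ⊕ Fin 4) ℝ) :
    |(Matrix.fromRows Q r).det| = k * |(Q * hy ε * bᵀ).det| := by
  have hrb := DtD_rb hε h0
  have hE := det_E hε hb hr h0 hk hs
  have h1 : Matrix.fromRows Q r * hy ε * (Matrix.fromRows b r)ᵀ =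
      Matrix.fromBlocks (Q * hy ε * bᵀ) (Q * hy ε * rᵀ) 0 s := by
    rw [Matrix.fromRows_mul, DtD_tr, hrb, hr]
  have h2 := congrArg Matrix.det h1
  rw [Matrix.det_mul, Matrix.det_mul, Matrix.det_transpose, Matrix.det_fromBlocks_zero₂₁, hs] at h2
  have h3 := congrArg abs h2
  rw [abs_mul, abs_mul, DtD_H hε, mul_one, abs_mul, abs_mul, abs_of_pos (pow_pos hk 2), hE] at h3
  have hg' : 0 < |g.det| := abs_pos.2 hg
  have h4 : 0 < k * |g.det| := mul_pos hk hg'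
  have h5 : |(Matrix.fromRows Q r).det| * (k * |g.det|) =
      (k * |(Q * hy ε * bᵀ).det|) * (k * |g.det|) := by
    rw [h3]
    ring
  exact mul_right_cancel₀ h4.ne' h5

/-- size 2.  `fromRows b r * (fromRows (b H) U)ᵀ = fromBlocks (b H bᵀ) (b Uᵀ) (r H bᵀ = 0) (r Uᵀ)` (`Hᵀ = H`), so
`(k |det g|) * |det (fromRows (b H) U)| = |det g| * |det (r Uᵀ)|`. -/
theorem det_dual' (hε : ∀ i, ε i = 1 ∨ ε i = -1) (hb : b * hy ε * bᵀ = g) (hr : r * hy ε * rᵀ = s)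
    (h0 : b * hy ε * rᵀ = 0) (hg : g.det ≠ 0) (hk : 0 < k) (hs : s.det = k ^ 2 * g.det)
    (U : Matrix (Fin 4) (Fin 4 ⊕ Fin 4) ℝ) :
    |(r * Uᵀ).det| = k * |(Matrix.fromRows (b * hy ε) U).det| := by
  have hrb := DtD_rb hε h0
  have hE := det_E hε hb hr h0 hk hs
  obtain ⟨hH, -, -⟩ := hy_props hε
  have e1 : b * (b * hy ε)ᵀ = g := by
    rw [Matrix.transpose_mul, hH, ← Matrix.mul_assoc, hb]
  have e2 : r * (b * hy ε)ᵀ = 0 := by
    rw [Matrix.transpose_mul, hH, ← Matrix.mul_assoc, hrb]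
  have h1 : Matrix.fromRows b r * (Matrix.fromRows (b * hy ε) U)ᵀ =
      Matrix.fromBlocks g (b * Uᵀ) 0 (r * Uᵀ) := by
    rw [DtD_tr, e1, e2]
  have h2 := congrArg Matrix.det h1
  rw [Matrix.det_mul, Matrix.det_transpose, Matrix.det_fromBlocks_zero₂₁] at h2
  have h3 := congrArg abs h2
  rw [abs_mul, abs_mul, hE] at h3
  have hg' : 0 < |g.det| := abs_pos.2 hg
  have h5 : |(r * Uᵀ).det| * |g.det| =
      (k * |(Matrix.fromRows (b * hy ε) U).det|) * |g.det| := by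
    rw [mul_comm, ← h3]
    ring
  exact mul_right_cancel₀ hg'.ne' h5

end Pool.Agent.PP5M
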