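import Pool.Agent.PP5M.Ent
import Pool.Agent.PP5M.Defs
import Pool.Agent.PP5M.Chr
import Pool.Agent.PP5M.MnB

/-!
# PP5 (D'), dictionary: (L3), the `2 x 2` minors of `S(x)` from those of `G`, no hypothesis on `det (SS x)`
-/

set_option autoImplicit false

namespace Pool.Agent.PP5M

open Matrix Pool.Agent.PP5L

/-- `LD` without `dn`, `k1`, `kd` -/
structure LD0 (C K T : ℝ) (x : Fin 10 → ℤ) (b : Fin 4 → Fin 16 → ℤ)
    (G : Matrix (Fin 4) (Fin 4) ℤ) (l : Fin 4 → ℝ) : Prop where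
  C1 : 1 ≤ C
  K1 : 1 ≤ K
  T0 : 0 < T
  ff : FF x = 0
  xle : ∀ j, |(x j : ℝ)| ≤ K * T
  xge : ∃ j, T ≤ K * |(x j : ℝ)|
  lp : ∀ i, 0 < l i
  bH : ∀ i, HH x (b i) = 0
  br : ∀ i r, dot (b i) (rho r) = 0
  bl : ∀ i a, |(b i a : ℝ)| ≤ K * l i
  wc : ∀ (u : Fin 4 → ℝ) (i : Fin 4), ∃ a : Fin 16,
    |u i| * l i ≤ C * K * |∑ i', u i' * (b i' a : ℝ)|
  gram : ∀ i i' j, Bd (b i) (b i') j = G i i' * x j

theorem LD.zero {C K T : ℝ} {x : Fin 10 → ℤ} {b : Fin 4 → Fin 16 → ℤ} {G : Matrix (Fin 4) (Fin 4) ℤ}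
    {l : Fin 4 → ℝ} {k : ℕ} (h : LD C K T x b G l k) : LD0 C K T x b G l :=
  ⟨h.C1, h.K1, h.T0, h.ff, h.xle, h.xge, h.lp, h.bH, h.br, h.bl, h.wc, h.gram⟩


private theorem l30_hyform (A B : Matrix (Fin 4) (Fin 4 ⊕ Fin 4) ℝ) (ε : Fin 4 → ℝ)
    (i i' : Fin 4) : (A * hy ε * Bᵀ) i i' =
      ∑ m, ε m * (A i (Sum.inl m) * B i' (Sum.inr m) + A i (Sum.inr m) * B i' (Sum.inl m)) := by
  simp [Matrix.mul_apply, hy, Fintype.sum_sum_type, Matrix.diagonal_apply, Fin.sum_univ_four]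
  ring

/-- size 4.  The chart at a coordinate `j` with `T ≤ K |x j|`, scaled: `b' i κ = b i (c κ) / l i`, `r' i κ = HP x (rho i) (c κ)`.
(1) `b' * hy ε * b'ᵀ` has the entries `G i k * x j / (l i * l k)` (`gram`); (2) `r' * hy ε * r'ᵀ` has the entries `SS x i k * x j`
(`Bd (HP x s) (HP x t) j = dot s (HP x t) * x j` for `FF x = 0`, see `Bd_HP`, `SS_eq`); (3) `b' * hy ε * r'ᵀ = 0`
(`Bd (b i) (HP x (rho r)) j = dot (b i) (rho r) * x j`: both are in `K_x`; `Bd_Kx`, `bx_HP`, with a real or rational partner; or directly `Bd_HP`-like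
identities; `HP x s ∈ K_x` is `HP_mem_Kx`); (4) bounds: `|b' i κ| ≤ K`, `|r' i κ| ≤ K T` (the entries of `HP x (rho i)` are `0` or `± x m`);
(5) well conditioned: for the `a` of `wc`, `x j * b i a = ∑ N κ b i (c κ)` with `|N κ| ≤ K T`, so
`|∑ u i b i a| ≤ 8 K ^ 2 max_κ |∑ u i b i (c κ)|`: some `κ` has `|u i| * l i ≤ 8 C K ^ 3 |∑_i' u i' * b i' (c κ)|` (apply with `u i / l i`);
(6) every coordinate `a` of `HP x (rho i)` is `∑ κ, U κ * r' i κ` with `|U κ| ≤ K ^ 2`. -/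
theorem LD0.chart {C K T : ℝ} {x : Fin 10 → ℤ} {b : Fin 4 → Fin 16 → ℤ} {G : Matrix (Fin 4) (Fin 4) ℤ}
    {l : Fin 4 → ℝ} (h : LD0 C K T x b G l) :
    ∃ (j : Fin 10) (c : Fin 4 ⊕ Fin 4 → Fin 16) (ε : Fin 4 → ℝ) (b' r' : Matrix (Fin 4) (Fin 4 ⊕ Fin 4) ℝ),
      T ≤ K * |(x j : ℝ)| ∧ (∀ i, ε i = 1 ∨ ε i = -1) ∧ (∀ i κ, b' i κ = (b i (c κ) : ℝ) / l i) ∧
      (∀ i κ, r' i κ = ((HP x (rho i) (c κ) : ℤ) : ℝ)) ∧
      (∀ i i', (b' * hy ε * b'ᵀ) i i' = (G i i' : ℝ) * x j / (l i * l i')) ∧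
      (∀ i i', (r' * hy ε * r'ᵀ) i i' = ((SS x i i' : ℤ) : ℝ) * x j) ∧ b' * hy ε * r'ᵀ = 0 ∧
      (∀ i κ, |b' i κ| ≤ K) ∧ (∀ i κ, |r' i κ| ≤ K * T) ∧
      (∀ (u : Fin 4 → ℝ) (i : Fin 4), ∃ κ, |u i| ≤ 8 * C * K ^ 3 * |∑ i', u i' * b' i' κ|) ∧
      ∀ a : Fin 16, ∃ U : Fin 4 ⊕ Fin 4 → ℝ, (∀ κ, |U κ| ≤ K ^ 2) ∧
        ∀ i, ((HP x (rho i) a : ℤ) : ℝ) = ∑ κ, U κ * r' i κ := by
  obtain ⟨j, hj⟩ := h.xge
  obtain ⟨c, ε, hε, hB, hN⟩ := Pool.Agent.PP5M.chart j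
  have hC := h.C1
  have hK := h.K1
  have hT := h.T0
  have hK0 : (0 : ℝ) < K := lt_of_lt_of_le one_pos hK
  have hxj : (0 : ℝ) < |(x j : ℝ)| := by
    by_contra hn
    have : |(x j : ℝ)| = 0 := le_antisymm (not_lt.1 hn) (abs_nonneg _)
    rw [this, mul_zero] at hj
    exact absurd hT (not_lt.2 hj)
  have hxj0 : (x j : ℝ) ≠ 0 := abs_pos.1 hxj
  have hBr : ∀ s t : Fin 16 → ℤ, ((Bd s t j : ℤ) : ℝ) =
      ∑ m, (ε m : ℝ) * ((s (c (Sum.inl m)) : ℝ) * (t (c (Sum.inr m)) : ℝ) +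
        (s (c (Sum.inr m)) : ℝ) * (t (c (Sum.inl m)) : ℝ)) := by
    intro s t
    rw [hB s t]
    push_cast
    rfl
  have hNr : ∀ a : Fin 16, ∃ N : Fin 4 ⊕ Fin 4 → ℝ, (∀ κ, |N κ| ≤ K * T) ∧
      ∀ s : Fin 16 → ℤ, HH x s = 0 → (x j : ℝ) * (s a : ℝ) = ∑ κ, N κ * (s (c κ) : ℝ) := by
    intro a
    obtain ⟨N, h1, h2⟩ := hN x a
    refine ⟨fun κ => (N κ : ℝ), fun κ => ?_, fun s hs => ?_⟩
    · obtain ⟨i, hi⟩ := h1 κ
      have hi' : |(N κ : ℝ)| ≤ |(x i : ℝ)| := by exact_mod_cast hi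
      exact hi'.trans (h.xle i)
    · have h' : ((x j * s a : ℤ) : ℝ) = ((∑ κ, N κ * s (c κ) : ℤ) : ℝ) := by rw [h2 s hs]
      push_cast at h'
      exact h'
  have hlne : ∀ i, l i ≠ 0 := fun i => (h.lp i).ne'
  have hHPK : ∀ i, HH x (HP x (rho i)) = 0 := by
    intro i
    funext a
    rw [HH_HP, h.ff]
    simp
  refine ⟨j, c, fun i => (ε i : ℝ), Matrix.of fun i κ => (b i (c κ) : ℝ) / l i,
    Matrix.of fun i κ => ((HP x (rho i) (c κ) : ℤ) : ℝ), hj, ?_, fun _ _ => rfl, fun _ _ => rfl,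
    ?_, ?_, ?_, ?_, ?_, ?_, ?_⟩
  · intro i
    rcases hε i with e | e
    · left; simp [e]
    · right; simp [e]
  · intro i i'
    rw [l30_hyform]
    have e := hBr (b i) (b i')
    rw [h.gram i i' j] at e
    push_cast at e
    rw [e, Finset.sum_div]
    refine Finset.sum_congr rfl fun m _ => ?_
    simp only [Matrix.of_apply]
    have h1 := hlne i
    have h2 := hlne i'
    field_simp
  · intro i i'
    rw [l30_hyform]
    have e := hBr (HP x (rho i)) (HP x (rho i'))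
    rw [Bd_HP, SS_eq, h.ff, zero_mul, sub_zero] at e
    push_cast at e
    rw [e]
    rfl
  · ext i r
    rw [l30_hyform]
    have e := hBr (b i) (HP x (rho r))
    rw [ent_BdHP (h.bH i), h.br i r, zero_mul] at e
    simp only [Matrix.of_apply, Matrix.zero_apply]
    have e2 : (0 : ℝ) / l i = ∑ m, (ε m : ℝ) * ((b i (c (Sum.inl m)) : ℝ) / l i *
        ((HP x (rho r) (c (Sum.inr m)) : ℤ) : ℝ) + (b i (c (Sum.inr m)) : ℝ) / l i *
        ((HP x (rho r) (c (Sum.inl m)) : ℤ) : ℝ)) := by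
      rw [show (0 : ℝ) = ((0 : ℤ) : ℝ) by simp, e, Finset.sum_div]
      refine Finset.sum_congr rfl fun m _ => ?_
      ring
    rw [← e2, zero_div]
  · intro i κ
    simp only [Matrix.of_apply]
    rw [abs_div, abs_of_pos (h.lp i), div_le_iff₀ (h.lp i)]
    exact h.bl i (c κ)
  · intro i κ
    simp only [Matrix.of_apply]
    obtain ⟨m, hm⟩ := ent_le x i (c κ)
    have hm' : |((HP x (rho i) (c κ) : ℤ) : ℝ)| ≤ |(x m : ℝ)| := by exact_mod_cast hm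
    exact hm'.trans (h.xle m)
  · intro u i
    obtain ⟨a, ha⟩ := h.wc (fun i => u i / l i) i
    obtain ⟨N, hN1, hN2⟩ := hNr a
    set f : Fin 4 ⊕ Fin 4 → ℝ := fun κ => |∑ i', u i' * ((b i' (c κ) : ℝ) / l i')| with hf
    obtain ⟨κ₀, hκ₀⟩ := Finite.exists_max f
    refine ⟨κ₀, ?_⟩
    simp only [Matrix.of_apply]
    change |u i| ≤ 8 * C * K ^ 3 * f κ₀
    have hf0 : 0 ≤ f κ₀ := abs_nonneg _
    have e1 : (x j : ℝ) * ∑ i', u i' / l i' * (b i' a : ℝ) =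
        ∑ κ, N κ * ∑ i', u i' * ((b i' (c κ) : ℝ) / l i') := by
      rw [Finset.mul_sum]
      have : ∀ i', (x j : ℝ) * (u i' / l i' * (b i' a : ℝ)) =
          ∑ κ, N κ * (u i' * ((b i' (c κ) : ℝ) / l i')) := by
        intro i'
        have := hN2 (b i') (h.bH i')
        calc (x j : ℝ) * (u i' / l i' * (b i' a : ℝ)) = u i' / l i' * ((x j : ℝ) * (b i' a : ℝ)) := by ring
          _ = ∑ κ, N κ * (u i' * ((b i' (c κ) : ℝ) / l i')) := by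
            rw [this, Finset.mul_sum]
            exact Finset.sum_congr rfl fun κ _ => by ring
      simp only [this]
      rw [Finset.sum_comm]
      exact Finset.sum_congr rfl fun κ _ => by rw [Finset.mul_sum]
    have e2 : |(x j : ℝ)| * |∑ i', u i' / l i' * (b i' a : ℝ)| ≤ 8 * (K * T * f κ₀) := by
      rw [← abs_mul, e1]
      refine (Finset.abs_sum_le_sum_abs _ _).trans ?_
      have : ∀ κ ∈ (Finset.univ : Finset (Fin 4 ⊕ Fin 4)),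
          |N κ * ∑ i', u i' * ((b i' (c κ) : ℝ) / l i')| ≤ K * T * f κ₀ := by
        intro κ _
        rw [abs_mul]
        exact mul_le_mul (hN1 κ) (hκ₀ κ) (abs_nonneg _) (by positivity)
      refine (Finset.sum_le_card_nsmul _ _ _ this).trans ?_
      simp
    have e3 : T * |∑ i', u i' / l i' * (b i' a : ℝ)| ≤ T * (8 * K ^ 2 * f κ₀) := by
      calc T * |∑ i', u i' / l i' * (b i' a : ℝ)|
          ≤ K * |(x j : ℝ)| * |∑ i', u i' / l i' * (b i' a : ℝ)| :=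
            mul_le_mul_of_nonneg_right hj (abs_nonneg _)
        _ = K * (|(x j : ℝ)| * |∑ i', u i' / l i' * (b i' a : ℝ)|) := by ring
        _ ≤ K * (8 * (K * T * f κ₀)) := mul_le_mul_of_nonneg_left e2 hK0.le
        _ = T * (8 * K ^ 2 * f κ₀) := by ring
    have e4 := le_of_mul_le_mul_left e3 hT
    have e5 : |u i| = |u i / l i| * l i := by
      rw [abs_div, abs_of_pos (h.lp i), div_mul_cancel₀ _ (hlne i)]
    calc |u i| = |u i / l i| * l i := e5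
      _ ≤ C * K * |∑ i', u i' / l i' * (b i' a : ℝ)| := ha
      _ ≤ C * K * (8 * K ^ 2 * f κ₀) := mul_le_mul_of_nonneg_left e4 (by positivity)
      _ = 8 * C * K ^ 3 * f κ₀ := by ring
  · intro a
    obtain ⟨N, hN1, hN2⟩ := hNr a
    refine ⟨fun κ => N κ / (x j : ℝ), fun κ => ?_, fun i => ?_⟩
    · rw [abs_div, div_le_iff₀ hxj]
      calc |N κ| ≤ K * T := hN1 κ
        _ ≤ K * (K * |(x j : ℝ)|) := mul_le_mul_of_nonneg_left hj hK0.le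
        _ = K ^ 2 * |(x j : ℝ)| := by ring
    · have := hN2 (HP x (rho i)) (hHPK i)
      simp only [Matrix.of_apply]
      have e : ∀ κ, N κ / (x j : ℝ) * ((HP x (rho i) (c κ) : ℤ) : ℝ) =
          (N κ * ((HP x (rho i) (c κ) : ℤ) : ℝ)) / (x j : ℝ) := fun κ => by ring
      simp only [e]
      rw [← Finset.sum_div, ← this, mul_div_cancel_left₀ _ hxj0]


/-- (L3) -/
theorem mnS0_le {C K T p : ℝ} {x : Fin 10 → ℤ} {b : Fin 4 → Fin 16 → ℤ} {G : Matrix (Fin 4) (Fin 4) ℤ}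
    {l : Fin 4 → ℝ} (h : LD0 C K T x b G l) (hp : ∀ i i' k k', |((mr G i i' k k' : ℤ) : ℝ)| * T ^ 2 ≤
      p * (l i * l i' * (l k * l k'))) (i i' k k' : Fin 4) :
    |((mr (SS x) i i' k k' : ℤ) : ℝ)| ≤ 10 ^ 40 * (C * K ^ 4) ^ 16 * p * T ^ 2 := by
  obtain ⟨j, c, ε, b', r', hj, hε, -, -, hbb, hrr, hbr, hbl, hrl, hwc, -⟩ := h.chart
  have hC := h.C1
  have hK := h.K1
  have hT := h.T0
  have hK0 : 0 < K := by linarith
  have hC0 : 0 < C := by linarith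
  have hK2 : 1 ≤ K ^ 2 := one_le_pow₀ hK
  have hK3 : 1 ≤ K ^ 3 := one_le_pow₀ hK
  set Q : ℝ := 8 * C * K ^ 3 with hQdef
  have hQ : 1 ≤ Q := by rw [hQdef]; nlinarith
  have hKQ : K ≤ Q := by
    have h1 : K ≤ K ^ 3 := by nlinarith
    have h2 : 1 * K ^ 3 ≤ 8 * C * K ^ 3 := mul_le_mul_of_nonneg_right (by linarith) (by positivity)
    linarith
  have hxj : (0 : ℝ) < |(x j : ℝ)| := by
    by_contra hn
    have : |(x j : ℝ)| = 0 := le_antisymm (not_lt.1 hn) (abs_nonneg _)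
    rw [this, mul_zero] at hj
    exact absurd hT (not_lt.2 hj)
  have hp0 : 0 ≤ p := by
    have h1 := hp 0 0 0 0
    have h2 : 0 ≤ |((mr G 0 0 0 0 : ℤ) : ℝ)| * T ^ 2 := by positivity
    have h3 := h.lp 0
    by_contra hn
    have h4 : p * (l 0 * l 0 * (l 0 * l 0)) < 0 := mul_neg_of_neg_of_pos (not_le.1 hn) (by positivity)
    linarith
  -- the minors of `b' H b'ᵀ`
  have hmG : ∀ i i' k k', |mr (b' * hy ε * b'ᵀ) i i' k k'| ≤ K ^ 2 * (K ^ 2 * p) := by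
    intro i i' k k'
    have hi := h.lp i
    have hi' := h.lp i'
    have hk := h.lp k
    have hk' := h.lp k'
    have e : mr (b' * hy ε * b'ᵀ) i i' k k' =
        (x j : ℝ) ^ 2 * ((mr G i i' k k' : ℤ) : ℝ) / (l i * l i' * (l k * l k')) := by
      unfold mr
      rw [hbb, hbb, hbb, hbb]
      push_cast
      field_simp
    have hL : 0 < l i * l i' * (l k * l k') := by positivity
    rw [e, abs_div, abs_of_pos hL, div_le_iff₀ hL, abs_mul, abs_pow]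
    have hx2 : |(x j : ℝ)| ^ 2 ≤ (K * T) ^ 2 := pow_le_pow_left₀ (abs_nonneg _) (h.xle j) 2
    calc |(x j : ℝ)| ^ 2 * |((mr G i i' k k' : ℤ) : ℝ)|
        ≤ (K * T) ^ 2 * |((mr G i i' k k' : ℤ) : ℝ)| := mul_le_mul_of_nonneg_right hx2 (abs_nonneg _)
      _ = K ^ 2 * (|((mr G i i' k k' : ℤ) : ℝ)| * T ^ 2) := by ring
      _ ≤ K ^ 2 * (p * (l i * l i' * (l k * l k'))) :=
        mul_le_mul_of_nonneg_left (hp i i' k k') (by positivity)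
      _ = 1 * (K ^ 2 * (p * (l i * l i' * (l k * l k')))) := by ring
      _ ≤ K ^ 2 * (K ^ 2 * (p * (l i * l i' * (l k * l k')))) :=
        mul_le_mul_of_nonneg_right hK2 (by positivity)
      _ = K ^ 2 * (K ^ 2 * p) * (l i * l i' * (l k * l k')) := by ring
  -- the scaled `r`
  set r : Matrix (Fin 4) (Fin 4 ⊕ Fin 4) ℝ := Matrix.of fun i κ => r' i κ / T with hr
  have hr1 : r = T⁻¹ • r' := by
    ext i κ
    simp [hr, div_eq_inv_mul]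
  have hrl' : ∀ i κ, |r i κ| ≤ Q := by
    intro i κ
    simp only [hr, Matrix.of_apply]
    rw [abs_div, abs_of_pos hT, div_le_iff₀ hT]
    exact (hrl i κ).trans (mul_le_mul_of_nonneg_right hKQ hT.le)
  have h0 : b' * hy ε * rᵀ = 0 := by
    rw [hr1, Matrix.transpose_smul, Matrix.mul_smul, hbr, smul_zero]
  have hdual := mn_dual hε hQ (fun i κ => (hbl i κ).trans hKQ) hrl' hwc h0 hmG i i' k k'
  have e2 : mr (r * hy ε * rᵀ) i i' k k' =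
      (x j : ℝ) ^ 2 * ((mr (SS x) i i' k k' : ℤ) : ℝ) / T ^ 4 := by
    have e3 : r * hy ε * rᵀ = (T⁻¹ * T⁻¹) • (r' * hy ε * r'ᵀ) := by
      rw [hr1, Matrix.transpose_smul, Matrix.smul_mul, Matrix.smul_mul, Matrix.mul_smul, smul_smul]
    unfold mr
    rw [e3]
    simp only [Matrix.smul_apply, smul_eq_mul, hrr]
    push_cast
    field_simp
  rw [e2, abs_div, abs_mul, abs_pow, abs_of_pos (show (0 : ℝ) < T ^ 4 by positivity),
    div_le_iff₀ (show (0 : ℝ) < T ^ 4 by positivity)] at hdual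
  -- `T ^ 2 ≤ K ^ 2 x_j ^ 2`
  have hT2 : T ^ 2 ≤ K ^ 2 * |(x j : ℝ)| ^ 2 := by
    have := pow_le_pow_left₀ hT.le hj 2
    calc T ^ 2 ≤ (K * |(x j : ℝ)|) ^ 2 := this
      _ = K ^ 2 * |(x j : ℝ)| ^ 2 := by ring
  have hS0 : 0 ≤ |((mr (SS x) i i' k k' : ℤ) : ℝ)| := abs_nonneg _
  have hfin : T ^ 2 * |((mr (SS x) i i' k k' : ℤ) : ℝ)| ≤
      T ^ 2 * (10 ^ 40 * (C * K ^ 4) ^ 16 * p * T ^ 2) := by
    have hb : K ^ 2 * (10 ^ 20 * Q ^ 16 * (K ^ 2 * (K ^ 2 * p))) ≤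
        10 ^ 40 * (C * K ^ 4) ^ 16 * p := by
      have e4 : K ^ 2 * (10 ^ 20 * Q ^ 16 * (K ^ 2 * (K ^ 2 * p))) =
          (10 ^ 20 * 8 ^ 16) * (C ^ 16 * K ^ 54 * p) := by
        rw [hQdef]; ring
      have e5 : (10 : ℝ) ^ 40 * (C * K ^ 4) ^ 16 * p = 10 ^ 40 * (C ^ 16 * K ^ 64 * p) := by ring
      rw [e4, e5]
      have h1 : K ^ 54 ≤ K ^ 64 := pow_le_pow_right₀ hK (by norm_num)
      have h2 : C ^ 16 * K ^ 54 * p ≤ C ^ 16 * K ^ 64 * p :=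
        mul_le_mul_of_nonneg_right (mul_le_mul_of_nonneg_left h1 (by positivity)) hp0
      have h3 : (10 : ℝ) ^ 20 * 8 ^ 16 ≤ 10 ^ 40 := by norm_num
      have h4 : 0 ≤ C ^ 16 * K ^ 54 * p :=
        mul_nonneg (mul_nonneg (pow_nonneg hC0.le _) (pow_nonneg hK0.le _)) hp0
      exact mul_le_mul h3 h2 h4 (by norm_num)
    calc T ^ 2 * |((mr (SS x) i i' k k' : ℤ) : ℝ)|
        ≤ (K ^ 2 * |(x j : ℝ)| ^ 2) * |((mr (SS x) i i' k k' : ℤ) : ℝ)| :=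
          mul_le_mul_of_nonneg_right hT2 hS0
      _ = K ^ 2 * (|(x j : ℝ)| ^ 2 * |((mr (SS x) i i' k k' : ℤ) : ℝ)|) := by ring
      _ ≤ K ^ 2 * (10 ^ 20 * Q ^ 16 * (K ^ 2 * (K ^ 2 * p)) * T ^ 4) :=
          mul_le_mul_of_nonneg_left hdual (by positivity)
      _ = (K ^ 2 * (10 ^ 20 * Q ^ 16 * (K ^ 2 * (K ^ 2 * p)))) * T ^ 4 := by ring
      _ ≤ (10 ^ 40 * (C * K ^ 4) ^ 16 * p) * T ^ 4 := mul_le_mul_of_nonneg_right hb (by positivity)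
      _ = T ^ 2 * (10 ^ 40 * (C * K ^ 4) ^ 16 * p * T ^ 2) := by ring
  exact le_of_mul_le_mul_left hfin (by positivity)

end Pool.Agent.PP5M
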