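import Pool.Agent.PP5M.Ent
import Pool.Agent.PP5M.Defs
import Pool.Agent.PP5M.Chr
import Pool.Agent.PP5M.MnB

/-!
# PP5 (D'), dictionary: real matrices of the data in a chart
-/

set_option autoImplicit false

namespace Pool.Agent.PP5M

open Matrix Pool.Agent.PP5L

private theorem ldr_hyform (A B : Matrix (Fin 4) (Fin 4 ⊕ Fin 4) ℝ) (ε : Fin 4 → ℝ)
    (i i' : Fin 4) : (A * hy ε * Bᵀ) i i' =
      ∑ m, ε m * (A i (Sum.inl m) * B i' (Sum.inr m) + A i (Sum.inr m) * B i' (Sum.inl m)) := by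
  simp [Matrix.mul_apply, hy, Fintype.sum_sum_type, Matrix.diagonal_apply, Fin.sum_univ_four]
  ring

/-- size 4.  The chart at a coordinate `j` with `T ≤ K |x j|`, scaled: `b' i κ = b i (c κ) / l i`, `r' i κ = HP x (rho i) (c κ)`.
(1) `b' * hy ε * b'ᵀ` has the entries `G i k * x j / (l i * l k)` (`gram`); (2) `r' * hy ε * r'ᵀ` has the entries `SS x i k * x j`
(`Bd (HP x s) (HP x t) j = dot s (HP x t) * x j` for `FF x = 0`, see `Bd_HP`, `SS_eq`); (3) `b' * hy ε * r'ᵀ = 0`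
(`Bd (b i) (HP x (rho r)) j = dot (b i) (rho r) * x j`: both are in `K_x`; `Bd_Kx`, `bx_HP`, with a real or rational partner; or directly `Bd_HP`-like
identities; `HP x s ∈ K_x` is `HP_mem_Kx`); (4) bounds: `|b' i κ| ≤ K`, `|r' i κ| ≤ K T` (the entries of `HP x (rho i)` are `0` or `± x m`);
(5) well conditioned: for the `a` of `wc`, `x j * b i a = ∑ N κ b i (c κ)` with `|N κ| ≤ K T`, so
`|∑ u i b i a| ≤ 8 K ^ 2 max_κ |∑ u i b i (c κ)|`: some `κ` has `|u i| * l i ≤ 8 C K ^ 3 |∑_i' u i' * b i' (c κ)|` (apply with `u i / l i`);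
(6) every coordinate `a` of `HP x (rho i)` is `∑ κ, U κ * r' i κ` with `|U κ| ≤ K ^ 2`. -/
theorem LD.chart {C K T : ℝ} {x : Fin 10 → ℤ} {b : Fin 4 → Fin 16 → ℤ} {G : Matrix (Fin 4) (Fin 4) ℤ}
    {l : Fin 4 → ℝ} {k : ℕ} (h : LD C K T x b G l k) :
    ∃ (j : Fin 10) (c : Fin 4 ⊕ Fin 4 → Fin 16) (ε : Fin 4 → ℝ) (b' r' : Matrix (Fin 4) (Fin 4 ⊕ Fin 4) ℝ),
      T ≤ K * |(x j : ℝ)| ∧ (∀ i, ε i = 1 ∨ ε i = -1) ∧ (∀ i κ, b' i κ = (b i (c κ) : ℝ) / l i) ∧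
      (∀ i κ, r' i κ = ((HP x (rho i) (c κ) : ℤ) : ℝ)) ∧
      (∀ i i', (b' * hy ε * b'ᵀ) i i' = (G i i' : ℝ) * x j / (l i * l i')) ∧
      (∀ i i', (r' * hy ε * r'ᵀ) i i' = ((SS x i i' : ℤ) : ℝ) * x j) ∧ b' * hy ε * r'ᵀ = 0 ∧
      (∀ i κ, |b' i κ| ≤ K) ∧ (∀ i κ, |r' i κ| ≤ K * T) ∧
      (∀ (u : Fin 4 → ℝ) (i : Fin 4), ∃ κ, |u i| ≤ 8 * C * K ^ 3 * |∑ i', u i' * b' i' κ|) ∧
      ∀ a : Fin 16, ∃ U : Fin 4 ⊕ Fin 4 → ℝ, (∀ κ, |U κ| ≤ K ^ 2) ∧
        ∀ i, ((HP x (rho i) a : ℤ) : ℝ) = ∑ κ, U κ * r' i κ := by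
  obtain ⟨j, hj⟩ := h.xge
  obtain ⟨c, ε, hε, hB, hN⟩ := Pool.Agent.PP5M.chart j
  have hC := h.C1
  have hK := h.K1
  have hT := h.T0
  have hK0 : (0 : ℝ) < K := lt_of_lt_of_le one_pos hK
  have hxj : (0 : ℝ) < |(x j : ℝ)| := by
    by_contra hn
    have : |(x j : ℝ)| = 0 := le_antisymm (not_lt.1 hn) (abs_nonneg _)
    rw [this, mul_zero] at hj
    exact absurd hT (not_lt.2 hj)
  have hxj0 : (x j : ℝ) ≠ 0 := abs_pos.1 hxj
  have hBr : ∀ s t : Fin 16 → ℤ, ((Bd s t j : ℤ) : ℝ) =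
      ∑ m, (ε m : ℝ) * ((s (c (Sum.inl m)) : ℝ) * (t (c (Sum.inr m)) : ℝ) +
        (s (c (Sum.inr m)) : ℝ) * (t (c (Sum.inl m)) : ℝ)) := by
    intro s t
    rw [hB s t]
    push_cast
    rfl
  have hNr : ∀ a : Fin 16, ∃ N : Fin 4 ⊕ Fin 4 → ℝ, (∀ κ, |N κ| ≤ K * T) ∧
      ∀ s : Fin 16 → ℤ, HH x s = 0 → (x j : ℝ) * (s a : ℝ) = ∑ κ, N κ * (s (c κ) : ℝ) := by
    intro a
    obtain ⟨N, h1, h2⟩ := hN x a
    refine ⟨fun κ => (N κ : ℝ), fun κ => ?_, fun s hs => ?_⟩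
    · obtain ⟨i, hi⟩ := h1 κ
      have hi' : |(N κ : ℝ)| ≤ |(x i : ℝ)| := by exact_mod_cast hi
      exact hi'.trans (h.xle i)
    · have h' : ((x j * s a : ℤ) : ℝ) = ((∑ κ, N κ * s (c κ) : ℤ) : ℝ) := by rw [h2 s hs]
      push_cast at h'
      exact h'
  have hlne : ∀ i, l i ≠ 0 := fun i => (h.lp i).ne'
  have hHPK : ∀ i, HH x (HP x (rho i)) = 0 := by
    intro i
    funext a
    rw [HH_HP, h.ff]
    simp
  refine ⟨j, c, fun i => (ε i : ℝ), Matrix.of fun i κ => (b i (c κ) : ℝ) / l i,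
    Matrix.of fun i κ => ((HP x (rho i) (c κ) : ℤ) : ℝ), hj, ?_, fun _ _ => rfl, fun _ _ => rfl,
    ?_, ?_, ?_, ?_, ?_, ?_, ?_⟩
  · intro i
    rcases hε i with e | e
    · left; simp [e]
    · right; simp [e]
  · intro i i'
    rw [ldr_hyform]
    have e := hBr (b i) (b i')
    rw [h.gram i i' j] at e
    push_cast at e
    rw [e, Finset.sum_div]
    refine Finset.sum_congr rfl fun m _ => ?_
    simp only [Matrix.of_apply]
    have h1 := hlne i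
    have h2 := hlne i'
    field_simp
  · intro i i'
    rw [ldr_hyform]
    have e := hBr (HP x (rho i)) (HP x (rho i'))
    rw [Bd_HP, SS_eq, h.ff, zero_mul, sub_zero] at e
    push_cast at e
    rw [e]
    rfl
  · ext i r
    rw [ldr_hyform]
    have e := hBr (b i) (HP x (rho r))
    rw [ent_BdHP (h.bH i), h.br i r, zero_mul] at e
    simp only [Matrix.of_apply, Matrix.zero_apply]
    have e2 : (0 : ℝ) / l i = ∑ m, (ε m : ℝ) * ((b i (c (Sum.inl m)) : ℝ) / l i *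
        ((HP x (rho r) (c (Sum.inr m)) : ℤ) : ℝ) + (b i (c (Sum.inr m)) : ℝ) / l i *
        ((HP x (rho r) (c (Sum.inl m)) : ℤ) : ℝ)) := by
      rw [show (0 : ℝ) = ((0 : ℤ) : ℝ) by simp, e, Finset.sum_div]
      refine Finset.sum_congr rfl fun m _ => ?_
      ring
    rw [← e2, zero_div]
  · intro i κ
    simp only [Matrix.of_apply]
    rw [abs_div, abs_of_pos (h.lp i), div_le_iff₀ (h.lp i)]
    exact h.bl i (c κ)
  · intro i κ
    simp only [Matrix.of_apply]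
    obtain ⟨m, hm⟩ := ent_le x i (c κ)
    have hm' : |((HP x (rho i) (c κ) : ℤ) : ℝ)| ≤ |(x m : ℝ)| := by exact_mod_cast hm
    exact hm'.trans (h.xle m)
  · intro u i
    obtain ⟨a, ha⟩ := h.wc (fun i => u i / l i) i
    obtain ⟨N, hN1, hN2⟩ := hNr a
    set f : Fin 4 ⊕ Fin 4 → ℝ := fun κ => |∑ i', u i' * ((b i' (c κ) : ℝ) / l i')| with hf
    obtain ⟨κ₀, hκ₀⟩ := Finite.exists_max f
    refine ⟨κ₀, ?_⟩
    simp only [Matrix.of_apply]
    change |u i| ≤ 8 * C * K ^ 3 * f κ₀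
    have hf0 : 0 ≤ f κ₀ := abs_nonneg _
    have e1 : (x j : ℝ) * ∑ i', u i' / l i' * (b i' a : ℝ) =
        ∑ κ, N κ * ∑ i', u i' * ((b i' (c κ) : ℝ) / l i') := by
      rw [Finset.mul_sum]
      have : ∀ i', (x j : ℝ) * (u i' / l i' * (b i' a : ℝ)) =
          ∑ κ, N κ * (u i' * ((b i' (c κ) : ℝ) / l i')) := by
        intro i'
        have := hN2 (b i') (h.bH i')
        calc (x j : ℝ) * (u i' / l i' * (b i' a : ℝ)) = u i' / l i' * ((x j : ℝ) * (b i' a : ℝ)) := by ring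
          _ = ∑ κ, N κ * (u i' * ((b i' (c κ) : ℝ) / l i')) := by
            rw [this, Finset.mul_sum]
            exact Finset.sum_congr rfl fun κ _ => by ring
      simp only [this]
      rw [Finset.sum_comm]
      exact Finset.sum_congr rfl fun κ _ => by rw [Finset.mul_sum]
    have e2 : |(x j : ℝ)| * |∑ i', u i' / l i' * (b i' a : ℝ)| ≤ 8 * (K * T * f κ₀) := by
      rw [← abs_mul, e1]
      refine (Finset.abs_sum_le_sum_abs _ _).trans ?_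
      have : ∀ κ ∈ (Finset.univ : Finset (Fin 4 ⊕ Fin 4)),
          |N κ * ∑ i', u i' * ((b i' (c κ) : ℝ) / l i')| ≤ K * T * f κ₀ := by
        intro κ _
        rw [abs_mul]
        exact mul_le_mul (hN1 κ) (hκ₀ κ) (abs_nonneg _) (by positivity)
      refine (Finset.sum_le_card_nsmul _ _ _ this).trans ?_
      simp
    have e3 : T * |∑ i', u i' / l i' * (b i' a : ℝ)| ≤ T * (8 * K ^ 2 * f κ₀) := by
      calc T * |∑ i', u i' / l i' * (b i' a : ℝ)|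
          ≤ K * |(x j : ℝ)| * |∑ i', u i' / l i' * (b i' a : ℝ)| :=
            mul_le_mul_of_nonneg_right hj (abs_nonneg _)
        _ = K * (|(x j : ℝ)| * |∑ i', u i' / l i' * (b i' a : ℝ)|) := by ring
        _ ≤ K * (8 * (K * T * f κ₀)) := mul_le_mul_of_nonneg_left e2 hK0.le
        _ = T * (8 * K ^ 2 * f κ₀) := by ring
    have e4 := le_of_mul_le_mul_left e3 hT
    have e5 : |u i| = |u i / l i| * l i := by
      rw [abs_div, abs_of_pos (h.lp i), div_mul_cancel₀ _ (hlne i)]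
    calc |u i| = |u i / l i| * l i := e5
      _ ≤ C * K * |∑ i', u i' / l i' * (b i' a : ℝ)| := ha
      _ ≤ C * K * (8 * K ^ 2 * f κ₀) := mul_le_mul_of_nonneg_left e4 (by positivity)
      _ = 8 * C * K ^ 3 * f κ₀ := by ring
  · intro a
    obtain ⟨N, hN1, hN2⟩ := hNr a
    refine ⟨fun κ => N κ / (x j : ℝ), fun κ => ?_, fun i => ?_⟩
    · rw [abs_div, div_le_iff₀ hxj]
      calc |N κ| ≤ K * T := hN1 κ
        _ ≤ K * (K * |(x j : ℝ)|) := mul_le_mul_of_nonneg_left hj hK0.le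
        _ = K ^ 2 * |(x j : ℝ)| := by ring
    · have := hN2 (HP x (rho i)) (hHPK i)
      simp only [Matrix.of_apply]
      have e : ∀ κ, N κ / (x j : ℝ) * ((HP x (rho i) (c κ) : ℤ) : ℝ) =
          (N κ * ((HP x (rho i) (c κ) : ℤ) : ℝ)) / (x j : ℝ) := fun κ => by ring
      simp only [e]
      rw [← Finset.sum_div, ← this, mul_div_cancel_left₀ _ hxj0]

end Pool.Agent.PP5M
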