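import Pool.Agent.PP5M.Ent
import Pool.Agent.PP5M.D3b
import Pool.Agent.PP5M.L3
import Pool.Agent.PP5M.Ldr
import Pool.Agent.PP5M.DtD

/-!
# PP5M/D3c: (D3) without `det (SS x) ≠ 0`: `k * Λ` and the `4 x 4` minors of the vectors `HP x (rho i)`
-/

set_option autoImplicit false

namespace Pool.Agent.PP5M

open Matrix Module Pool.Agent.PP5L Pool.Agent.PP5K

private theorem d3c_hyform (A B : Matrix (Fin 4) (Fin 4 ⊕ Fin 4) ℝ) (ε : Fin 4 → ℝ)
    (i i' : Fin 4) : (A * hy ε * Bᵀ) i i' =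
      ∑ m, ε m * (A i (Sum.inl m) * B i' (Sum.inr m) + A i (Sum.inr m) * B i' (Sum.inl m)) := by
  simp [Matrix.mul_apply, hy, Fintype.sum_sum_type, Matrix.diagonal_apply, Fin.sum_univ_four]
  ring

theorem LD0.chartZ {C K T : ℝ} {x : Fin 10 → ℤ} {b : Fin 4 → Fin 16 → ℤ} {G : Matrix (Fin 4) (Fin 4) ℤ}
    {l : Fin 4 → ℝ} (h : LD0 C K T x b G l) :
    ∃ (j : Fin 10) (c : Fin 4 ⊕ Fin 4 → Fin 16) (ε : Fin 4 → ℤ) (b' r' : Matrix (Fin 4) (Fin 4 ⊕ Fin 4) ℝ),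
      T ≤ K * |(x j : ℝ)| ∧ (∀ i, ε i = 1 ∨ ε i = -1) ∧
      (∀ s t : Fin 16 → ℤ, Bd s t j = ∑ i, ε i * (s (c (Sum.inl i)) * t (c (Sum.inr i)) +
        s (c (Sum.inr i)) * t (c (Sum.inl i)))) ∧ (∀ i κ, b' i κ = (b i (c κ) : ℝ) / l i) ∧
      (∀ i κ, r' i κ = ((HP x (rho i) (c κ) : ℤ) : ℝ)) ∧
      b' * hy (fun i => (ε i : ℝ)) * r'ᵀ = 0 ∧
      (∀ i κ, |b' i κ| ≤ K) ∧ (∀ i κ, |r' i κ| ≤ K * T) ∧
      (∀ (u : Fin 4 → ℝ) (i : Fin 4), ∃ κ, |u i| ≤ 8 * C * K ^ 3 * |∑ i', u i' * b' i' κ|) ∧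
      ∀ a : Fin 16, ∃ U : Fin 4 ⊕ Fin 4 → ℝ, (∀ κ, |U κ| ≤ K ^ 2) ∧
        ∀ i, ((HP x (rho i) a : ℤ) : ℝ) = ∑ κ, U κ * r' i κ := by
  obtain ⟨j, hj⟩ := h.xge
  obtain ⟨c, ε, hε, hB, hN⟩ := Pool.Agent.PP5M.chart j
  have hC := h.C1
  have hK := h.K1
  have hT := h.T0
  have hK0 : (0 : ℝ) < K := lt_of_lt_of_le one_pos hK
  have hxj : (0 : ℝ) < |(x j : ℝ)| := by
    by_contra hn
    have : |(x j : ℝ)| = 0 := le_antisymm (not_lt.1 hn) (abs_nonneg _)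
    rw [this, mul_zero] at hj
    exact absurd hT (not_lt.2 hj)
  have hxj0 : (x j : ℝ) ≠ 0 := abs_pos.1 hxj
  have hBr : ∀ s t : Fin 16 → ℤ, ((Bd s t j : ℤ) : ℝ) =
      ∑ m, (ε m : ℝ) * ((s (c (Sum.inl m)) : ℝ) * (t (c (Sum.inr m)) : ℝ) +
        (s (c (Sum.inr m)) : ℝ) * (t (c (Sum.inl m)) : ℝ)) := by
    intro s t
    rw [hB s t]
    push_cast
    rfl
  have hNr : ∀ a : Fin 16, ∃ N : Fin 4 ⊕ Fin 4 → ℝ, (∀ κ, |N κ| ≤ K * T) ∧
      ∀ s : Fin 16 → ℤ, HH x s = 0 → (x j : ℝ) * (s a : ℝ) = ∑ κ, N κ * (s (c κ) : ℝ) := by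
    intro a
    obtain ⟨N, h1, h2⟩ := hN x a
    refine ⟨fun κ => (N κ : ℝ), fun κ => ?_, fun s hs => ?_⟩
    · obtain ⟨i, hi⟩ := h1 κ
      have hi' : |(N κ : ℝ)| ≤ |(x i : ℝ)| := by exact_mod_cast hi
      exact hi'.trans (h.xle i)
    · have h' : ((x j * s a : ℤ) : ℝ) = ((∑ κ, N κ * s (c κ) : ℤ) : ℝ) := by rw [h2 s hs]
      push_cast at h'
      exact h'
  have hlne : ∀ i, l i ≠ 0 := fun i => (h.lp i).ne'
  have hHPK : ∀ i, HH x (HP x (rho i)) = 0 := by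
    intro i
    funext a
    rw [HH_HP, h.ff]
    simp
  refine ⟨j, c, ε, Matrix.of fun i κ => (b i (c κ) : ℝ) / l i,
    Matrix.of fun i κ => ((HP x (rho i) (c κ) : ℤ) : ℝ), hj, hε, hB, fun _ _ => rfl, fun _ _ => rfl,
    ?_, ?_, ?_, ?_, ?_⟩
  · ext i r
    rw [d3c_hyform]
    have e := hBr (b i) (HP x (rho r))
    rw [ent_BdHP (h.bH i), h.br i r, zero_mul] at e
    simp only [Matrix.of_apply, Matrix.zero_apply]
    have e2 : (0 : ℝ) / l i = ∑ m, (ε m : ℝ) * ((b i (c (Sum.inl m)) : ℝ) / l i *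
        ((HP x (rho r) (c (Sum.inr m)) : ℤ) : ℝ) + (b i (c (Sum.inr m)) : ℝ) / l i *
        ((HP x (rho r) (c (Sum.inl m)) : ℤ) : ℝ)) := by
      rw [show (0 : ℝ) = ((0 : ℤ) : ℝ) by simp, e, Finset.sum_div]
      refine Finset.sum_congr rfl fun m _ => ?_
      ring
    rw [← e2, zero_div]
  · intro i κ
    simp only [Matrix.of_apply]
    rw [abs_div, abs_of_pos (h.lp i), div_le_iff₀ (h.lp i)]
    exact h.bl i (c κ)
  · intro i κ
    simp only [Matrix.of_apply]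
    obtain ⟨m, hm⟩ := ent_le x i (c κ)
    have hm' : |((HP x (rho i) (c κ) : ℤ) : ℝ)| ≤ |(x m : ℝ)| := by exact_mod_cast hm
    exact hm'.trans (h.xle m)
  · intro u i
    obtain ⟨a, ha⟩ := h.wc (fun i => u i / l i) i
    obtain ⟨N, hN1, hN2⟩ := hNr a
    set f : Fin 4 ⊕ Fin 4 → ℝ := fun κ => |∑ i', u i' * ((b i' (c κ) : ℝ) / l i')| with hf
    obtain ⟨κ₀, hκ₀⟩ := Finite.exists_max f
    refine ⟨κ₀, ?_⟩
    simp only [Matrix.of_apply]
    change |u i| ≤ 8 * C * K ^ 3 * f κ₀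
    have hf0 : 0 ≤ f κ₀ := abs_nonneg _
    have e1 : (x j : ℝ) * ∑ i', u i' / l i' * (b i' a : ℝ) =
        ∑ κ, N κ * ∑ i', u i' * ((b i' (c κ) : ℝ) / l i') := by
      rw [Finset.mul_sum]
      have : ∀ i', (x j : ℝ) * (u i' / l i' * (b i' a : ℝ)) =
          ∑ κ, N κ * (u i' * ((b i' (c κ) : ℝ) / l i')) := by
        intro i'
        have := hN2 (b i') (h.bH i')
        calc (x j : ℝ) * (u i' / l i' * (b i' a : ℝ)) = u i' / l i' * ((x j : ℝ) * (b i' a : ℝ)) := by ring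
          _ = ∑ κ, N κ * (u i' * ((b i' (c κ) : ℝ) / l i')) := by
            rw [this, Finset.mul_sum]
            exact Finset.sum_congr rfl fun κ _ => by ring
      simp only [this]
      rw [Finset.sum_comm]
      exact Finset.sum_congr rfl fun κ _ => by rw [Finset.mul_sum]
    have e2 : |(x j : ℝ)| * |∑ i', u i' / l i' * (b i' a : ℝ)| ≤ 8 * (K * T * f κ₀) := by
      rw [← abs_mul, e1]
      refine (Finset.abs_sum_le_sum_abs _ _).trans ?_
      have : ∀ κ ∈ (Finset.univ : Finset (Fin 4 ⊕ Fin 4)),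
          |N κ * ∑ i', u i' * ((b i' (c κ) : ℝ) / l i')| ≤ K * T * f κ₀ := by
        intro κ _
        rw [abs_mul]
        exact mul_le_mul (hN1 κ) (hκ₀ κ) (abs_nonneg _) (by positivity)
      refine (Finset.sum_le_card_nsmul _ _ _ this).trans ?_
      simp
    have e3 : T * |∑ i', u i' / l i' * (b i' a : ℝ)| ≤ T * (8 * K ^ 2 * f κ₀) := by
      calc T * |∑ i', u i' / l i' * (b i' a : ℝ)|
          ≤ K * |(x j : ℝ)| * |∑ i', u i' / l i' * (b i' a : ℝ)| :=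
            mul_le_mul_of_nonneg_right hj (abs_nonneg _)
        _ = K * (|(x j : ℝ)| * |∑ i', u i' / l i' * (b i' a : ℝ)|) := by ring
        _ ≤ K * (8 * (K * T * f κ₀)) := mul_le_mul_of_nonneg_left e2 hK0.le
        _ = T * (8 * K ^ 2 * f κ₀) := by ring
    have e4 := le_of_mul_le_mul_left e3 hT
    have e5 : |u i| = |u i / l i| * l i := by
      rw [abs_div, abs_of_pos (h.lp i), div_mul_cancel₀ _ (hlne i)]
    calc |u i| = |u i / l i| * l i := e5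
      _ ≤ C * K * |∑ i', u i' / l i' * (b i' a : ℝ)| := ha
      _ ≤ C * K * (8 * K ^ 2 * f κ₀) := mul_le_mul_of_nonneg_left e4 (by positivity)
      _ = 8 * C * K ^ 3 * f κ₀ := by ring
  · intro a
    obtain ⟨N, hN1, hN2⟩ := hNr a
    refine ⟨fun κ => N κ / (x j : ℝ), fun κ => ?_, fun i => ?_⟩
    · rw [abs_div, div_le_iff₀ hxj]
      calc |N κ| ≤ K * T := hN1 κ
        _ ≤ K * (K * |(x j : ℝ)|) := mul_le_mul_of_nonneg_left hj hK0.le
        _ = K ^ 2 * |(x j : ℝ)| := by ring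
    · have := hN2 (HP x (rho i)) (hHPK i)
      simp only [Matrix.of_apply]
      have e : ∀ κ, N κ / (x j : ℝ) * ((HP x (rho i) (c κ) : ℤ) : ℝ) =
          (N κ * ((HP x (rho i) (c κ) : ℤ) : ℝ)) / (x j : ℝ) := fun κ => by ring
      simp only [e]
      rw [← Finset.sum_div, ← this, mul_div_cancel_left₀ _ hxj0]


private theorem d3c_det_le {n : Type*} [Fintype n] [DecidableEq n] (M : Matrix n n ℝ) (B : n → ℝ)
    (h : ∀ i j, |M i j| ≤ B i) : |M.det| ≤ ((Fintype.card n).factorial : ℝ) * ∏ i, B i := by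
  rw [Matrix.det_apply]
  refine (Finset.abs_sum_le_sum_abs _ _).trans ?_
  have h1 : ∀ σ ∈ (Finset.univ : Finset (Equiv.Perm n)),
      |Equiv.Perm.sign σ • ∏ i, M (σ i) i| ≤ ∏ i, B i := by
    intro σ _
    have h2 : |Equiv.Perm.sign σ • ∏ i, M (σ i) i| = ∏ i, |M (σ i) i| := by
      rw [← Finset.abs_prod]
      rcases Int.units_eq_one_or (Equiv.Perm.sign σ) with h | h <;> simp [h]
    rw [h2]
    calc ∏ i, |M (σ i) i| ≤ ∏ i, B (σ i) :=
          Finset.prod_le_prod (fun _ _ => abs_nonneg _) (fun i _ => h _ _)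
      _ = ∏ i, B i := Equiv.prod_comp σ B
  refine (Finset.sum_le_sum h1).trans ?_
  rw [Finset.sum_const, Finset.card_univ, Fintype.card_perm, nsmul_eq_mul]

private theorem d3c_hy {ε : Fin 4 → ℝ} (hε : ∀ i, ε i = 1 ∨ ε i = -1)
    (b : Matrix (Fin 4) (Fin 4 ⊕ Fin 4) ℝ) {K : ℝ} (hb : ∀ i κ, |b i κ| ≤ K) (i : Fin 4)
    (κ : Fin 4 ⊕ Fin 4) : |(b * hy ε) i κ| ≤ K := by
  have he : ∀ m, |ε m| = 1 := by
    intro m
    rcases hε m with h | h <;> simp [h]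
  rcases κ with m | m
  · have h1 : (b * hy ε) i (Sum.inl m) = b i (Sum.inr m) * ε m := by
      rw [Matrix.mul_apply, Fintype.sum_sum_type]
      simp [hy, Matrix.diagonal_apply]
    rw [h1, abs_mul, he, mul_one]
    exact hb _ _
  · have h1 : (b * hy ε) i (Sum.inr m) = b i (Sum.inl m) * ε m := by
      rw [Matrix.mul_apply, Fintype.sum_sum_type]
      simp [hy, Matrix.diagonal_apply]
    rw [h1, abs_mul, he, mul_one]
    exact hb _ _

private theorem d3c_rows {M N : Matrix (Fin 4) (Fin 4 ⊕ Fin 4) ℝ} {A B : ℝ}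
    (hM : ∀ i κ, |M i κ| ≤ A) (hN : ∀ i κ, |N i κ| ≤ B) :
    |(Matrix.fromRows M N).det| ≤ 40320 * (A ^ 4 * B ^ 4) := by
  have h := d3c_det_le (Matrix.fromRows M N) (Sum.elim (fun _ => A) (fun _ => B)) (by
    intro i j
    rcases i with i | i
    · simpa using hM i j
    · simpa using hN i j)
  refine h.trans (le_of_eq ?_)
  rw [Fintype.prod_sum_type]
  simp [Fintype.card_sum, Nat.factorial]


theorem D3_data {C K T : ℝ} {x : Fin 10 → ℤ}
    (hp : ∀ p : ℕ, p.Prime → ∃ j, ¬ (p : ℤ) ∣ x j)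
    (b : Basis (Fin 4) ℤ (Lx x)) {G : Matrix (Fin 4) (Fin 4) ℤ} {l : Fin 4 → ℝ}
    (h : LD0 C K T x (fun i => (b i : Fin 16 → ℤ)) G l) :
    ∃ k : ℕ, 1 ≤ k ∧ (SS x).det = (k : ℤ) ^ 2 * G.det ∧ RK k x ∧
      (∀ c : Fin 4 → Fin 16, |(((Matrix.of fun i a => HP x (rho i) (c a)).det : ℤ) : ℝ)| ≤
        10 ^ 20 * K ^ 12 * (k * ∏ i, l i)) ∧
      k * ∏ i, l i ≤ 10 ^ 40 * (C * K ^ 4) ^ 16 * T ^ 4 := by
  obtain ⟨k, hk1, hkd, hRK, hdual⟩ := dual_data h.ff hp b G h.gram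
  refine ⟨k, hk1, hkd, hRK, ?_⟩
  obtain ⟨j, c, ε, b', r', hj, hε, hB, hb', hr', hbr, hbl, hrl, hwc, hU⟩ := h.chartZ
  have hC := h.C1
  have hK := h.K1
  have hT := h.T0
  have hL : 0 < ∏ i, l i := Finset.prod_pos fun i _ => h.lp i
  have hk : (0 : ℝ) < k := by exact_mod_cast hk1
  have hkL : 0 < k * ∏ i, l i := mul_pos hk hL
  have hx : (x j : ℝ) ≠ 0 := by
    intro h0
    rw [h0, abs_zero, mul_zero] at hj
    exact absurd h.T0 (not_lt.2 hj)
  have hx' : x j ≠ 0 := by exact_mod_cast hx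
  have hεr : ∀ i, ((ε i : ℤ) : ℝ) = 1 ∨ ((ε i : ℤ) : ℝ) = -1 := by
    intro i
    rcases hε i with e | e
    · left; simp [e]
    · right; simp [e]
  set εr : Fin 4 → ℝ := fun i => (ε i : ℝ) with hεrd
  obtain ⟨hy1, hy2, hy3⟩ := hy_props (ε := εr) hεr
  have hrr : r' = ch c fun i => HP x (rho i) := by
    ext i κ
    rw [hr']
    rfl
  have hbb : (ch c fun i => (b i : Fin 16 → ℤ)) = Matrix.of fun i κ => l i * b' i κ := by
    ext i κ
    have h1 := (h.lp i).ne'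
    rw [Matrix.of_apply, hb']
    simp only [ch, Matrix.of_apply]
    field_simp
  -- first duality
  have hd1 : ∀ Q : Matrix (Fin 4) (Fin 4 ⊕ Fin 4) ℝ,
      |(Matrix.fromRows Q r').det| = (k * ∏ i, l i) * |(Q * hy εr * b'ᵀ).det| := by
    intro Q
    have h1 := hdual j c ε hε hB hx' Q
    rw [hrr, h1, hbb]
    have e1 : Q * hy εr * (Matrix.of fun i κ => l i * b' i κ)ᵀ =
        Matrix.of fun i a => l a * (Q * hy εr * b'ᵀ) i a := by
      ext i a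
      rw [Matrix.mul_apply, Matrix.of_apply, Matrix.mul_apply, Finset.mul_sum]
      refine Finset.sum_congr rfl fun κ _ => ?_
      simp only [Matrix.transpose_apply, Matrix.of_apply]
      ring
    rw [e1, Matrix.det_mul_row, abs_mul, abs_of_pos hL]
    ring
  -- the Gram matrix of `b'`
  have hK3 : 1 ≤ K ^ 3 := one_le_pow₀ hK
  have hQ : 1 ≤ 8 * C * K ^ 3 := by nlinarith
  obtain ⟨A', hA1, hA2, hA3, hA4⟩ := gr_inv hQ hwc
  have h3 : (b' * b'ᵀ).det * A'.det = 1 := by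
    rw [← Matrix.det_mul, hA1, Matrix.det_one]
  have hD0 : 0 < |(b' * b'ᵀ).det| := by
    rw [abs_pos]
    intro h0
    rw [h0, zero_mul] at h3
    exact zero_ne_one h3
  have e0 : b' * hy εr * hy εr * b'ᵀ = b' * b'ᵀ := by
    rw [Matrix.mul_assoc b', hy2, Matrix.mul_one]
  have e0' : b' * hy εr * (b' * hy εr)ᵀ = b' * b'ᵀ := by
    rw [Matrix.transpose_mul, hy1, ← Matrix.mul_assoc, e0]
  -- second duality
  have hd2 : ∀ U : Matrix (Fin 4) (Fin 4 ⊕ Fin 4) ℝ,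
      |(r' * Uᵀ).det| = (k * ∏ i, l i) * |(Matrix.fromRows (b' * hy εr) U).det| := by
    intro U
    have h1 := hd1 (b' * hy εr)
    rw [e0] at h1
    have h2 : Matrix.fromRows (b' * hy εr) U * (Matrix.fromRows (b' * hy εr) r')ᵀ =
        Matrix.fromBlocks (b' * b'ᵀ) 0 (U * (b' * hy εr)ᵀ) (U * r'ᵀ) := by
      rw [Matrix.transpose_fromRows, Matrix.fromRows_mul_fromCols, e0', hbr]
    have h4 := congrArg (fun M => |Matrix.det M|) h2
    simp only [Matrix.det_mul, Matrix.det_transpose, abs_mul,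
      Matrix.det_fromBlocks_zero₁₂] at h4
    rw [h1] at h4
    have h5 : |(U * r'ᵀ).det| = |(r' * Uᵀ).det| := by
      rw [← Matrix.det_transpose (r' * Uᵀ), Matrix.transpose_mul, Matrix.transpose_transpose]
    rw [h5] at h4
    have h6 : |(r' * Uᵀ).det| * |(b' * b'ᵀ).det| =
        ((k * ∏ i, l i) * |(Matrix.fromRows (b' * hy εr) U).det|) * |(b' * b'ᵀ).det| := by
      rw [mul_comm _ |(b' * b'ᵀ).det|, ← h4]
      ring
    exact mul_right_cancel₀ hD0.ne' h6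
  constructor
  · intro c'
    have hUc := fun a : Fin 4 => hU (c' a)
    choose U hUl hUe using hUc
    have e1 : (((Matrix.of fun i a => HP x (rho i) (c' a)).det : ℤ) : ℝ)
        = (r' * (Matrix.of U)ᵀ).det := by
      rw [Int.cast_det]
      congr 1
      ext i a
      rw [Matrix.mul_apply]
      simp only [Matrix.map_apply, Matrix.of_apply, Matrix.transpose_apply]
      rw [hUe a i]
      exact Finset.sum_congr rfl fun κ _ => mul_comm _ _
    rw [e1, hd2]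
    have h1 := d3c_rows (M := b' * hy εr) (N := Matrix.of U) (A := K) (B := K ^ 2)
      (d3c_hy hεr b' hbl) (fun a κ => hUl a κ)
    have h2 : 40320 * (K ^ 4 * (K ^ 2) ^ 4) ≤ 10 ^ 20 * K ^ 12 := by
      have : 0 ≤ K ^ 12 := pow_nonneg (le_trans zero_le_one hK) _
      linarith
    calc (k * ∏ i, l i) * |(Matrix.fromRows (b' * hy εr) (Matrix.of U)).det|
        ≤ (k * ∏ i, l i) * (10 ^ 20 * K ^ 12) := mul_le_mul_of_nonneg_left (h1.trans h2) hkL.le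
      _ = 10 ^ 20 * K ^ 12 * (k * ∏ i, l i) := mul_comm _ _
  · have h1 := hd1 (b' * hy εr)
    rw [e0] at h1
    have h2 := d3c_rows (M := b' * hy εr) (N := r') (A := K) (B := K * T) (d3c_hy hεr b' hbl) hrl
    rw [h1] at h2
    have h4 : |A'.det| ≤ 24 * ((8 * C * K ^ 3) ^ 2) ^ 4 := by
      have h := d3c_det_le A' (fun _ => (8 * C * K ^ 3) ^ 2) hA4
      refine h.trans (le_of_eq ?_)
      simp [Nat.factorial]
    have h5 : |(b' * b'ᵀ).det| * |A'.det| = 1 := by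
      rw [← abs_mul, h3, abs_one]
    have h6 : k * ∏ i, l i = (k * ∏ i, l i) * |(b' * b'ᵀ).det| * |A'.det| := by
      rw [mul_assoc, h5, mul_one]
    have h7 : (k * ∏ i, l i) * |(b' * b'ᵀ).det| * |A'.det|
        ≤ (40320 * (K ^ 4 * (K * T) ^ 4)) * (24 * ((8 * C * K ^ 3) ^ 2) ^ 4) :=
      mul_le_mul h2 h4 (abs_nonneg _) (by positivity)
    have h8 : (40320 * (K ^ 4 * (K * T) ^ 4)) * (24 * ((8 * C * K ^ 3) ^ 2) ^ 4)
        = (40320 * 24 * 8 ^ 8) * (C ^ 8 * K ^ 32 * T ^ 4) := by ring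
    have h9 : C ^ 8 * K ^ 32 * T ^ 4 ≤ C ^ 16 * K ^ 64 * T ^ 4 := by
      have a1 : C ^ 8 ≤ C ^ 16 := pow_le_pow_right₀ hC (by norm_num)
      have a2 : K ^ 32 ≤ K ^ 64 := pow_le_pow_right₀ hK (by norm_num)
      have a3 : C ^ 8 * K ^ 32 ≤ C ^ 16 * K ^ 64 := mul_le_mul a1 a2 (by positivity) (by positivity)
      exact mul_le_mul_of_nonneg_right a3 (by positivity)
    have h10 : 0 ≤ C ^ 16 * K ^ 64 * T ^ 4 := by positivity
    have h11 : 10 ^ 40 * (C * K ^ 4) ^ 16 * T ^ 4 = 10 ^ 40 * (C ^ 16 * K ^ 64 * T ^ 4) := by ring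
    rw [h6, h11]
    refine h7.trans ?_
    rw [h8]
    linarith

end Pool.Agent.PP5M
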