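import Pool.Agent.PP5M.Defs
import Pool.Agent.PP5M.Ldr
import Pool.Agent.PP5M.DtD

/-!
# PP5 (D'), dictionary: `k * Λ` and the `4 x 4` minors of the vectors `HP x (rho i)` (D3)
-/

set_option autoImplicit false

namespace Pool.Agent.PP5M

open Matrix Pool.Agent.PP5L

private theorem dcb_det_le {n : Type*} [Fintype n] [DecidableEq n] (M : Matrix n n ℝ) (B : n → ℝ)
    (h : ∀ i j, |M i j| ≤ B i) : |M.det| ≤ ((Fintype.card n).factorial : ℝ) * ∏ i, B i := by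
  rw [Matrix.det_apply]
  refine (Finset.abs_sum_le_sum_abs _ _).trans ?_
  have h1 : ∀ σ ∈ (Finset.univ : Finset (Equiv.Perm n)),
      |Equiv.Perm.sign σ • ∏ i, M (σ i) i| ≤ ∏ i, B i := by
    intro σ _
    have h2 : |Equiv.Perm.sign σ • ∏ i, M (σ i) i| = ∏ i, |M (σ i) i| := by
      rw [← Finset.abs_prod]
      rcases Int.units_eq_one_or (Equiv.Perm.sign σ) with h | h <;> simp [h]
    rw [h2]
    calc ∏ i, |M (σ i) i| ≤ ∏ i, B (σ i) :=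
          Finset.prod_le_prod (fun _ _ => abs_nonneg _) (fun i _ => h _ _)
      _ = ∏ i, B i := Equiv.prod_comp σ B
  refine (Finset.sum_le_sum h1).trans ?_
  rw [Finset.sum_const, Finset.card_univ, Fintype.card_perm, nsmul_eq_mul]

private theorem dcb_setup {C K T : ℝ} {x : Fin 10 → ℤ} {b : Fin 4 → Fin 16 → ℤ}
    {G : Matrix (Fin 4) (Fin 4) ℤ} {l : Fin 4 → ℝ} {k : ℕ} (h : LD C K T x b G l k) :
    ∃ (ε : Fin 4 → ℝ) (b' r' : Matrix (Fin 4) (Fin 4 ⊕ Fin 4) ℝ),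
      (∀ i, ε i = 1 ∨ ε i = -1) ∧ 0 < k * ∏ i, l i ∧
      (∀ Q : Matrix (Fin 4) (Fin 4 ⊕ Fin 4) ℝ,
        |(Matrix.fromRows Q r').det| = (k * ∏ i, l i) * |(Q * hy ε * b'ᵀ).det|) ∧
      (∀ U : Matrix (Fin 4) (Fin 4 ⊕ Fin 4) ℝ,
        |(r' * Uᵀ).det| = (k * ∏ i, l i) * |(Matrix.fromRows (b' * hy ε) U).det|) ∧
      (∀ i κ, |b' i κ| ≤ K) ∧ (∀ i κ, |r' i κ| ≤ K * T) ∧
      (∀ (u : Fin 4 → ℝ) (i : Fin 4), ∃ κ, |u i| ≤ 8 * C * K ^ 3 * |∑ i', u i' * b' i' κ|) ∧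
      ∀ a : Fin 16, ∃ U : Fin 4 ⊕ Fin 4 → ℝ, (∀ κ, |U κ| ≤ K ^ 2) ∧
        ∀ i, ((HP x (rho i) a : ℤ) : ℝ) = ∑ κ, U κ * r' i κ := by
  obtain ⟨j, c, ε, b', r', hj, hε, -, -, hbb, hrr, hbr, hbl, hrl, hwc, hU⟩ := h.chart
  have hL : 0 < ∏ i, l i := Finset.prod_pos fun i _ => h.lp i
  have hk : (0 : ℝ) < k := by exact_mod_cast h.k1
  have hkL : 0 < k * ∏ i, l i := mul_pos hk hL
  have hx : (x j : ℝ) ≠ 0 := by
    intro h0
    rw [h0, abs_zero, mul_zero] at hj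
    exact absurd h.T0 (not_lt.2 hj)
  set g : Matrix (Fin 4) (Fin 4) ℝ :=
    Matrix.of fun i i' => (l i)⁻¹ * ((l i')⁻¹ * ((x j : ℝ) * (G i i' : ℝ))) with hg
  set s : Matrix (Fin 4) (Fin 4) ℝ := Matrix.of fun i i' => (x j : ℝ) * ((SS x i i' : ℤ) : ℝ) with hs
  have hb1 : b' * hy ε * b'ᵀ = g := by
    ext i i'
    rw [hbb, hg, Matrix.of_apply]
    have h1 := (h.lp i).ne'
    have h2 := (h.lp i').ne'
    field_simp
  have hr1 : r' * hy ε * r'ᵀ = s := by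
    ext i i'
    rw [hrr, hs, Matrix.of_apply]
    ring
  have dG : g.det = (∏ i, l i)⁻¹ * ((∏ i, l i)⁻¹ * ((x j : ℝ) ^ 4 * (G.det : ℝ))) := by
    have e1 : g = Matrix.of fun i i' => (fun i => (l i)⁻¹) i *
        (Matrix.of fun i i' => (fun i' => (l i')⁻¹) i' *
          ((x j : ℝ) • (G.map (fun z => (z : ℝ)))) i i') i i' := by
      ext i i'
      simp [hg]
    rw [e1, Matrix.det_mul_column, Matrix.det_mul_row, Matrix.det_smul, Finset.prod_inv_distrib,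
      Int.cast_det, Fintype.card_fin]
  have dS : s.det = (x j : ℝ) ^ 4 * ((SS x).det : ℝ) := by
    have e1 : s = (x j : ℝ) • ((SS x).map (fun z => (z : ℝ))) := by
      ext i i'
      simp [hs]
    rw [e1, Matrix.det_smul, Int.cast_det, Fintype.card_fin]
  have hkd : ((SS x).det : ℝ) = (k : ℝ) ^ 2 * (G.det : ℝ) := by
    rw [h.kd]
    push_cast
    ring
  have hG0 : (G.det : ℝ) ≠ 0 := by
    intro h0
    rw [h0, mul_zero] at hkd
    exact h.dn (by exact_mod_cast hkd)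
  have hg0 : g.det ≠ 0 := by
    rw [dG]
    exact mul_ne_zero (inv_ne_zero hL.ne') (mul_ne_zero (inv_ne_zero hL.ne')
      (mul_ne_zero (pow_ne_zero _ hx) hG0))
  have hsg : s.det = (k * ∏ i, l i) ^ 2 * g.det := by
    rw [dS, dG, hkd]
    have h1 := hL.ne'
    field_simp
  exact ⟨ε, b', r', hε, hkL, fun Q => det_dual hε hb1 hr1 hbr hg0 hkL hsg Q,
    fun U => det_dual' hε hb1 hr1 hbr hg0 hkL hsg U, hbl, hrl, hwc, hU⟩

private theorem dcb_hy {ε : Fin 4 → ℝ} (hε : ∀ i, ε i = 1 ∨ ε i = -1)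
    (b : Matrix (Fin 4) (Fin 4 ⊕ Fin 4) ℝ) {K : ℝ} (hb : ∀ i κ, |b i κ| ≤ K) (i : Fin 4)
    (κ : Fin 4 ⊕ Fin 4) : |(b * hy ε) i κ| ≤ K := by
  have he : ∀ m, |ε m| = 1 := by
    intro m
    rcases hε m with h | h <;> simp [h]
  rcases κ with m | m
  · have h1 : (b * hy ε) i (Sum.inl m) = b i (Sum.inr m) * ε m := by
      rw [Matrix.mul_apply, Fintype.sum_sum_type]
      simp [hy, Matrix.diagonal_apply]
    rw [h1, abs_mul, he, mul_one]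
    exact hb _ _
  · have h1 : (b * hy ε) i (Sum.inr m) = b i (Sum.inl m) * ε m := by
      rw [Matrix.mul_apply, Fintype.sum_sum_type]
      simp [hy, Matrix.diagonal_apply]
    rw [h1, abs_mul, he, mul_one]
    exact hb _ _

private theorem dcb_rows {M N : Matrix (Fin 4) (Fin 4 ⊕ Fin 4) ℝ} {A B : ℝ}
    (hM : ∀ i κ, |M i κ| ≤ A) (hN : ∀ i κ, |N i κ| ≤ B) :
    |(Matrix.fromRows M N).det| ≤ 40320 * (A ^ 4 * B ^ 4) := by
  have h := dcb_det_le (Matrix.fromRows M N) (Sum.elim (fun _ => A) (fun _ => B)) (by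
    intro i j
    rcases i with i | i
    · simpa using hM i j
    · simpa using hN i j)
  refine h.trans (le_of_eq ?_)
  rw [Fintype.prod_sum_type]
  simp [Fintype.card_sum, Nat.factorial]

/-- size 3.  `LD.chart` and `det_dual'` with `g = b' H b'ᵀ`, `s = r' H r'ᵀ`: `det s = (x j) ^ 4 * det (SS x)`,
`det g = (x j) ^ 4 * det G / (∏ l i) ^ 2` (pull the factors out of rows and columns), so `det s = (k * ∏ l i) ^ 2 * det g`; `det G ≠ 0` from `kd`, `dn`.  For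
`c : Fin 4 → Fin 16` the matrix `(HP x (rho i) (c a))` is `r' * Uᵀ` with `|U| ≤ K ^ 2`, and
`|det (fromRows (b' H) U)| ≤ 8! * K ^ 4 * (K ^ 2) ^ 4` (the entries of `b' H` are at most `K`: `H` is a signed permutation; or `8 K`). -/
theorem minor_le {C K T : ℝ} {x : Fin 10 → ℤ} {b : Fin 4 → Fin 16 → ℤ} {G : Matrix (Fin 4) (Fin 4) ℤ}
    {l : Fin 4 → ℝ} {k : ℕ} (h : LD C K T x b G l k) (c : Fin 4 → Fin 16) :
    |(((Matrix.of fun i a => HP x (rho i) (c a)).det : ℤ) : ℝ)| ≤ 10 ^ 20 * K ^ 12 * (k * ∏ i, l i) := by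
  obtain ⟨ε, b', r', hε, hkL, -, hd, hbl, -, -, hU⟩ := dcb_setup h
  have hUc := fun a : Fin 4 => hU (c a)
  choose U hUl hUe using hUc
  have e1 : (((Matrix.of fun i a => HP x (rho i) (c a)).det : ℤ) : ℝ)
      = (r' * (Matrix.of U)ᵀ).det := by
    rw [Int.cast_det]
    congr 1
    ext i a
    rw [Matrix.mul_apply]
    simp only [Matrix.map_apply, Matrix.of_apply, Matrix.transpose_apply]
    rw [hUe a i]
    exact Finset.sum_congr rfl fun κ _ => mul_comm _ _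
  rw [e1, hd]
  have h1 := dcb_rows (M := b' * hy ε) (N := Matrix.of U) (A := K) (B := K ^ 2)
    (dcb_hy hε b' hbl) (fun a κ => hUl a κ)
  have h2 : 40320 * (K ^ 4 * (K ^ 2) ^ 4) ≤ 10 ^ 20 * K ^ 12 := by
    have : 0 ≤ K ^ 12 := pow_nonneg (le_trans zero_le_one h.K1) _
    nlinarith
  calc (k * ∏ i, l i) * |(Matrix.fromRows (b' * hy ε) (Matrix.of U)).det|
      ≤ (k * ∏ i, l i) * (10 ^ 20 * K ^ 12) := mul_le_mul_of_nonneg_left (h1.trans h2) hkL.le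
    _ = 10 ^ 20 * K ^ 12 * (k * ∏ i, l i) := mul_comm _ _

/-- size 3.  `det_dual` with `Q = b' * H`: `Q * H * b'ᵀ = b' * b'ᵀ`, and `1 = det (b' b'ᵀ) * det A'` (`gr_inv` with
`Q = 8 C K ^ 3`), `|det A'| ≤ 24 (Q ^ 2) ^ 4`; on the other side `|det (fromRows (b' H) r')| ≤ 8! * (8 K) ^ 4 * (K T) ^ 4`. -/
theorem kL_le {C K T : ℝ} {x : Fin 10 → ℤ} {b : Fin 4 → Fin 16 → ℤ} {G : Matrix (Fin 4) (Fin 4) ℤ}
    {l : Fin 4 → ℝ} {k : ℕ} (h : LD C K T x b G l k) :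
    k * ∏ i, l i ≤ 10 ^ 40 * (C * K ^ 4) ^ 16 * T ^ 4 := by
  obtain ⟨ε, b', r', hε, hkL, hd, -, hbl, hrl, hwc, -⟩ := dcb_setup h
  obtain ⟨hy1, hy2, hy3⟩ := hy_props hε
  have hC := h.C1
  have hK := h.K1
  have hT := h.T0
  have hK3 : 1 ≤ K ^ 3 := one_le_pow₀ hK
  have hQ : 1 ≤ 8 * C * K ^ 3 := by nlinarith
  obtain ⟨A', hA1, hA2, hA3, hA4⟩ := gr_inv hQ hwc
  have h1 := hd (b' * hy ε)
  have e1 : b' * hy ε * hy ε * b'ᵀ = b' * b'ᵀ := by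
    rw [Matrix.mul_assoc b', hy2, Matrix.mul_one]
  rw [e1] at h1
  have h2 := dcb_rows (M := b' * hy ε) (N := r') (A := K) (B := K * T) (dcb_hy hε b' hbl) hrl
  rw [h1] at h2
  have h3 : (b' * b'ᵀ).det * A'.det = 1 := by
    rw [← Matrix.det_mul, hA1, Matrix.det_one]
  have h4 : |A'.det| ≤ 24 * ((8 * C * K ^ 3) ^ 2) ^ 4 := by
    have h := dcb_det_le A' (fun _ => (8 * C * K ^ 3) ^ 2) hA4
    refine h.trans (le_of_eq ?_)
    simp [Nat.factorial]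
  have h5 : |(b' * b'ᵀ).det| * |A'.det| = 1 := by
    rw [← abs_mul, h3, abs_one]
  have h6 : k * ∏ i, l i = (k * ∏ i, l i) * |(b' * b'ᵀ).det| * |A'.det| := by
    rw [mul_assoc, h5, mul_one]
  have h7 : (k * ∏ i, l i) * |(b' * b'ᵀ).det| * |A'.det|
      ≤ (40320 * (K ^ 4 * (K * T) ^ 4)) * (24 * ((8 * C * K ^ 3) ^ 2) ^ 4) :=
    mul_le_mul h2 h4 (abs_nonneg _) (by positivity)
  have h8 : (40320 * (K ^ 4 * (K * T) ^ 4)) * (24 * ((8 * C * K ^ 3) ^ 2) ^ 4)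
      = (40320 * 24 * 8 ^ 8) * (C ^ 8 * K ^ 32 * T ^ 4) := by ring
  have h9 : C ^ 8 * K ^ 32 * T ^ 4 ≤ C ^ 16 * K ^ 64 * T ^ 4 := by
    have a1 : C ^ 8 ≤ C ^ 16 := pow_le_pow_right₀ hC (by norm_num)
    have a2 : K ^ 32 ≤ K ^ 64 := pow_le_pow_right₀ hK (by norm_num)
    have a3 : C ^ 8 * K ^ 32 ≤ C ^ 16 * K ^ 64 := mul_le_mul a1 a2 (by positivity) (by positivity)
    exact mul_le_mul_of_nonneg_right a3 (by positivity)
  have h10 : 0 ≤ C ^ 16 * K ^ 64 * T ^ 4 := by positivity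
  have h11 : 10 ^ 40 * (C * K ^ 4) ^ 16 * T ^ 4 = 10 ^ 40 * (C ^ 16 * K ^ 64 * T ^ 4) := by ring
  rw [h6, h11]
  refine h7.trans ?_
  rw [h8]
  nlinarith

end Pool.Agent.PP5M
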