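import Pool.Agent.PP5.LDefs
import Pool.Agent.PP5.LIda
import Pool.Agent.PP5.LIdc

/-!
# PP5M/Ent: common entries of L3, Ldr, D3c
-/

set_option autoImplicit false

namespace Pool.Agent.PP5M

open Matrix Module Pool.Agent.PP5L

theorem ent_bF (x : Fin 10 → ℤ) (j : Fin 10) : bF x (xhat (Pi.single j 1)) = x j := by
  fin_cases j <;> simp [bF, xhat]

theorem ent_Bd (s t : Fin 16 → ℤ) (j : Fin 10) :
    Bd s t j = dot (HH (xhat (Pi.single j 1)) s) t := by
  have h16 : ∀ f : Fin 16 → ℤ, ∑ j, f j = f 0 + f 1 + f 2 + f 3 + f 4 + f 5 + f 6 + f 7 + f 8 +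
      f 9 + f 10 + f 11 + f 12 + f 13 + f 14 + f 15 := by
    intro f
    rw [Fin.sum_univ_castSucc, Fin.sum_univ_castSucc, Fin.sum_univ_castSucc, Fin.sum_univ_castSucc,
      Fin.sum_univ_castSucc, Fin.sum_univ_castSucc, Fin.sum_univ_castSucc, Fin.sum_univ_castSucc,
      Fin.sum_univ_eight]
    rfl
  have hh : ∀ y : Fin 10 → ℤ, dot (HH y s) t =
      y 2 * Bd s t 0 - y 3 * Bd s t 1 + y 0 * Bd s t 2 - y 1 * Bd s t 3 - y 5 * Bd s t 4
        - y 4 * Bd s t 5 - y 9 * Bd s t 6 + y 8 * Bd s t 7 + y 7 * Bd s t 8 - y 6 * Bd s t 9 := by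
    intro y
    rw [dot, h16]
    simp only [HH, Bd, Matrix.cons_val]
    ring
  rw [hh]
  fin_cases j <;> simp [xhat]

theorem ent_BdHP {x : Fin 10 → ℤ} {s : Fin 16 → ℤ} (hs : HH x s = 0) (t : Fin 16 → ℤ)
    (j : Fin 10) : Bd s (HP x t) j = dot s t * x j := by
  have e1 : HP x (HH (xhat (Pi.single j 1)) s) = x j • s := by
    funext i
    have := HP_HH_pol x (xhat (Pi.single j 1)) s i
    rw [hs, ent_bF] at this
    have h0 : HP (xhat (Pi.single j (1 : ℤ))) (0 : Fin 16 → ℤ) i = 0 := by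
      fin_cases i <;> simp [HP]
    rw [h0, add_zero] at this
    rw [this]; rfl
  rw [ent_Bd, ← dot_HP_symm, e1]
  simp only [dot, Pi.smul_apply, smul_eq_mul, Finset.sum_mul]
  exact Finset.sum_congr rfl fun i _ => by ring

theorem ent_le (x : Fin 10 → ℤ) (i : Fin 4) (a : Fin 16) :
    ∃ m, |HP x (rho i) a| ≤ |x m| := by
  have key : ∀ i : Fin 4, ∀ a : Fin 16, (HP x (rho i) a = 0) ∨
      ∃ m, HP x (rho i) a = x m ∨ HP x (rho i) a = -x m := by
    intro i a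
    fin_cases a <;>
      (simp only [Fin.zero_eta, Fin.mk_one, Fin.reduceFinMk, HP, Matrix.cons_val]
       fin_cases i <;>
        (simp only [Fin.zero_eta, Fin.mk_one, Fin.reduceFinMk, rho, Matrix.cons_val]
         simp <;> first | exact Or.inr ⟨_, Or.inl rfl⟩ | exact Or.inr ⟨_, Or.inr rfl⟩))
  rcases key i a with h | ⟨m, h | h⟩
  · exact ⟨0, by rw [h, abs_zero]; exact abs_nonneg _⟩
  · exact ⟨m, by rw [h]⟩
  · exact ⟨m, by rw [h, abs_neg]⟩

end Pool.Agent.PP5M
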